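import Pool.Agent.H31.LOC.Tlp
import Pool.Agent.H66.IL.WB
import Pool.Agent.H61.TT.Area
import Pool.Agent.H43.UP.PfS

/-!
# [H31 LOC Inv] invariant functionals are invariant Beltrami forms

`l1d`. PROOF. `ν = volume.restrict Z` is sigma-finite; `ρ x = exp (-‖x‖ ^ 2)` (or any positive continuous integrable function, e.g. `(1 + ‖x‖ ^ 2) ^ (-2)`), `ν' = ν.withDensity ρ` is finite. `f ↦ f ρ` is an isometry of `L^1(ν')` onto `L^1(ν)`; `l1dual` (H66/IL/WB) for `Λ' f = Λ (f ρ)`: `Λ (f ρ) = ∫ f g dν' = ∫ f ρ g dν`; every `u ∈ L^1(ν)` is `f ρ` with `f = u / ρ`. (If `Z` has finite volume this is `l1dual`.)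
`inv_mu`. PROOF. `g` from `l1d`, `μ = g`. Let `A k` be the sets of `inj_cover` (H61/TT/Area; disjoint, measurable, `gg` injective on `A k`, union `{b ≠ 0, ww ≠ 0}`, of full measure). Fix `k` and a bounded measurable `u` with support in a bounded measurable set `S ⊆ A k ∩ pre a b Z` (`⊆ Z`): `U` = its class. `T U = pf a b u` a.e. on `Z`, `pf u (gg z) = u z / dg z ^ 2` for `z ∈ S`, `0` off `gg '' S` (`pf_one`, H43/UP/PfS). So `∫_Z u μ = ℓ U = ℓ (T U) = ∫_(gg '' S) pf u * μ = ∫_S u z / dg z ^ 2 * μ (gg z) * ‖dg z‖ ^ 2`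
(change of variables, `integral_image_eq_integral_abs_det_fderiv_smul`; `abs_det_smulRight`, `area_piece` in H61/TT/Area), `‖dg‖^2 / dg^2 = conj dg / dg`. With `u` = indicators (times bounded functions) of subsets: `μ z = μ (gg z) conj (dg z) / dg z` for a.e. `z ∈ S` (`ae_eq_zero_of_forall_setIntegral_eq_of_sigmaFinite` or similar). Exhaust `A k ∩ pre a b Z` by `S_n = .. ∩ ball 0 n`.
-/

set_option autoImplicit false

open Filter Topology Polynomial Metric Set MeasureTheory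

namespace Pool.Agent.H31.LOC

open Pool.Agent.H61.TT Pool.Agent.H57.CP Pool.Agent.H18.UP
open Pool.Agent.H78.NS (pf)

variable {d : ℕ} {a b : Polynomial ℂ} {Z : Set ℂ}

/-- the functional of a sigma finite measure -/
private theorem inv_l1g {ν : Measure ℂ} [SigmaFinite ν] (Λ : Lp ℂ 1 ν →L[ℂ] ℂ) :
    ∃ (g : ℂ → ℂ) (C : ℝ), Measurable g ∧ (∀ x, ‖g x‖ ≤ C) ∧
      ∀ f : Lp ℂ 1 ν, Λ f = ∫ x, (f : ℂ → ℂ) x * g x ∂ν := by
  obtain ⟨ρ, hρ0, hρm, hρ1⟩ := exists_pos_lintegral_lt_of_sigmaFinite ν (one_ne_zero : (1 : ENNReal) ≠ 0)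
  obtain ⟨ν', hν'⟩ : ∃ ν' : Measure ℂ, ν' = ν.withDensity fun x => (ρ x : ENNReal) := ⟨_, rfl⟩
  have hfin : IsFiniteMeasure ν' := by
    constructor
    rw [hν', withDensity_apply _ MeasurableSet.univ, setLIntegral_univ]
    exact hρ1.trans ENNReal.one_lt_top
  subst hν'
  have hsm : ∀ (c : ℂ) (f : Lp ℂ 1 (ν.withDensity fun x => (ρ x : ENNReal))),
      withDensitySMulLI ν hρm (c • f) = c • withDensitySMulLI ν hρm f := by
    intro c f
    apply Lp.ext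
    rw [withDensitySMulLI_apply, withDensitySMulLI_apply]
    have h1 := (memL1_smul_of_L1_withDensity hρm (c • f)).coeFn_toLp
    have h2 := (memL1_smul_of_L1_withDensity hρm f).coeFn_toLp
    have h3 := Lp.coeFn_smul c ((memL1_smul_of_L1_withDensity hρm f).toLp fun x => ρ x • f x)
    have h4 := Lp.coeFn_smul c f
    have h4' : ∀ᵐ x ∂(ν.withDensity fun x => (ρ x : ENNReal)), (c • f : Lp ℂ 1 _) x = c • f x := h4
    rw [ae_withDensity_iff hρm.coe_nnreal_ennreal] at h4'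
    filter_upwards [h1, h2, h3, h4'] with x a1 a2 a3 a4
    have a5 : (c • f : Lp ℂ 1 _) x = c • f x := a4 (by exact_mod_cast (hρ0 x).ne')
    rw [a1, a3, Pi.smul_apply, a2, a5, smul_comm]
  let Λ₁ : Lp ℂ 1 (ν.withDensity fun x => (ρ x : ENNReal)) →ₗ[ℂ] ℂ :=
    { toFun := fun f => Λ (withDensitySMulLI ν hρm f)
      map_add' := fun f g => by rw [map_add, map_add]
      map_smul' := fun c f => by rw [hsm, map_smul, RingHom.id_apply] }
  have hΛ₁ : ∀ f, ‖Λ₁ f‖ ≤ ‖Λ‖ * ‖f‖ := by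
    intro f
    have h1 := Λ.le_opNorm (withDensitySMulLI ν hρm f)
    rw [LinearIsometry.norm_map] at h1
    exact h1
  let Λ' : Lp ℂ 1 (ν.withDensity fun x => (ρ x : ENNReal)) →L[ℂ] ℂ := Λ₁.mkContinuous ‖Λ‖ hΛ₁
  have hΛ' : ∀ f, Λ' f = Λ (withDensitySMulLI ν hρm f) := fun f => rfl
  obtain ⟨g, hgm, hgb, hg⟩ := Pool.Agent.H66.IL.l1dual Λ' (norm_nonneg Λ) (fun f => hΛ₁ f)
  refine ⟨g, ‖Λ‖, hgm, hgb, ?_⟩
  intro u
  have hρr : ∀ x, ((ρ x : ℝ) : ℂ) ≠ 0 := fun x => by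
    have := (hρ0 x).ne'
    exact_mod_cast this
  have hui : Integrable (u : ℂ → ℂ) ν := L1.integrable_coeFn u
  have hfi : Integrable (fun x => (u : ℂ → ℂ) x / ((ρ x : ℝ) : ℂ)) (ν.withDensity fun x => (ρ x : ENNReal)) := by
    rw [integrable_withDensity_iff_integrable_smul hρm]
    refine hui.congr (Eventually.of_forall fun x => ?_)
    beta_reduce
    rw [NNReal.smul_def, Complex.real_smul, mul_div_cancel₀ _ (hρr x)]
  have hfe := (memLp_one_iff_integrable.2 hfi).coeFn_toLp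
  obtain ⟨f, hf⟩ : ∃ f, f = (memLp_one_iff_integrable.2 hfi).toLp (fun x => (u : ℂ → ℂ) x / ((ρ x : ℝ) : ℂ)) := ⟨_, rfl⟩
  rw [← hf] at hfe
  have hfe' : ∀ᵐ x ∂ν, f x = (u : ℂ → ℂ) x / ((ρ x : ℝ) : ℂ) := by
    have h1 : ∀ᵐ x ∂(ν.withDensity fun x => (ρ x : ENNReal)), f x = (u : ℂ → ℂ) x / ((ρ x : ℝ) : ℂ) := hfe
    rw [ae_withDensity_iff hρm.coe_nnreal_ennreal] at h1
    filter_upwards [h1] with x a1
    exact a1 (by exact_mod_cast (hρ0 x).ne')
  have hJ : withDensitySMulLI ν hρm f = u := by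
    apply Lp.ext
    rw [withDensitySMulLI_apply]
    filter_upwards [(memL1_smul_of_L1_withDensity hρm f).coeFn_toLp, hfe'] with x a1 a2
    rw [a1, a2, NNReal.smul_def, Complex.real_smul, mul_div_cancel₀ _ (hρr x)]
  have h1 := hg f
  rw [hΛ', hJ, integral_withDensity_eq_integral_smul hρm] at h1
  rw [h1]
  refine integral_congr_ae ?_
  filter_upwards [hfe'] with x a1
  rw [a1, NNReal.smul_def, Complex.real_smul, ← mul_assoc, mul_div_cancel₀ _ (hρr x)]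

theorem l1d (hZ : MeasurableSet Z) (Λ : Lp ℂ 1 (volume.restrict Z) →L[ℂ] ℂ) :
    ∃ (g : ℂ → ℂ) (C : ℝ), Measurable g ∧ (∀ x, ‖g x‖ ≤ C) ∧
      ∀ f : Lp ℂ 1 (volume.restrict Z), Λ f = ∫ x in Z, (f : ℂ → ℂ) x * g x := by
  exact inv_l1g Λ

/-- the equation of integrals on one piece -/
private theorem inv_piece (h : RatD d a b) (hp : pre a b Z ⊆ Z)
    {T : Lp ℂ 1 (volume.restrict Z) →L[ℂ] Lp ℂ 1 (volume.restrict Z)} (hT : IsT a b Z T)
    {ℓ : Lp ℂ 1 (volume.restrict Z) →L[ℂ] ℂ} (hℓ : ∀ u, ℓ (T u) = ℓ u) {μ : ℂ → ℂ}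
    (hμ : ∀ f : Lp ℂ 1 (volume.restrict Z), ℓ f = ∫ x in Z, (f : ℂ → ℂ) x * μ x) (hZ : MeasurableSet Z)
    {S : Set ℂ} (hS : MeasurableSet S) (hSZ : S ⊆ pre a b Z) (hfin : volume S ≠ ⊤) (hinj : InjOn (gg a b) S) :
    ∫ z in S, μ z = ∫ z in S, ‖dg a b z‖ ^ 2 • (1 / dg a b z ^ 2 * μ (gg a b z)) := by
  have hfin' : (volume.restrict Z) S ≠ ⊤ := ne_top_of_le_ne_top hfin (Measure.restrict_apply_le Z S)
  obtain ⟨u, hu⟩ : ∃ u, u = indicatorConstLp 1 hS hfin' (1 : ℂ) := ⟨_, rfl⟩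
  have hue : (u : ℂ → ℂ) =ᵐ[volume.restrict Z] S.indicator fun _ => (1 : ℂ) := by
    rw [hu]
    exact indicatorConstLp_coeFn
  have hTu := hT u (S.indicator fun _ => (1 : ℂ)) (measurable_const.indicator hS) hue
  have hSZ' : S ⊆ Z := hSZ.trans hp
  have hb : ∀ z ∈ S, b.eval z ≠ 0 := fun z hz => (hSZ hz).1
  obtain ⟨p1, p2⟩ := Pool.Agent.H43.UP.pf_one h hb hinj (fun _ => (1 : ℂ))
  -- the left side
  have h1 : ℓ u = ∫ z in S, μ z := by
    rw [hμ]
    have h2 : ∫ x in Z, (u : ℂ → ℂ) x * μ x = ∫ x in Z, S.indicator μ x := by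
      refine integral_congr_ae ?_
      filter_upwards [hue] with x hx
      rw [hx]
      by_cases hxS : x ∈ S
      · rw [indicator_of_mem hxS, indicator_of_mem hxS, one_mul]
      · rw [indicator_of_notMem hxS, indicator_of_notMem hxS, zero_mul]
    rw [h2, setIntegral_indicator hS, inter_eq_self_of_subset_right hSZ']
  -- the right side
  have h3 : ℓ (T u) = ∫ z in S, ‖dg a b z‖ ^ 2 • (1 / dg a b z ^ 2 * μ (gg a b z)) := by
    rw [hμ]
    have h4 : ∫ x in Z, ((T u : Lp ℂ 1 (volume.restrict Z)) : ℂ → ℂ) x * μ x =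
        ∫ x in Z, pf a b (S.indicator fun _ => (1 : ℂ)) x * μ x := by
      refine integral_congr_ae ?_
      filter_upwards [hTu] with x hx
      rw [hx]
    have hsub : gg a b '' S ⊆ Z := by
      rintro _ ⟨z, hz, rfl⟩
      exact (hSZ hz).2
    have h5 : ∫ x in Z, pf a b (S.indicator fun _ => (1 : ℂ)) x * μ x =
        ∫ x in gg a b '' S, pf a b (S.indicator fun _ => (1 : ℂ)) x * μ x := by
      refine setIntegral_eq_of_subset_of_forall_sdiff_eq_zero hZ hsub ?_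
      intro x hx
      rw [p2 x hx.2, zero_mul]
    have hder : ∀ z ∈ S, HasFDerivWithinAt (gg a b)
        ((ContinuousLinearMap.smulRight (1 : ℂ →L[ℂ] ℂ) (dg a b z)).restrictScalars ℝ) S z := fun z hz =>
      ((hasStrictDerivAt_gg (hb z hz)).hasDerivAt.hasFDerivAt.restrictScalars ℝ).hasFDerivWithinAt
    rw [h4, h5, integral_image_eq_integral_abs_det_fderiv_smul volume hS hder hinj]
    refine setIntegral_congr_fun hS ?_
    intro z hz
    beta_reduce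
    rw [abs_det_smulRight, p1 z hz]
  rw [← h1, ← h3, hℓ]

theorem inv_mu (h : RatD d a b) (hZ : MeasurableSet Z) (hp : pre a b Z ⊆ Z)
    {T : Lp ℂ 1 (volume.restrict Z) →L[ℂ] Lp ℂ 1 (volume.restrict Z)} (hT : IsT a b Z T)
    {ℓ : Lp ℂ 1 (volume.restrict Z) →L[ℂ] ℂ} (hℓ : ∀ u, ℓ (T u) = ℓ u) :
    ∃ (μ : ℂ → ℂ) (C : ℝ), Measurable μ ∧ (∀ x, ‖μ x‖ ≤ C) ∧
      (∀ f : Lp ℂ 1 (volume.restrict Z), ℓ f = ∫ x in Z, (f : ℂ → ℂ) x * μ x) ∧
      ∀ᵐ z : ℂ, z ∈ pre a b Z → μ (gg a b z) * (starRingEnd ℂ) (dg a b z) = μ z * dg a b z := by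
  obtain ⟨μ, C, hμm, hμb, hμ⟩ := l1d hZ ℓ
  refine ⟨μ, C, hμm, hμb, hμ, ?_⟩
  obtain ⟨A, hA, -, hinj, hU⟩ := inj_cover h
  have hpm : MeasurableSet (pre a b Z) := measurableSet_pre hZ
  have key : ∀ k n : ℕ, ∀ᵐ z ∂(volume.restrict ((A k ∩ pre a b Z) ∩ ball 0 (n : ℝ))),
      μ z = ‖dg a b z‖ ^ 2 • (1 / dg a b z ^ 2 * μ (gg a b z)) := by
    intro k n
    obtain ⟨S₀, hS₀⟩ : ∃ S₀, S₀ = (A k ∩ pre a b Z) ∩ ball 0 (n : ℝ) := ⟨_, rfl⟩
    rw [← hS₀]
    have hS₀m : MeasurableSet S₀ := by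
      rw [hS₀]
      exact ((hA k).inter hpm).inter measurableSet_ball
    have hS₀f : volume S₀ ≠ ⊤ := by
      rw [hS₀]
      exact ne_top_of_le_ne_top (measure_ball_lt_top (μ := (volume : Measure ℂ)) (x := 0) (r := (n : ℝ))).ne
        (measure_mono inter_subset_right)
    have hfm : IsFiniteMeasure (volume.restrict S₀) := ⟨by
      rw [Measure.restrict_apply_univ]
      exact lt_top_iff_ne_top.2 hS₀f⟩
    have hm2 : Measurable fun z => ‖dg a b z‖ ^ 2 • (1 / dg a b z ^ 2 * μ (gg a b z)) := by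
      have h1 : Measurable (dg a b) := measurable_dg
      have h2 : Measurable fun z => μ (gg a b z) := hμm.comp measurable_gg
      exact (h1.norm.pow_const 2).smul ((measurable_const.div (h1.pow_const 2)).mul h2)
    have hb2 : ∀ z, ‖‖dg a b z‖ ^ 2 • (1 / dg a b z ^ 2 * μ (gg a b z))‖ ≤ C := by
      intro z
      have hC := hμb (gg a b z)
      have hC0 : 0 ≤ C := (norm_nonneg _).trans hC
      rw [norm_smul, norm_mul, norm_div, norm_one, norm_pow, norm_pow, norm_norm]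
      by_cases h0 : dg a b z = 0
      · rw [h0]
        simpa using hC0
      · have h1 : 0 < ‖dg a b z‖ := norm_pos_iff.2 h0
        have h2 : ‖dg a b z‖ ^ 2 * (1 / ‖dg a b z‖ ^ 2 * ‖μ (gg a b z)‖) = ‖μ (gg a b z)‖ := by
          field_simp
        rw [h2]
        exact hC
    refine Integrable.ae_eq_of_forall_setIntegral_eq μ _ ?_ ?_ ?_
    · exact Integrable.of_bound hμm.aestronglyMeasurable C (Eventually.of_forall hμb)
    · exact Integrable.of_bound hm2.aestronglyMeasurable C (Eventually.of_forall hb2)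
    · intro s hs _
      rw [Measure.restrict_restrict hs]
      have hsub : s ∩ S₀ ⊆ A k ∩ pre a b Z := by
        rw [hS₀]
        exact fun z hz => hz.2.1
      refine inv_piece h hp hT hℓ hμ hZ (hs.inter hS₀m) (fun z hz => (hsub hz).2)
        (ne_top_of_le_ne_top hS₀f (measure_mono inter_subset_right)) ?_
      exact (hinj k).mono fun z hz => (hsub hz).1
  have key2 : ∀ᵐ z : ℂ, ∀ k n : ℕ, z ∈ (A k ∩ pre a b Z) ∩ ball 0 (n : ℝ) →
      μ z = ‖dg a b z‖ ^ 2 • (1 / dg a b z ^ 2 * μ (gg a b z)) := by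
    rw [ae_all_iff]
    intro k
    rw [ae_all_iff]
    intro n
    exact (ae_restrict_iff' (((hA k).inter hpm).inter measurableSet_ball)).1 (key k n)
  filter_upwards [key2, ae_ww h] with z hz hw hzp
  have hzU : z ∈ ⋃ k, A k := by
    rw [hU]
    exact ⟨hzp.1, hw⟩
  obtain ⟨k, hk⟩ := mem_iUnion.1 hzU
  obtain ⟨n, hn⟩ := exists_nat_gt ‖z‖
  have h1 := hz k n ⟨⟨hk, hzp⟩, by rwa [mem_ball_zero_iff]⟩
  have hd0 : dg a b z ≠ 0 := div_ne_zero hw (pow_ne_zero 2 hzp.1)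
  rw [h1, Complex.real_smul]
  have h2 : ((‖dg a b z‖ ^ 2 : ℝ) : ℂ) = dg a b z * (starRingEnd ℂ) (dg a b z) := by
    rw [Complex.mul_conj, Complex.normSq_eq_norm_sq]
  rw [h2]
  field_simp

end Pool.Agent.H31.LOC
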