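import Pool.Agent.H31.LOC.Defs
import Pool.Agent.H31.NS.PFI
import Pool.Agent.H43.UP.PfS

/-!
# [H31 LOC Tlp] the push forward on `L ^ 1 (Z)`

`pf_set`. PROOF. As `pf_int` (H31/NS/PFI): `‖pf φ x‖ₑ ≤ ∑_(y ∈ fs x) E y`, `E y = ‖φ y‖ₑ * ENNReal.ofReal ((‖dg a b y‖ ^ 2)⁻¹)`, `area` (H61/TT/Area) with `T = S`.
`tlp`. PROOF. `ν = volume.restrict Z`. For `u ∈ Lp ℂ 1 ν` take the measurable representative `ψ` (`AEStronglyMeasurable.mk`), `T u = ` class of `pf a b (Z.indicator ψ)` (measurable up to null sets and integrable by `pf_int`; for `w ∈ Z` all `y ∈ fs a b w` with `b y ≠ 0` are in `pre a b Z ⊆ Z`: `fs_iff`, H43/UP/PfS). Independence of the representative: `ψ = ψ'` a.e. on `Z` gives `∫⁻_Z ‖pf ψ - pf ψ'‖ₑ ≤ ∫⁻_(pre Z) ‖ψ - ψ'‖ₑ = 0` (`pf` is additive, `pf_set`).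
Linearity from `pf (ψ + ψ') = pf ψ + pf ψ'`, `pf (c ψ) = c pf ψ`; `LinearMap.mkContinuous` with the constant `1`. `tlp_it`: induction on `k` with `pf_set`: `∫⁻_S ‖T (T^k u)‖ₑ ≤ ∫⁻_(pre S) ‖T^k u‖ₑ ≤ ∫⁻_((pre)^[k] (pre S)) ‖u‖ₑ`.
-/

set_option autoImplicit false

open Filter Topology Polynomial Metric Set MeasureTheory

namespace Pool.Agent.H31.LOC

open Pool.Agent.H61.TT Pool.Agent.H57.CP Pool.Agent.H18.UP
open Pool.Agent.H78.NS (pf)

variable {d : ℕ} {a b : Polynomial ℂ} {Z : Set ℂ}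

theorem pf_set (h : RatD d a b) {φ : ℂ → ℂ} (hφ : Measurable φ) {S : Set ℂ} (hS : MeasurableSet S) :
    ∫⁻ w in S, ‖pf a b φ w‖ₑ ≤ ∫⁻ w in pre a b S, ‖φ w‖ₑ := by
  have hdm : Measurable (dg a b) := measurable_dg
  obtain ⟨E, hE⟩ : ∃ E : ℂ → ENNReal, E = fun y => ‖φ y / dg a b y ^ 2‖ₑ := ⟨_, rfl⟩
  have hEm : Measurable E := by
    rw [hE]
    exact (hφ.div (hdm.pow_const 2)).enorm
  have hEle : ∀ y, E y * ENNReal.ofReal (‖dg a b y‖ ^ 2) ≤ ‖φ y‖ₑ := by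
    intro y
    by_cases hy : dg a b y = 0
    · rw [hy]; simp
    · rw [hE]
      simp only
      rw [← ofReal_norm, ← ofReal_norm, ← ENNReal.ofReal_mul (norm_nonneg _)]
      apply ENNReal.ofReal_le_ofReal
      rw [norm_div, norm_pow]
      have : ‖dg a b y‖ ≠ 0 := norm_ne_zero_iff.2 hy
      apply le_of_eq
      field_simp
  calc ∫⁻ x in S, ‖pf a b φ x‖ₑ ≤ ∫⁻ x in S, ∑ y ∈ fs a b x, E y := by
        refine lintegral_mono fun x => ?_
        rw [hE]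
        exact enorm_sum_le _ _
    _ = ∫⁻ y in pre a b S, E y * ENNReal.ofReal (‖dg a b y‖ ^ 2) := area h hS hEm
    _ ≤ ∫⁻ y in pre a b S, ‖φ y‖ₑ := lintegral_mono hEle

/-- `T` is the push forward on `L ^ 1 (Z)` -/
def IsT (a b : Polynomial ℂ) (Z : Set ℂ) (T : Lp ℂ 1 (volume.restrict Z) →L[ℂ] Lp ℂ 1 (volume.restrict Z)) : Prop :=
  ∀ (u : Lp ℂ 1 (volume.restrict Z)) (ψ : ℂ → ℂ), Measurable ψ → (u : ℂ → ℂ) =ᵐ[volume.restrict Z] ψ →
    (T u : ℂ → ℂ) =ᵐ[volume.restrict Z] pf a b ψ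

private theorem tlp_ind (h : RatD d a b) (hp : pre a b Z ⊆ Z) (ψ : ℂ → ℂ) {w : ℂ} (hw : w ∈ Z) :
    pf a b (Z.indicator ψ) w = pf a b ψ w := by
  unfold pf
  refine Finset.sum_congr rfl fun y hy => ?_
  have h1 := (Pool.Agent.H43.UP.fs_iff h).1 hy
  have h2 : y ∈ Z := hp ⟨h1.1, by rw [h1.2]; exact hw⟩
  rw [indicator_of_mem h2]

private theorem tlp_add (φ ψ : ℂ → ℂ) (w : ℂ) :
    pf a b (fun y => φ y + ψ y) w = pf a b φ w + pf a b ψ w := by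
  unfold pf
  rw [← Finset.sum_add_distrib]
  exact Finset.sum_congr rfl fun y _ => add_div _ _ _

private theorem tlp_sub (φ ψ : ℂ → ℂ) (w : ℂ) :
    pf a b (fun y => φ y - ψ y) w = pf a b φ w - pf a b ψ w := by
  unfold pf
  rw [← Finset.sum_sub_distrib]
  exact Finset.sum_congr rfl fun y _ => sub_div _ _ _

private theorem tlp_smul (c : ℂ) (ψ : ℂ → ℂ) (w : ℂ) :
    pf a b (fun y => c * ψ y) w = c * pf a b ψ w := by
  unfold pf
  rw [Finset.mul_sum]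
  exact Finset.sum_congr rfl fun y _ => mul_div_assoc _ _ _

private theorem tlp_ae (h : RatD d a b) (hZ : MeasurableSet Z) (hp : pre a b Z ⊆ Z) {φ ψ : ℂ → ℂ}
    (hφ : Measurable φ) (hψ : Measurable ψ) (he : φ =ᵐ[volume.restrict Z] ψ) :
    pf a b φ =ᵐ[volume.restrict Z] pf a b ψ := by
  have hD : Measurable (Z.indicator fun y => φ y - ψ y) := (hφ.sub hψ).indicator hZ
  have hD0 : (Z.indicator fun y => φ y - ψ y) =ᵐ[volume] fun _ => (0 : ℂ) := by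
    have h1 := (ae_restrict_iff' hZ).1 he
    filter_upwards [h1] with y hy
    by_cases hyZ : y ∈ Z
    · rw [indicator_of_mem hyZ, hy hyZ, sub_self]
    · rw [indicator_of_notMem hyZ]
  have hDi : Integrable (Z.indicator fun y => φ y - ψ y) :=
    (integrable_zero ℂ ℂ volume).congr hD0.symm
  obtain ⟨h2, h3⟩ := Pool.Agent.H31.NS.pf_int h hD hDi
  have h4 : ∫⁻ y : ℂ, ‖(Z.indicator fun y => φ y - ψ y) y‖ₑ = 0 := by
    rw [lintegral_congr_ae (g := fun _ => (0 : ENNReal))]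
    · simp
    · filter_upwards [hD0] with y hy
      rw [hy]
      simp
  have h5 : ∫⁻ x : ℂ, ‖pf a b (Z.indicator fun y => φ y - ψ y) x‖ₑ = 0 := le_antisymm (h3.trans h4.le) zero_le
  have h6 := (lintegral_eq_zero_iff' h2.1.enorm).1 h5
  have h7 : ∀ᵐ x : ℂ, x ∈ Z → pf a b φ x = pf a b ψ x := by
    filter_upwards [h6] with x hx hxZ
    have h8 : pf a b (Z.indicator fun y => φ y - ψ y) x = 0 := by
      have h9 : ‖pf a b (Z.indicator fun y => φ y - ψ y) x‖ₑ = 0 := hx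
      exact enorm_eq_zero.1 h9
    rw [tlp_ind h hp _ hxZ, tlp_sub] at h8
    exact sub_eq_zero.1 h8
  exact (ae_restrict_iff' hZ).2 h7

theorem tlp (h : RatD d a b) (hZ : MeasurableSet Z) (hp : pre a b Z ⊆ Z) :
    ∃ T : Lp ℂ 1 (volume.restrict Z) →L[ℂ] Lp ℂ 1 (volume.restrict Z), (∀ u, ‖T u‖ ≤ ‖u‖) ∧ IsT a b Z T := by
  have hrep : ∀ u : Lp ℂ 1 (volume.restrict Z), ∃ ψ : ℂ → ℂ, Measurable ψ ∧
      (u : ℂ → ℂ) =ᵐ[volume.restrict Z] ψ := fun u =>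
    ⟨(Lp.aestronglyMeasurable u).mk _, (Lp.aestronglyMeasurable u).stronglyMeasurable_mk.measurable,
      (Lp.aestronglyMeasurable u).ae_eq_mk⟩
  choose R hRm hR using hrep
  have hRi : ∀ u, Integrable (Z.indicator (R u)) := fun u => by
    rw [integrable_indicator_iff hZ]
    exact (L1.integrable_coeFn u).congr (hR u)
  have hPi : ∀ u, Integrable (pf a b (Z.indicator (R u))) (volume.restrict Z) := fun u =>
    (Pool.Agent.H31.NS.pf_int h ((hRm u).indicator hZ) (hRi u)).1.restrict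
  obtain ⟨T0, hT0⟩ : ∃ T0 : Lp ℂ 1 (volume.restrict Z) → Lp ℂ 1 (volume.restrict Z),
      ∀ u, T0 u = (hPi u).toL1 _ := ⟨fun u => (hPi u).toL1 _, fun _ => rfl⟩
  have hTe : ∀ (u : Lp ℂ 1 (volume.restrict Z)) (ψ : ℂ → ℂ), Measurable ψ →
      (u : ℂ → ℂ) =ᵐ[volume.restrict Z] ψ → (T0 u : ℂ → ℂ) =ᵐ[volume.restrict Z] pf a b ψ := by
    intro u ψ hψ hu
    rw [hT0]
    refine (Integrable.coeFn_toL1 (hPi u)).trans ?_
    refine Filter.EventuallyEq.trans ?_ (tlp_ae h hZ hp (hRm u) hψ ((hR u).symm.trans hu))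
    exact (ae_restrict_iff' hZ).2 (Filter.Eventually.of_forall fun x hx => tlp_ind h hp _ hx)
  have hadd : ∀ u v, T0 (u + v) = T0 u + T0 v := by
    intro u v
    apply Lp.ext
    have h1 : ((u + v : Lp ℂ 1 (volume.restrict Z)) : ℂ → ℂ) =ᵐ[volume.restrict Z] fun y => R u y + R v y := by
      filter_upwards [Lp.coeFn_add u v, hR u, hR v] with y h2 h3 h4
      rw [h2, Pi.add_apply, h3, h4]
    have h5 := hTe (u + v) _ ((hRm u).add (hRm v)) h1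
    filter_upwards [h5, hTe u _ (hRm u) (hR u), hTe v _ (hRm v) (hR v), Lp.coeFn_add (T0 u) (T0 v)] with y h6 h7 h8 h9
    rw [h6, h9, Pi.add_apply, h7, h8]
    exact tlp_add _ _ _
  have hsmul : ∀ (c : ℂ) u, T0 (c • u) = c • T0 u := by
    intro c u
    apply Lp.ext
    have h1 : ((c • u : Lp ℂ 1 (volume.restrict Z)) : ℂ → ℂ) =ᵐ[volume.restrict Z] fun y => c * R u y := by
      filter_upwards [Lp.coeFn_smul c u, hR u] with y h2 h3
      rw [h2, Pi.smul_apply, h3, smul_eq_mul]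
    have h5 := hTe (c • u) _ ((hRm u).const_mul c) h1
    filter_upwards [h5, hTe u _ (hRm u) (hR u), Lp.coeFn_smul c (T0 u)] with y h6 h7 h9
    rw [h6, h9, Pi.smul_apply, h7, smul_eq_mul]
    exact tlp_smul _ _ _
  have hnorm : ∀ u, ‖T0 u‖ ≤ ‖u‖ := by
    intro u
    rw [L1.norm_def, L1.norm_def]
    have hfin : ∫⁻ x in Z, ‖(u : ℂ → ℂ) x‖ₑ ≠ ⊤ := (L1.integrable_coeFn u).2.ne
    refine ENNReal.toReal_mono hfin ?_
    calc ∫⁻ x in Z, ‖(T0 u : ℂ → ℂ) x‖ₑ = ∫⁻ x in Z, ‖pf a b (R u) x‖ₑ := by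
          refine lintegral_congr_ae ?_
          filter_upwards [hTe u _ (hRm u) (hR u)] with x hx
          rw [hx]
      _ ≤ ∫⁻ x in pre a b Z, ‖R u x‖ₑ := pf_set h (hRm u) hZ
      _ ≤ ∫⁻ x in Z, ‖R u x‖ₑ := lintegral_mono_set hp
      _ = ∫⁻ x in Z, ‖(u : ℂ → ℂ) x‖ₑ := by
          refine lintegral_congr_ae ?_
          filter_upwards [hR u] with x hx
          rw [hx]
  let T1 : Lp ℂ 1 (volume.restrict Z) →ₗ[ℂ] Lp ℂ 1 (volume.restrict Z) :=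
    { toFun := T0
      map_add' := hadd
      map_smul' := hsmul }
  refine ⟨T1.mkContinuous 1 fun u => ?_, fun u => hnorm u, hTe⟩
  rw [one_mul]
  exact hnorm u

theorem tlp_it (h : RatD d a b) (hZ : MeasurableSet Z) (hp : pre a b Z ⊆ Z)
    {T : Lp ℂ 1 (volume.restrict Z) →L[ℂ] Lp ℂ 1 (volume.restrict Z)} (hT : IsT a b Z T) (k : ℕ)
    (u : Lp ℂ 1 (volume.restrict Z)) {S : Set ℂ} (hS : MeasurableSet S) (hSZ : S ⊆ Z) :
    ∫⁻ w in S, ‖((T ^ k) u : ℂ → ℂ) w‖ₑ ≤ ∫⁻ w in (pre a b)^[k] S, ‖(u : ℂ → ℂ) w‖ₑ := by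
  have hone : ∀ (u : Lp ℂ 1 (volume.restrict Z)) (S : Set ℂ), MeasurableSet S → S ⊆ Z →
      ∫⁻ w in S, ‖(T u : ℂ → ℂ) w‖ₑ ≤ ∫⁻ w in pre a b S, ‖(u : ℂ → ℂ) w‖ₑ := by
    intro u S hS hSZ
    obtain ⟨ψ, hψm, hψ⟩ : ∃ ψ : ℂ → ℂ, Measurable ψ ∧ (u : ℂ → ℂ) =ᵐ[volume.restrict Z] ψ :=
      ⟨(Lp.aestronglyMeasurable u).mk _, (Lp.aestronglyMeasurable u).stronglyMeasurable_mk.measurable,
        (Lp.aestronglyMeasurable u).ae_eq_mk⟩
    have h1 := hT u ψ hψm hψ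
    have hpS : pre a b S ⊆ Z := fun y hy => hp ⟨hy.1, hSZ hy.2⟩
    calc ∫⁻ w in S, ‖(T u : ℂ → ℂ) w‖ₑ = ∫⁻ w in S, ‖pf a b ψ w‖ₑ := by
          refine lintegral_congr_ae ?_
          have h2 := ae_mono (Measure.restrict_mono hSZ (le_refl (volume : Measure ℂ))) h1
          filter_upwards [h2] with x hx
          rw [hx]
      _ ≤ ∫⁻ w in pre a b S, ‖ψ w‖ₑ := pf_set h hψm hS
      _ = ∫⁻ w in pre a b S, ‖(u : ℂ → ℂ) w‖ₑ := by
          refine lintegral_congr_ae ?_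
          have h2 := ae_mono (Measure.restrict_mono hpS (le_refl (volume : Measure ℂ))) hψ
          filter_upwards [h2] with x hx
          rw [hx]
  have hpk : ∀ k : ℕ, MeasurableSet ((pre a b)^[k] S) ∧ (pre a b)^[k] S ⊆ Z := by
    intro k
    induction k with
    | zero => exact ⟨hS, hSZ⟩
    | succ k ih =>
      rw [Function.iterate_succ_apply']
      exact ⟨measurableSet_pre ih.1, fun y hy => hp ⟨hy.1, ih.2 hy.2⟩⟩
  induction k generalizing u with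
  | zero => exact le_refl _
  | succ k ih =>
    rw [Function.iterate_succ_apply', pow_succ]
    exact (ih (T u)).trans (hone u _ (hpk k).1 (hpk k).2)

end Pool.Agent.H31.LOC
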