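import Pool.Agent.H31.LOC.Defs
import Pool.Agent.H27.BR.PSG
import Pool.Agent.H56.UE.UEX
import Pool.Agent.H64.NC.PRT

/-!
# [H31 LOC Uep] upper exponents in the chart

`ue_p`. PROOF. `z ∈ JC u` (`js_conj`), `e w = φ.symm w`; `(Rf v)^[n] (e w) = e (gg^[n] w)` as long as `b ≠ 0` along the orbit (for `w` near `z`, `n` fixed). `q = exp ε > 1`. `R` a bound of `JC u` plus `1`. As in `hb_up`, `hb_lo` (H56/END/Chm): `chord (e w) (e w') ≤ K ‖w - w'‖`, `‖w - w'‖ ≤ (1 + R ^ 2) K chord (e w) (e w')` for `w, w'` of norm at most `R`. Let `Q = 2 (1 + R ^ 2) K ^ 2`.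
Suppose `‖Dn gg n z‖ > Q q ^ n` for infinitely many `n`. For such `n`: `gg^[n]` has the derivative `Dn gg n z` at `z`, so for `y` near `z`: `‖gg^[n] y - gg^[n] z‖ ≥ (Q / 2) q^n ‖y - z‖`, hence `chord ((Rf v)^[n] (e y)) ((Rf v)^[n] (e z)) ≥ (Q / 2) q ^ n ‖y - z‖ / ((1 + R ^ 2) K) ≥ q ^ n chord (e y) (e z)`: for all points near `x = e z` (`φ` is a homeomorphism): `PUE (Rf v) x`, contradiction. So `‖Dn gg n z‖ ≤ Q q ^ n` for large `n`; enlarge the constant for the other `n`.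
-/

set_option autoImplicit false

open Filter Topology Polynomial Metric Set MeasureTheory

namespace Pool.Agent.H31.LOC

open Pool.Agent.H44.Fatou (rat rat_continuous rat_coe rat_coe_of_ne pt crit_coe)
open Pool.Agent.H56.HR (FS EqAt)
open Pool.Agent.H32.BT Pool.Agent.H79.Eul Pool.Agent.H79.Par
open Pool.Agent.H35.EX Pool.Agent.H44.RR Pool.Agent.H44.RC Pool.Agent.H47.RJ
open Pool.Agent.H47.NN Pool.Agent.H44.ND Pool.Agent.H79.ES
open Pool.Agent.H64.NC Pool.Agent.H61.TT Pool.Agent.H57.CP Pool.Agent.H3.NC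
open Pool.Agent.H27.BR (CD jc_comp)
open Pool.Agent.H56.UE (PUE)

variable {d : ℕ}

private theorem chu (z w : ℂ) : chord (z : OnePoint ℂ) (w : OnePoint ℂ) ≤ ‖z - w‖ := by
  have h3 : chord (z : OnePoint ℂ) (w : OnePoint ℂ) = ‖z - w‖ / (√(1 + ‖z‖ ^ 2) * √(1 + ‖w‖ ^ 2)) := rfl
  have h1 : ∀ x : ℂ, 1 ≤ √(1 + ‖x‖ ^ 2) := fun x => by
    rw [Real.one_le_sqrt]
    nlinarith [sq_nonneg ‖x‖]
  rw [h3]
  refine div_le_self (norm_nonneg _) ?_
  nlinarith [h1 z, h1 w]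

private theorem chl {R : ℝ} {z w : ℂ} (hz : ‖z‖ ≤ R) (hw : ‖w‖ ≤ R) :
    ‖z - w‖ ≤ (1 + R ^ 2) * chord (z : OnePoint ℂ) (w : OnePoint ℂ) := by
  have h3 : chord (z : OnePoint ℂ) (w : OnePoint ℂ) = ‖z - w‖ / (√(1 + ‖z‖ ^ 2) * √(1 + ‖w‖ ^ 2)) := rfl
  have h1 : ∀ x : ℂ, ‖x‖ ≤ R → √(1 + ‖x‖ ^ 2) ≤ √(1 + R ^ 2) := fun x hx => by
    apply Real.sqrt_le_sqrt
    have := norm_nonneg x
    nlinarith
  have h0 : ∀ x : ℂ, 0 < √(1 + ‖x‖ ^ 2) := fun x => Real.sqrt_pos.2 (by positivity)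
  have h2 : √(1 + ‖z‖ ^ 2) * √(1 + ‖w‖ ^ 2) ≤ 1 + R ^ 2 := by
    calc _ ≤ √(1 + R ^ 2) * √(1 + R ^ 2) := mul_le_mul (h1 z hz) (h1 w hw) (h0 w).le (Real.sqrt_nonneg _)
      _ = 1 + R ^ 2 := Real.mul_self_sqrt (by positivity)
  rw [h3, ← mul_div_assoc, le_div_iff₀ (mul_pos (h0 z) (h0 w)), mul_comm]
  exact mul_le_mul_of_nonneg_right h2 (norm_nonneg _)

private theorem dn_der {g : ℂ → ℂ} {z : ℂ} (hd : ∀ n : ℕ, DifferentiableAt ℂ g (g^[n] z)) (n : ℕ) :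
    HasDerivAt (g^[n]) (Dn g n z) z := by
  induction n with
  | zero =>
    have e : Dn g 0 z = 1 := by
      unfold Dn
      rw [Finset.range_zero, Finset.prod_empty]
    rw [e]
    exact hasDerivAt_id z
  | succ n ih =>
    have h1 := (hd n).hasDerivAt.comp z ih
    have e : Dn g (n + 1) z = deriv g (g^[n] z) * Dn g n z := by
      unfold Dn
      rw [Finset.prod_range_succ, mul_comm]
    rw [e, Function.iterate_succ']
    exact h1

theorem ue_p {v u : E d} {φ : OnePoint ℂ ≃ₜ OnePoint ℂ} {K : ℝ} {T : Set (OnePoint ℂ)} {D : ℕ} (h : CD v u φ K T D)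
    {x : OnePoint ℂ} (hx : x ∈ JS (Rf v)) {z : ℂ} (hz : (z : OnePoint ℂ) = φ x) (hU : ¬ PUE (Rf v) x) :
    ∀ ε : ℝ, 0 < ε → ∃ A : ℝ, ∀ n : ℕ, ‖Dn (Pool.Agent.H61.TT.gg (pol u.1) (pol u.2)) n z‖ ≤ A * Real.exp (ε * n) := by
  intro ε hε
  have hK1 : 1 ≤ K := Pool.Agent.H18.UP.k_one h.bil
  have hKp : 0 < K := by linarith
  have hzJ : z ∈ JC u := by
    show (z : OnePoint ℂ) ∈ JS (Rf u)
    rw [hz]
    exact (js_conj φ (fun y => (h.conj y).symm) x).2 hx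
  obtain ⟨g, hg⟩ : ∃ g, g = Pool.Agent.H61.TT.gg (pol u.1) (pol u.2) := ⟨_, rfl⟩
  rw [← hg]
  have hJi : ∀ w ∈ JC u, g w ∈ JC u := by
    intro w hw
    have h1 := h.ga.js 1 hw
    rw [Function.iterate_one, h.ga.ggz hw, ← hg] at h1
    exact h1
  have hn : ∀ n : ℕ, g^[n] z ∈ JC u := by
    intro n
    induction n with
    | zero => exact hzJ
    | succ n ih =>
      rw [Function.iterate_succ_apply']
      exact hJi _ ih
  have hbn : ∀ n : ℕ, (pol u.2).eval (g^[n] z) ≠ 0 := fun n => h.ga.bne (hn n)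
  have hdf : ∀ n : ℕ, DifferentiableAt ℂ g (g^[n] z) := fun n => by
    rw [hg]
    rw [hg] at hbn
    exact (hasDerivAt_gg (hbn n)).differentiableAt
  obtain ⟨R0, hR0⟩ := (jc_comp h.ga).isBounded.exists_norm_le
  obtain ⟨R, hR⟩ : ∃ R, R = R0 + 1 := ⟨_, rfl⟩
  -- the chart map
  obtain ⟨e, he⟩ : ∃ e : ℂ → OnePoint ℂ, e = fun w : ℂ => φ.symm (w : OnePoint ℂ) := ⟨_, rfl⟩
  have hea : ∀ w : ℂ, e w = φ.symm (w : OnePoint ℂ) := fun w => by rw [he]
  have hφe : ∀ w : ℂ, φ (e w) = (w : OnePoint ℂ) := fun w => by rw [hea, φ.apply_symm_apply]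
  have hex : e z = x := by rw [hea, hz, φ.symm_apply_apply]
  have hemb : Topology.IsOpenEmbedding e := he ▸ φ.symm.isOpenEmbedding.comp OnePoint.isOpenEmbedding_coe
  have hnh : Filter.map e (𝓝 z) = 𝓝 x := by rw [hemb.map_nhds_eq, hex]
  have heq : ∀ w : ℂ, (pol u.2).eval w ≠ 0 → Rf v (e w) = e (g w) := by
    intro w hw
    have h1 := h.conj (e w)
    rw [hφe] at h1
    have h2 : Rf u (w : OnePoint ℂ) = ((g w : ℂ) : OnePoint ℂ) := by
      rw [hg]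
      exact rat_coe_of_ne hw
    rw [h2] at h1
    rw [hea (g w), h1, φ.symm_apply_apply]
  have hit : ∀ n : ℕ, ∀ᶠ w in 𝓝 z, (Rf v)^[n] (e w) = e (g^[n] w) := by
    intro n
    induction n with
    | zero => exact Eventually.of_forall fun w => rfl
    | succ n ih =>
      have hc : ContinuousAt (fun w => (pol u.2).eval (g^[n] w)) z :=
        (pol u.2).continuous.continuousAt.comp (dn_der hdf n).continuousAt
      filter_upwards [ih, hc.eventually_ne (hbn n)] with w hw hw2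
      rw [Function.iterate_succ_apply', Function.iterate_succ_apply', hw, heq _ hw2]
  have hb_up : ∀ y w : ℂ, chord (e y) (e w) ≤ K * ‖y - w‖ := by
    intro y w
    have h1 := (h.bil (e y) (e w)).2
    rw [hφe, hφe] at h1
    exact h1.trans (mul_le_mul_of_nonneg_left (chu y w) hKp.le)
  have hM0 : 0 < 1 + R ^ 2 := by positivity
  have hb_lo : ∀ y w : ℂ, ‖y‖ ≤ R → ‖w‖ ≤ R → ‖y - w‖ ≤ (1 + R ^ 2) * K * chord (e y) (e w) := by
    intro y w hy hw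
    have h1 := (h.bil (e y) (e w)).1
    rw [hφe, hφe] at h1
    calc ‖y - w‖ ≤ (1 + R ^ 2) * chord (y : OnePoint ℂ) (w : OnePoint ℂ) := chl hy hw
      _ ≤ (1 + R ^ 2) * (K * chord (e y) (e w)) := mul_le_mul_of_nonneg_left h1 hM0.le
      _ = _ := by ring
  obtain ⟨Q, hQ⟩ : ∃ Q, Q = 2 * (1 + R ^ 2) * K ^ 2 := ⟨_, rfl⟩
  have hQp : 0 < Q := by
    rw [hQ]
    positivity
  obtain ⟨q, hq⟩ : ∃ q, q = Real.exp ε := ⟨_, rfl⟩
  have hq1 : 1 < q := by
    rw [hq]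
    exact Real.one_lt_exp_iff.2 hε
  have hexp : ∀ n : ℕ, Real.exp (ε * n) = q ^ n := fun n => by
    rw [hq, ← Real.exp_nat_mul, mul_comm]
  have hev : ∀ᶠ n : ℕ in atTop, ‖Dn g n z‖ ≤ Q * q ^ n := by
    by_contra hcon
    rw [Filter.not_eventually] at hcon
    refine hU ⟨q, hq1, hcon.mono fun n hn1 => ?_⟩
    rw [not_le] at hn1
    rw [← hnh, Filter.eventually_map]
    have hqn : 0 < q ^ n := pow_pos (by linarith) n
    have hDp : 0 < ‖Dn g n z‖ := (mul_pos hQp hqn).trans hn1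
    have hder := dn_der hdf n
    have hlo := hder.isLittleO.def (half_pos hDp)
    have hbd : ∀ᶠ w in 𝓝 z, ‖g^[n] w‖ < R := by
      have hc : ContinuousAt (fun w => ‖g^[n] w‖) z := hder.continuousAt.norm
      refine hc.eventually_lt continuousAt_const ?_
      have := hR0 _ (hn n)
      rw [hR]
      linarith
    filter_upwards [hlo, hbd, hit n] with w w1 w2 w3
    have h0 : (Rf v)^[n] x = e (g^[n] z) := by
      have := (hit n).self_of_nhds
      rwa [hex] at this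
    rw [h0, w3]
    have h1 : ‖Dn g n z‖ * ‖w - z‖ / 2 ≤ ‖g^[n] z - g^[n] w‖ := by
      have a1 : ‖(w - z) • Dn g n z‖ = ‖Dn g n z‖ * ‖w - z‖ := by rw [norm_smul, mul_comm]
      have a2 : ‖(w - z) • Dn g n z‖ ≤ ‖g^[n] w - g^[n] z - (w - z) • Dn g n z‖ + ‖g^[n] w - g^[n] z‖ := by
        have := norm_sub_le (g^[n] w - g^[n] z) (g^[n] w - g^[n] z - (w - z) • Dn g n z)
        rw [sub_sub_cancel] at this
        linarith
      rw [norm_sub_rev (g^[n] z)]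
      linarith
    have hzR : ‖g^[n] z‖ ≤ R := by
      have := hR0 _ (hn n)
      rw [hR]
      linarith
    have h2 := hb_lo (g^[n] z) (g^[n] w) hzR w2.le
    have h3 := hb_up z w
    rw [hex] at h3
    have h4 : ‖z - w‖ = ‖w - z‖ := norm_sub_rev z w
    have h5 : q ^ n * chord x (e w) ≤ q ^ n * (K * ‖w - z‖) := by
      rw [← h4]
      exact mul_le_mul_of_nonneg_left h3 hqn.le
    refine h5.trans ?_
    have hP : 0 < (1 + R ^ 2) * K := mul_pos hM0 hKp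
    refine le_of_mul_le_mul_left ?_ hP
    refine le_trans ?_ h2
    refine le_trans ?_ h1
    have h6 : Q * q ^ n * ‖w - z‖ ≤ ‖Dn g n z‖ * ‖w - z‖ := mul_le_mul_of_nonneg_right hn1.le (norm_nonneg _)
    rw [hQ] at h6
    calc (1 + R ^ 2) * K * (q ^ n * (K * ‖w - z‖)) = (2 * (1 + R ^ 2) * K ^ 2 * q ^ n * ‖w - z‖) / 2 := by ring
      _ ≤ ‖Dn g n z‖ * ‖w - z‖ / 2 := by linarith
  obtain ⟨N, hN⟩ := Filter.eventually_atTop.1 hev
  refine ⟨Q + ∑ k ∈ Finset.range N, ‖Dn g k z‖, fun n => ?_⟩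
  rw [hexp]
  have hqn : 1 ≤ q ^ n := one_le_pow₀ hq1.le
  have hs : 0 ≤ ∑ k ∈ Finset.range N, ‖Dn g k z‖ := Finset.sum_nonneg fun k _ => norm_nonneg _
  by_cases hnN : N ≤ n
  · have h1 := hN n hnN
    nlinarith
  · have h1 : ‖Dn g n z‖ ≤ ∑ k ∈ Finset.range N, ‖Dn g k z‖ :=
      Finset.single_le_sum (f := fun k => ‖Dn g k z‖) (fun k _ => norm_nonneg _) (Finset.mem_range.2 (by omega))
    nlinarith

end Pool.Agent.H31.LOC
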