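import Pool.Agent.H31.LOC.Ldp
import Pool.Agent.H31.LOC.Uep
import Pool.Agent.H66.IV.Fx
import Pool.Agent.H56.END.LocD
import Pool.Agent.H64.NC.SFZ

/-!
# THEOREM LOC, Julia set not the sphere

`fxl_cd`: a map with a chart whose Julia critical values have no positive upper exponent: `FXl`. `locf`: `LOCf` (H56/END/LocD).
-/

set_option autoImplicit false

open Filter Topology Polynomial Metric Set MeasureTheory

namespace Pool.Agent.H31.LOC

open Pool.Agent.H44.Fatou (rat rat_continuous rat_coe rat_coe_of_ne pt crit_coe)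
open Pool.Agent.H56.HR (FS EqAt)
open Pool.Agent.H32.BT Pool.Agent.H79.Eul Pool.Agent.H79.Par
open Pool.Agent.H35.EX Pool.Agent.H44.RR Pool.Agent.H44.RC Pool.Agent.H47.RJ
open Pool.Agent.H47.NN Pool.Agent.H44.ND Pool.Agent.H79.ES Pool.Agent.H44.TH
open Pool.Agent.H64.NC Pool.Agent.H61.TT Pool.Agent.H57.CP Pool.Agent.H3.NC
open Pool.Agent.H57.CF Pool.Agent.H47.NM
open Pool.Agent.H18.UP (PJ Cr NJ ZV US0 US VP us0)
open Pool.Agent.H27.BR (CD ps_ga jc_comp geo_cd cu_cd pj_sub)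
open Pool.Agent.H83.UP (qq vp_ga)
open Pool.Agent.H56.UE (PUE pr_pue)
open Pool.Agent.H66.IL (Ct Rt RI ct_ri ct_cont mor)

/-- the field of an invariant line field on `B`, for all `δ` at once -/
private theorem fx_all {f μ : ℂ → ℂ} {U J : Set ℂ} (hU : IsOpen U) (hf : DifferentiableOn ℂ f U) (hJ : IsCompact J)
    (hm : Measurable μ) {C : ℝ} (hb : ∀ z, ‖μ z‖ ≤ C) (h0 : ∀ z, z ∉ J → μ z = 0)
    (hinv : ∀ᵐ z : ℂ, z ∈ U → μ (f z) * (starRingEnd ℂ) (deriv f z) = μ z * deriv f z)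
    {B : Set ℂ} (hB : MeasurableSet B) (hp : 0 < volume {z ∈ B | μ z ≠ 0}) :
    ∃ (E : Set ℂ) (X h ν : ℂ → ℂ) (b0 : ℝ), E ⊆ B ∧ ∀ δ : ℝ, Pool.Agent.H56.UD.FX f U J E δ X h ν b0 := by
  obtain ⟨R, hR⟩ := hJ.isBounded.subset_ball (0 : ℂ)
  have h0' : ∀ u, u ∉ ball (0 : ℂ) R → μ u = 0 := fun u hu => h0 u fun h => hu (hR h)
  have hV := ct_cont hm hb h0'
  have hri : ∀ z w : ℂ, z.re ≤ w.re → z.im ≤ w.im → RI (Ct μ) z w = 2 * Complex.I * ∫ u in Rt z w, μ u :=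
    fun z w h1 h2 => ct_ri hm hb h0' h1 h2
  have hBJ : MeasurableSet (B ∩ J) := hB.inter hJ.isClosed.measurableSet
  have hp' : 0 < volume {z ∈ B ∩ J | μ z ≠ 0} := by
    refine hp.trans_le (measure_mono fun z hz => ⟨⟨hz.1, ?_⟩, hz.2⟩)
    by_contra h
    exact hz.2 (h0 z h)
  obtain ⟨E, D, b0, hD, hb0, hEB, hEc, hEp, hlb, hub, hd, hT⟩ :=
    Pool.Agent.H66.IV.fg_inv hU hf hm hb hV hri hinv hBJ hp'
  refine ⟨E, fun z => Ct μ z / D, fun z => Ct μ (f z) / D - deriv f z * (Ct μ z / D), fun z => μ z / D, b0,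
    hEB.trans inter_subset_left, fun δ => ⟨hb0, hV.div_const _, hd, fun z _ => by ring, ?_, hEc,
      hEB.trans inter_subset_right, hEp, fun z hz => ⟨hlb z hz, hub z⟩, hT⟩⟩
  refine DifferentiableOn.div_const ?_ _
  intro z hz
  obtain ⟨s, hs, hsJ⟩ := Metric.isOpen_iff.1 hJ.isClosed.isOpen_compl z hz.2
  have h1 : DifferentiableOn ℂ (Ct μ) (ball z s) := by
    refine mor hV.continuousOn fun a b h1 h2 h3 => ?_
    rw [hri a b h1 h2]
    have hRm : MeasurableSet (Rt a b) := by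
      unfold Rt
      exact (measurableSet_le measurable_const Complex.measurable_re).inter
        ((measurableSet_le Complex.measurable_re measurable_const).inter
        ((measurableSet_le measurable_const Complex.measurable_im).inter
        (measurableSet_le Complex.measurable_im measurable_const)))
    rw [setIntegral_congr_fun (g := fun _ => (0 : ℂ)) hRm fun u hu => h0 u fun h => hsJ (h3 hu) h]
    simp
  exact ((h1 z (mem_ball_self hs)).differentiableAt (isOpen_ball.mem_nhds (mem_ball_self hs))).differentiableWithinAt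

theorem fxl_cd {d : ℕ} {v u : E d} {φ : OnePoint ℂ ≃ₜ OnePoint ℂ} {K : ℝ} {T : Set (OnePoint ℂ)} {D : ℕ} (h : CD v u φ K T D)
    (hue : ∀ c, IsCrit (Rf v) c → c ∈ JS (Rf v) → ¬ PUE (Rf v) (Rf v c)) : Pool.Agent.H56.END.FXl u := by
  intro M hM hMP hMi hoff hcom hMC
  obtain ⟨c, hcM, hcr⟩ := id hMC
  -- the critical point is in the Julia set
  have hrt : RatD d (pol u.1) (pol u.2) := ⟨h.ga.hd, h.ga.cop, h.ga.deg⟩
  have hPJ0 : PJ (pol u.1) (pol u.2) (JC u) ⊆ JC u := by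
    have hcl : IsClosed (JC u) := h.ga.cl
    refine closure_minimal ?_ hcl
    rintro y ⟨c', hc', -, n, -, hcn, rfl⟩
    have h1 : ∀ i : ℕ, (Pool.Agent.H61.TT.gg (pol u.1) (pol u.2))^[i] c' ∈ JC u := by
      intro i
      induction i with
      | zero => exact hc'
      | succ i ih =>
        rw [Function.iterate_succ_apply']
        have h2 := h.ga.js 1 ih
        rw [Function.iterate_one] at h2
        have h3 : Rf u (((Pool.Agent.H61.TT.gg (pol u.1) (pol u.2))^[i] c' : ℂ) : OnePoint ℂ) =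
            ((Pool.Agent.H61.TT.gg (pol u.1) (pol u.2) ((Pool.Agent.H61.TT.gg (pol u.1) (pol u.2))^[i] c') : ℂ) : OnePoint ℂ) :=
          rat_coe_of_ne (h.ga.bne ih)
        rw [h3] at h2
        exact h2
    exact h1 n
  have hcJ : c ∈ JC u := hPJ0 (hMP hcM)
  have hcrit : ∀ c : ℂ, Cr (pol u.1) (pol u.2) c → IsCrit (Rf u) (c : OnePoint ℂ) := fun c hc =>
    crit_of_wr h.ga.cop (by rw [h.ga.deg]; have := h.ga.hd; omega) hc.2
  have hc0 := hcrit c hcr
  obtain ⟨δ0, hG⟩ := geo_cd h hc0 hcJ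
  obtain ⟨δ, η, ρ, hPS⟩ := ps_ga h.ga hG hcJ hcr
  obtain ⟨δ1, R0, hU⟩ := us0 h.ga h.hD h.wd hc0 hcJ h.lg
  obtain ⟨C0, X, hV⟩ := vp_ga h.ga hU h.mot
  -- exponents
  have hexp : ∀ c ∈ M, Cr (pol u.1) (pol u.2) c → ∀ ε : ℝ, 0 < ε → ∃ A : ℝ, ∀ n : ℕ,
      ‖Dn (Pool.Agent.H61.TT.gg (pol u.1) (pol u.2)) n (Pool.Agent.H61.TT.gg (pol u.1) (pol u.2) c)‖ ≤ A * Real.exp (ε * n) := by
    intro c' hc' hcr'
    have hcJ' : (c' : OnePoint ℂ) ∈ JS (Rf u) := hPJ0 (hMP hc')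
    have h1 := hcrit c' hcr'
    obtain ⟨x, hx⟩ := φ.surjective (c' : OnePoint ℂ)
    have h2 : IsCrit (Rf v) x := by
      rw [← isCrit_conj φ h.conj x, hx]
      exact h1
    have h3 : x ∈ JS (Rf v) := by
      rw [← js_conj φ (fun y => (h.conj y).symm) x, hx]
      exact hcJ'
    have h4 : ((Pool.Agent.H61.TT.gg (pol u.1) (pol u.2) c' : ℂ) : OnePoint ℂ) = φ (Rf v x) := by
      rw [← h.conj, hx]
      exact (rat_coe_of_ne hcr'.1).symm
    refine ue_p h (x := Rf v x) ?_ h4 (hue x h2 h3)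
    rw [← js_conj φ (fun y => (h.conj y).symm) (Rf v x), ← h4]
    have h5 := h.ga.js 1 hcJ'
    rw [Function.iterate_one] at h5
    have h6 : Rf u (c' : OnePoint ℂ) = ((Pool.Agent.H61.TT.gg (pol u.1) (pol u.2) c' : ℂ) : OnePoint ℂ) :=
      rat_coe_of_ne hcr'.1
    rw [h6] at h5
    exact h5
  obtain ⟨N, Z, ψ, δ', C, hLD⟩ := ld_p h.ga hU hV hPS hM hMP hMi hoff hcom hMC hexp
  obtain ⟨μ, C1, hm, hb, h0, hinv, hpos⟩ := loa hLD
  have hUo : IsOpen {z : ℂ | (pol u.2).eval z ≠ 0} := isOpen_ne_fun (pol u.2).continuous continuous_const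
  have hf : DifferentiableOn ℂ (Pool.Agent.H61.TT.gg (pol u.1) (pol u.2)) {z : ℂ | (pol u.2).eval z ≠ 0} :=
    fun z hz => (Pool.Agent.H61.TT.hasDerivAt_gg hz).differentiableAt.differentiableWithinAt
  obtain ⟨E, Y, hh, ν, b0, hEB, hFX⟩ := fx_all (B := Bs (Pool.Agent.H61.TT.gg (pol u.1) (pol u.2)) (JC u) M) hUo hf hPS.Jc hm hb
    (fun z hz => h0 z fun h1 => hz h1.1) (by
      filter_upwards [hinv] with z hz hzU
      rw [(Pool.Agent.H61.TT.hasDerivAt_gg hzU).deriv]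
      exact hz hzU) (bs_meas hrt hPS.Jc.isClosed) (by
      refine hpos.trans_le (measure_mono fun z hz => ⟨?_, hz⟩)
      by_contra h1
      exact hz (h0 z h1))
  refine ⟨E, Y, hh, ν, b0, hFX, fun z hz ε hε => ?_⟩
  exact eventually_atTop.1 ((hEB hz).2 ε hε)

theorem locf : Pool.Agent.H56.END.LOCf := by
  intro d m hd hm x hcop hdeg hup hF
  obtain ⟨D, u, φ, K, T, hCD, -⟩ := Pool.Agent.H31.UDC.cdx hd hm hcop hdeg hup hF
  refine ⟨D, u, φ, K, T, hCD, fxl_cd hCD fun c hc hcJ => ?_⟩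
  exact pr_pue (ex_cop hcop) (by rw [ex_deg hdeg]; omega) (pr_end hd hm hcop hdeg hup c hc hcJ)

end Pool.Agent.H31.LOC
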