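import Mathlib

/-!
# [H31 LOC Abm] an abstract ergodic lemma (Mathlib only)

PROOF. `R_s u = (1 - s) ∑_k s^k T^k u` (`tsum`, `‖R_s u‖ ≤ ‖u‖`), so `u - s T u = w` implies `u = R_s w / (1 - s)`, `‖u‖ ≤ ‖w‖ / (1 - s)`. Suppose there is no such `ℓ`.
(1) For every `u`: `P u ∈ closure (range (1 - T))` (Hahn-Banach: `geometric_hahn_banach_closed_point`, or the quotient by the closed subspace; a functional vanishing on `range (1 - T)` and not at `P u` is an `ℓ`), so `R_s (P u) → 0` as `s → 1-`: `‖R_s (w - T w)‖ ≤ 2 (1 - s) ‖w‖` and `‖R_s‖ ≤ 1`. (2) `p (R_s (u - P u)) ≤ (1 - s) ∑ s^k p (T^k (u - P u)) → 0` (Abel means of a bounded sequence which tends to `0`; `p` is continuous, subadditive). So `p (R_s u) → 0` for every `u`.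
(3) Take `s = s_n → 1-`, `ψ_n`, `t_n` from `h`, normalized: `‖ψ_n‖ = 1` (multiply with `‖ψ_n‖⁻¹`), `‖t_n j‖ ≤ C`. A subsequence of `t_n` converges (`Fin m → ℂ` is proper: `tendsto_subseq_of_bounded`), `x = ∑ t_j φ_j`. `ψ_n - R_(s_n) (∑ t_n j φ_j)` has norm `≤ (1 - s_n)` and `‖∑ (t_n j - t_j) φ_j‖ → 0`, so `‖ψ_n - R_(s_n) x‖ → 0`, `p ψ_n ≤ p (R_(s_n) x) + ‖ψ_n - R_(s_n) x‖ → 0`. But `1 = ‖ψ_n‖ ≤ C p ψ_n`: contradiction.
-/

set_option autoImplicit false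

open Filter Topology Metric Set

namespace Pool.Agent.H31.LOC

private theorem ab_norm {s : ℝ} (h1 : s < 1) : ‖(1 - s : ℂ)‖ = 1 - s := by
  have h2 : (1 - s : ℂ) = ((1 - s : ℝ) : ℂ) := by push_cast; ring
  rw [h2, Complex.norm_real, Real.norm_of_nonneg (by linarith)]

private theorem ab_norm' {s : ℝ} (h0 : 0 < s) : ‖(s : ℂ)‖ = s := by
  rw [Complex.norm_real, Real.norm_of_nonneg h0.le]

/-- the equation `x - s T x = w` has a solution -/
private theorem ab_sol {E : Type*} [NormedAddCommGroup E] [NormedSpace ℂ E] [CompleteSpace E]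
    (T : E →L[ℂ] E) (hT : ∀ u, ‖T u‖ ≤ ‖u‖) {s : ℝ} (h0 : 0 < s) (h1 : s < 1) (w : E) :
    ∃ x : E, x - (s : ℂ) • T x = w := by
  have hT1 : ‖T‖ ≤ 1 := T.opNorm_le_bound zero_le_one fun u => by rw [one_mul]; exact hT u
  have hn : ‖(s : ℂ) • T‖ < 1 := by
    rw [norm_smul, ab_norm' h0]
    calc s * ‖T‖ ≤ s * 1 := mul_le_mul_of_nonneg_left hT1 h0.le
      _ < 1 := by linarith
  obtain ⟨U, hU⟩ := isUnit_one_sub_of_norm_lt_one hn
  refine ⟨(↑U⁻¹ : E →L[ℂ] E) w, ?_⟩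
  have h2 : ((U : E →L[ℂ] E) * (↑U⁻¹ : E →L[ℂ] E)) w = w := by
    rw [Units.mul_inv]
    rfl
  rw [hU] at h2
  have h3 : ((1 - (s : ℂ) • T) * (↑U⁻¹ : E →L[ℂ] E)) w =
      (↑U⁻¹ : E →L[ℂ] E) w - (s : ℂ) • T ((↑U⁻¹ : E →L[ℂ] E) w) := rfl
  rw [← h3]
  exact h2

/-- the bound of the resolvent -/
private theorem ab_bnd {E : Type*} [NormedAddCommGroup E] [NormedSpace ℂ E]
    (T : E →L[ℂ] E) (hT : ∀ u, ‖T u‖ ≤ ‖u‖) {s : ℝ} (h0 : 0 < s) (h1 : s < 1) (y z : E) {B : ℝ}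
    (hz : ‖z‖ ≤ (1 - s) * B) (h : y - (s : ℂ) • T y = z) : ‖y‖ ≤ B := by
  have h2 : y = (s : ℂ) • T y + z := by rw [← h]; abel
  have h3 : ‖y‖ ≤ s * ‖y‖ + (1 - s) * B := by
    calc ‖y‖ = ‖(s : ℂ) • T y + z‖ := by rw [← h2]
      _ ≤ ‖(s : ℂ) • T y‖ + ‖z‖ := norm_add_le _ _
      _ ≤ s * ‖y‖ + (1 - s) * B := by
        refine add_le_add ?_ hz
        rw [norm_smul, ab_norm' h0]
        exact mul_le_mul_of_nonneg_left (hT y) h0.le
  have h4 : (1 - s) * ‖y‖ ≤ (1 - s) * B := by linarith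
  exact le_of_mul_le_mul_left h4 (by linarith)

/-- step (1): a vector in the closure of the range of `1 - T` -/
private theorem ab_one {E : Type*} [NormedAddCommGroup E] [NormedSpace ℂ E]
    (T : E →L[ℂ] E) (hT : ∀ u, ‖T u‖ ≤ ‖u‖) (w : E)
    (hw : w ∈ closure (Set.range fun v : E => v - T v)) {ε : ℝ} (hε : 0 < ε) :
    ∃ δ : ℝ, 0 < δ ∧ ∀ s : ℝ, 0 < s → s < 1 → 1 - s < δ → ∀ x : E,
      x - (s : ℂ) • T x = (1 - s : ℂ) • w → ‖x‖ ≤ ε := by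
  obtain ⟨_, ⟨v, rfl⟩, hv⟩ := Metric.mem_closure_iff.1 hw (ε / 2) (by linarith)
  simp only at hv
  rw [dist_eq_norm] at hv
  refine ⟨ε / (4 * (‖v‖ + 1)), by positivity, fun s h0 h1 hs x hx => ?_⟩
  have h2 : (x - (1 - s : ℂ) • v) - (s : ℂ) • T (x - (1 - s : ℂ) • v) =
      (1 - s : ℂ) • ((w - (v - T v)) - (1 - s : ℂ) • T v) := by
    rw [map_sub, map_smul]
    have h3 : x - (1 - s : ℂ) • v - (s : ℂ) • (T x - (1 - s : ℂ) • T v) =
        (x - (s : ℂ) • T x) - (1 - s : ℂ) • v + ((s : ℂ) * (1 - s)) • T v := by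
      module
    rw [h3, hx]
    module
  have h5 : ‖(1 - s : ℂ) • T v‖ ≤ (1 - s) * ‖v‖ := by
    rw [norm_smul, ab_norm h1]
    exact mul_le_mul_of_nonneg_left (hT v) (by linarith)
  have h4 : ‖x - (1 - s : ℂ) • v‖ ≤ ε / 2 + (1 - s) * ‖v‖ := by
    refine ab_bnd T hT h0 h1 _ _ ?_ h2
    rw [norm_smul, ab_norm h1]
    refine mul_le_mul_of_nonneg_left ?_ (by linarith)
    exact (norm_sub_le _ _).trans (add_le_add hv.le h5)
  have h6 : ‖(1 - s : ℂ) • v‖ = (1 - s) * ‖v‖ := by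
    rw [norm_smul, ab_norm h1]
  have h7 : ‖x‖ ≤ ‖x - (1 - s : ℂ) • v‖ + ‖(1 - s : ℂ) • v‖ := by
    have := norm_add_le (x - (1 - s : ℂ) • v) ((1 - s : ℂ) • v)
    rwa [sub_add_cancel] at this
  have h8 : (1 - s) * ‖v‖ ≤ ε / 4 := by
    have h9 : (1 - s) * (‖v‖ + 1) ≤ ε / 4 := by
      have h10 : (1 - s) * (‖v‖ + 1) ≤ ε / (4 * (‖v‖ + 1)) * (‖v‖ + 1) :=
        mul_le_mul_of_nonneg_right hs.le (by positivity)
      have h11 : ε / (4 * (‖v‖ + 1)) * (‖v‖ + 1) = ε / 4 := by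
        field_simp
      linarith
    nlinarith [norm_nonneg v]
  linarith

/-- step (2): Abel means of a sequence which tends to `0` -/
private theorem ab_two {E : Type*} [NormedAddCommGroup E] [NormedSpace ℂ E]
    (T : E →L[ℂ] E) (hT : ∀ u, ‖T u‖ ≤ ‖u‖) (p : E → ℝ) (p0 : ∀ u, 0 ≤ p u)
    (p1 : ∀ u, p u ≤ ‖u‖) (p2 : ∀ u v, p (u + v) ≤ p u + p v)
    (p3 : ∀ (c : ℂ) (u : E), p (c • u) = ‖c‖ * p u) (w : E)
    (hQ : Tendsto (fun k : ℕ => p ((T ^ k) w)) atTop (𝓝 0)) {ε : ℝ} (hε : 0 < ε) :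
    ∃ δ : ℝ, 0 < δ ∧ ∀ s : ℝ, 0 < s → s < 1 → 1 - s < δ → ∀ x : E,
      x - (s : ℂ) • T x = (1 - s : ℂ) • w → p x ≤ ε := by
  have hpow : ∀ (k : ℕ) (u : E), ‖(T ^ k) u‖ ≤ ‖u‖ := by
    intro k
    induction k with
    | zero => intro u; rw [pow_zero]; exact le_rfl
    | succ k ih =>
      intro u
      rw [pow_succ]
      exact (ih (T u)).trans (hT u)
  obtain ⟨K, hK⟩ := (Metric.tendsto_atTop.1 hQ) (ε / 4) (by linarith)
  have hK' : ∀ k, K ≤ k → p ((T ^ k) w) ≤ ε / 4 := by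
    intro k hk
    have h1 := hK k hk
    rw [Real.dist_0_eq_abs] at h1
    exact (le_abs_self _).trans h1.le
  refine ⟨ε / (4 * (K * ‖w‖ + 1)), by positivity, fun s h0 h1 hs x hx => ?_⟩
  have hxn : ‖x‖ ≤ ‖w‖ := by
    refine ab_bnd T hT h0 h1 _ _ ?_ hx
    rw [norm_smul, ab_norm h1]
  -- the expansion
  have hexp : ∀ N : ℕ, p x ≤ (1 - s) * ∑ k ∈ Finset.range N, s ^ k * p ((T ^ k) w) +
      s ^ N * p ((T ^ N) x) := by
    intro N
    induction N with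
    | zero => simp
    | succ N ih =>
      refine ih.trans ?_
      rw [Finset.sum_range_succ]
      have h2 : (T ^ N) x = (1 - s : ℂ) • (T ^ N) w + (s : ℂ) • (T ^ (N + 1)) x := by
        have h3 : x = (1 - s : ℂ) • w + (s : ℂ) • T x := by rw [← hx]; abel
        have h4 : (T ^ (N + 1)) x = (T ^ N) (T x) := by rw [pow_succ]; rfl
        rw [h4, ← map_smul, ← map_smul, ← map_add, ← h3]
      have h5 : p ((T ^ N) x) ≤ (1 - s) * p ((T ^ N) w) + s * p ((T ^ (N + 1)) x) := by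
        calc p ((T ^ N) x) = p ((1 - s : ℂ) • (T ^ N) w + (s : ℂ) • (T ^ (N + 1)) x) := by
              rw [← h2]
          _ ≤ p ((1 - s : ℂ) • (T ^ N) w) + p ((s : ℂ) • (T ^ (N + 1)) x) := p2 _ _
          _ = (1 - s) * p ((T ^ N) w) + s * p ((T ^ (N + 1)) x) := by
              rw [p3, p3, ab_norm h1, ab_norm' h0]
      have h6 := mul_le_mul_of_nonneg_left h5 (pow_nonneg h0.le N)
      rw [pow_succ]
      linarith
  -- the sum
  have hsum : ∀ N : ℕ, (1 - s) * ∑ k ∈ Finset.range N, s ^ k * p ((T ^ k) w) ≤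
      (1 - s) * (K * ‖w‖) + ε / 4 := by
    intro N
    have h2 : ∀ k ∈ Finset.range N, s ^ k * p ((T ^ k) w) ≤
        (if k < K then ‖w‖ else 0) + s ^ k * (ε / 4) := by
      intro k _
      split_ifs with hk
      · have h3 : p ((T ^ k) w) ≤ ‖w‖ := (p1 _).trans (hpow k w)
        have h4 : s ^ k ≤ 1 := pow_le_one₀ h0.le h1.le
        have h5 : 0 ≤ s ^ k := pow_nonneg h0.le k
        have h6 : s ^ k * p ((T ^ k) w) ≤ 1 * ‖w‖ := mul_le_mul h4 h3 (p0 _) zero_le_one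
        have h7 : 0 ≤ s ^ k * (ε / 4) := mul_nonneg h5 (by linarith)
        linarith
      · rw [zero_add]
        exact mul_le_mul_of_nonneg_left (hK' k (not_lt.1 hk)) (pow_nonneg h0.le k)
    have h3 := Finset.sum_le_sum h2
    rw [Finset.sum_add_distrib, ← Finset.sum_mul] at h3
    have h4 : ∑ k ∈ Finset.range N, (if k < K then ‖w‖ else 0) ≤ K * ‖w‖ := by
      rw [← Finset.sum_filter, Finset.sum_const, nsmul_eq_mul]
      refine mul_le_mul_of_nonneg_right ?_ (norm_nonneg w)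
      have h5 : (Finset.filter (fun k => k < K) (Finset.range N)).card ≤ (Finset.range K).card := by
        refine Finset.card_le_card fun k hk => ?_
        rw [Finset.mem_filter] at hk
        exact Finset.mem_range.2 hk.2
      rw [Finset.card_range] at h5
      exact_mod_cast h5
    have h5 : (1 - s) * ∑ k ∈ Finset.range N, s ^ k ≤ 1 := by
      have h6 := mul_neg_geom_sum s N
      rw [h6]
      have := pow_nonneg h0.le N
      linarith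
    have h6 : (1 - s) * ∑ k ∈ Finset.range N, s ^ k * p ((T ^ k) w) ≤
        (1 - s) * (K * ‖w‖ + (∑ k ∈ Finset.range N, s ^ k) * (ε / 4)) :=
      mul_le_mul_of_nonneg_left (by linarith) (by linarith)
    have h7 : (1 - s) * (K * ‖w‖ + (∑ k ∈ Finset.range N, s ^ k) * (ε / 4)) =
        (1 - s) * (K * ‖w‖) + ((1 - s) * ∑ k ∈ Finset.range N, s ^ k) * (ε / 4) := by ring
    have h8 : ((1 - s) * ∑ k ∈ Finset.range N, s ^ k) * (ε / 4) ≤ 1 * (ε / 4) :=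
      mul_le_mul_of_nonneg_right h5 (by linarith)
    linarith
  have hlim : Tendsto (fun N : ℕ => s ^ N * ‖w‖) atTop (𝓝 0) := by
    have := (tendsto_pow_atTop_nhds_zero_of_lt_one h0.le h1).mul_const ‖w‖
    rwa [zero_mul] at this
  obtain ⟨N, hN⟩ := ((Metric.tendsto_atTop.1 hlim) (ε / 4) (by linarith))
  have hN' := hN N le_rfl
  rw [Real.dist_0_eq_abs] at hN'
  have h2 : s ^ N * p ((T ^ N) x) ≤ ε / 4 := by
    have h3 : p ((T ^ N) x) ≤ ‖w‖ := (p1 _).trans ((hpow N x).trans hxn)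
    have h4 := mul_le_mul_of_nonneg_left h3 (pow_nonneg h0.le N)
    have h5 := (le_abs_self _).trans hN'.le
    linarith
  have h3 : (1 - s) * (K * ‖w‖) ≤ ε / 4 := by
    have h10 : (1 - s) * (K * ‖w‖ + 1) ≤ ε / (4 * (K * ‖w‖ + 1)) * (K * ‖w‖ + 1) :=
      mul_le_mul_of_nonneg_right hs.le (by positivity)
    have h11 : ε / (4 * (K * ‖w‖ + 1)) * (K * ‖w‖ + 1) = ε / 4 := by
      field_simp
    nlinarith
  have h4 := hexp N
  have h5 := hsum N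
  linarith

/-- Hahn-Banach -/
private theorem ab_hb {E : Type*} [NormedAddCommGroup E] [NormedSpace ℂ E] (T : E →L[ℂ] E) (w : E)
    (hw : ∀ ℓ : E →L[ℂ] ℂ, (∀ u, ℓ (T u) = ℓ u) → ℓ w = 0) :
    w ∈ closure (Set.range fun v : E => v - T v) := by
  let R : E →L[ℂ] E := ContinuousLinearMap.id ℂ E - T
  let S : Submodule ℂ E := (LinearMap.range (R : E →ₗ[ℂ] E)).topologicalClosure
  have hS : IsClosed (S : Set E) := Submodule.isClosed_topologicalClosure _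
  have hmem : w ∈ S := by
    by_contra hcon
    have hne : (S.mkQL w : E ⧸ S) ≠ 0 := by
      intro h
      exact hcon ((Submodule.Quotient.mk_eq_zero S).1 h)
    obtain ⟨g, _, hg⟩ := exists_dual_vector ℂ (S.mkQL w : E ⧸ S) (norm_ne_zero_iff.2 hne)
    have h1 : (g.comp S.mkQL) w = 0 := by
      refine hw (g.comp S.mkQL) fun u => ?_
      have h2 : u - T u ∈ S :=
        Submodule.le_topologicalClosure _ ⟨u, rfl⟩
      have h3 : S.mkQL (u - T u) = 0 := (Submodule.Quotient.mk_eq_zero S).2 h2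
      rw [map_sub, sub_eq_zero] at h3
      change g (S.mkQL (T u)) = g (S.mkQL u)
      rw [h3]
    have h2 : g (S.mkQL w) = 0 := h1
    rw [h2] at hg
    have h3 : ‖(S.mkQL w : E ⧸ S)‖ = 0 := RCLike.ofReal_eq_zero.1 hg.symm
    exact hne (norm_eq_zero.1 h3)
  have h1 : (S : Set E) = closure (Set.range fun v : E => v - T v) := by
    rw [Submodule.topologicalClosure_coe]
    rfl
  rw [← h1]
  exact hmem

theorem abm {E : Type*} [NormedAddCommGroup E] [NormedSpace ℂ E] [CompleteSpace E] (T P : E →L[ℂ] E) (hT : ∀ u, ‖T u‖ ≤ ‖u‖)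
    {m : ℕ} (φ : Fin m → E) (p : E → ℝ) (p0 : ∀ u, 0 ≤ p u) (p1 : ∀ u, p u ≤ ‖u‖) (p2 : ∀ u v, p (u + v) ≤ p u + p v)
    (p3 : ∀ (c : ℂ) (u : E), p (c • u) = ‖c‖ * p u)
    (hQ : ∀ u : E, Tendsto (fun k : ℕ => p ((T ^ k) (u - P u))) atTop (𝓝 0)) {C : ℝ} (hC : 0 ≤ C)
    (h : ∀ s : ℝ, 0 < s → s < 1 → ∃ (ψ : E) (t : Fin m → ℂ), ψ ≠ 0 ∧ (∀ j, ‖t j‖ ≤ C * ‖ψ‖) ∧ ‖ψ‖ ≤ C * p ψ ∧
      ‖ψ - (s : ℂ) • T ψ - (1 - s : ℂ) • ∑ j, t j • φ j‖ ≤ (1 - s) ^ 2 * ‖ψ‖) :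
    ∃ ℓ : E →L[ℂ] ℂ, (∀ u, ℓ (T u) = ℓ u) ∧ ∃ u, ℓ (P u) ≠ 0 := by
  by_contra hcon
  push Not at hcon
  -- Abel means of every vector
  have hD : ∀ (u : E) (ε : ℝ), 0 < ε → ∃ δ : ℝ, 0 < δ ∧ ∀ s : ℝ, 0 < s → s < 1 → 1 - s < δ →
      ∀ x : E, x - (s : ℂ) • T x = (1 - s : ℂ) • u → p x ≤ ε := by
    intro u ε hε
    obtain ⟨δ₁, hδ₁, h1⟩ := ab_one T hT (P u)
      (ab_hb T (P u) fun ℓ hℓ => hcon ℓ hℓ u) (half_pos hε)
    obtain ⟨δ₂, hδ₂, h2⟩ := ab_two T hT p p0 p1 p2 p3 (u - P u) (hQ u) (half_pos hε)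
    refine ⟨min δ₁ δ₂, lt_min hδ₁ hδ₂, fun s hs0 hs1 hs x hx => ?_⟩
    obtain ⟨x₁, hx₁⟩ := ab_sol T hT hs0 hs1 ((1 - s : ℂ) • P u)
    have h3 := h1 s hs0 hs1 (hs.trans_le (min_le_left _ _)) x₁ hx₁
    have h4 : (x - x₁) - (s : ℂ) • T (x - x₁) = (1 - s : ℂ) • (u - P u) := by
      rw [map_sub, smul_sub, smul_sub, ← hx, ← hx₁]
      abel
    have h5 := h2 s hs0 hs1 (hs.trans_le (min_le_right _ _)) (x - x₁) h4
    have h6 := p2 x₁ (x - x₁)
    rw [add_sub_cancel] at h6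
    have h7 := p1 x₁
    linarith
  -- normalized solutions
  have hnorm : ∀ s : ℝ, 0 < s → s < 1 → ∃ (ψ : E) (t : Fin m → ℂ), (∀ j, ‖t j‖ ≤ C) ∧ 1 ≤ C * p ψ ∧
      ‖ψ - (s : ℂ) • T ψ - (1 - s : ℂ) • ∑ j, t j • φ j‖ ≤ (1 - s) ^ 2 := by
    intro s hs0 hs1
    obtain ⟨ψ, t, h1, h2, h3, h4⟩ := h s hs0 hs1
    have hψ : 0 < ‖ψ‖ := norm_pos_iff.2 h1
    set a : ℂ := ((‖ψ‖⁻¹ : ℝ) : ℂ) with ha
    have han : ‖a‖ = ‖ψ‖⁻¹ := by
      rw [ha, Complex.norm_real, Real.norm_of_nonneg (inv_nonneg.2 hψ.le)]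
    refine ⟨a • ψ, fun j => a * t j, fun j => ?_, ?_, ?_⟩
    · rw [norm_mul, han, inv_mul_le_iff₀ hψ, mul_comm]
      exact h2 j
    · rw [p3, han]
      have h5 : C * (‖ψ‖⁻¹ * p ψ) = ‖ψ‖⁻¹ * (C * p ψ) := by ring
      rw [h5, ← inv_mul_cancel₀ hψ.ne']
      exact mul_le_mul_of_nonneg_left h3 (inv_nonneg.2 hψ.le)
    · have h5 : a • ψ - (s : ℂ) • T (a • ψ) - (1 - s : ℂ) • ∑ j, (a * t j) • φ j =
          a • (ψ - (s : ℂ) • T ψ - (1 - s : ℂ) • ∑ j, t j • φ j) := by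
        have h6 : ∑ j, (a * t j) • φ j = a • ∑ j, t j • φ j := by
          rw [Finset.smul_sum]
          exact Finset.sum_congr rfl fun j _ => mul_smul _ _ _
        rw [h6, map_smul, smul_sub, smul_sub, smul_comm (s : ℂ) a, smul_comm (1 - s : ℂ) a]
      rw [h5, norm_smul, han, inv_mul_le_iff₀ hψ, mul_comm]
      exact h4
  have hs0 : ∀ n : ℕ, (0 : ℝ) < 1 - 1 / ((n : ℝ) + 2) := by
    intro n
    have h1 : 1 / ((n : ℝ) + 2) < 1 := by
      rw [div_lt_one (by positivity)]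
      have : (0 : ℝ) ≤ n := Nat.cast_nonneg n
      linarith
    linarith
  have hs1 : ∀ n : ℕ, 1 - 1 / ((n : ℝ) + 2) < 1 := by
    intro n
    have : 0 < 1 / ((n : ℝ) + 2) := by positivity
    linarith
  choose ψ t ht1 ht2 ht3 using fun n : ℕ => hnorm (1 - 1 / ((n : ℝ) + 2)) (hs0 n) (hs1 n)
  have hbd : Bornology.IsBounded (Metric.closedBall (0 : Fin m → ℂ) C) :=
    Metric.isBounded_closedBall
  obtain ⟨t₀, _, f, hf, hlim⟩ := tendsto_subseq_of_bounded hbd (x := t) fun n => by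
    rw [mem_closedBall_zero_iff, pi_norm_le_iff_of_nonneg hC]
    exact ht1 n
  set u₀ : E := ∑ j, t₀ j • φ j with hu₀
  have hCp : 0 < C := by
    rcases hC.lt_or_eq with h1 | h1
    · exact h1
    · have h2 := ht2 0
      rw [← h1, zero_mul] at h2
      linarith
  obtain ⟨δ, hδ, hDD⟩ := hD u₀ (1 / (4 * C)) (by positivity)
  -- the limits
  have hl1 : Tendsto (fun k : ℕ => 1 / ((f k : ℝ) + 2)) atTop (𝓝 0) := by
    have h1 : Tendsto (fun k : ℕ => ((f k : ℕ) : ℝ) + 2) atTop atTop :=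
      tendsto_atTop_add_const_right _ _ (tendsto_natCast_atTop_atTop.comp hf.tendsto_atTop)
    have h2 := h1.inv_tendsto_atTop
    refine h2.congr fun k => ?_
    rw [one_div]
    rfl
  have hl2 : Tendsto (fun k : ℕ => ‖∑ j, t (f k) j • φ j - u₀‖) atTop (𝓝 0) := by
    rw [← tendsto_iff_norm_sub_tendsto_zero, hu₀]
    refine tendsto_finsetSum _ fun j _ => ?_
    exact ((tendsto_pi_nhds.1 hlim) j).smul_const (φ j)
  have hl3 : Tendsto (fun k : ℕ => 1 / ((f k : ℝ) + 2) + ‖∑ j, t (f k) j • φ j - u₀‖) atTop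
      (𝓝 0) := by
    have := hl1.add hl2
    rwa [add_zero] at this
  obtain ⟨k, hk1, hk2⟩ := ((hl1.eventually (gt_mem_nhds hδ)).and
    (hl3.eventually (gt_mem_nhds (show (0 : ℝ) < 1 / (4 * C) by positivity)))).exists
  set s : ℝ := 1 - 1 / ((f k : ℝ) + 2) with hs
  have h1s : 1 - s = 1 / ((f k : ℝ) + 2) := by rw [hs]; ring
  have hs0' : 0 < s := hs0 (f k)
  have hs1' : s < 1 := hs1 (f k)
  obtain ⟨x, hx⟩ := ab_sol T hT hs0' hs1' ((1 - s : ℂ) • u₀)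
  have hpx := hDD s hs0' hs1' (by rw [h1s]; exact hk1) x hx
  have hz : ‖ψ (f k) - x‖ ≤ (1 - s) + ‖∑ j, t (f k) j • φ j - u₀‖ := by
    refine ab_bnd T hT hs0' hs1' _ ((ψ (f k) - x) - (s : ℂ) • T (ψ (f k) - x)) ?_ rfl
    have h5 : (ψ (f k) - x) - (s : ℂ) • T (ψ (f k) - x) =
        (ψ (f k) - (s : ℂ) • T (ψ (f k)) - (1 - s : ℂ) • ∑ j, t (f k) j • φ j) +
          (1 - s : ℂ) • (∑ j, t (f k) j • φ j - u₀) := by
      rw [map_sub, smul_sub, smul_sub, ← hx]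
      abel
    rw [h5]
    refine (norm_add_le _ _).trans ?_
    rw [norm_smul, ab_norm hs1']
    have h6 := ht3 (f k)
    rw [← hs] at h6
    have h7 : (1 - s) * ((1 - s) + ‖∑ j, t (f k) j • φ j - u₀‖) =
        (1 - s) ^ 2 + (1 - s) * ‖∑ j, t (f k) j • φ j - u₀‖ := by ring
    rw [h7]
    exact add_le_add h6 le_rfl
  have h8 : p (ψ (f k)) ≤ p x + ‖ψ (f k) - x‖ := by
    have h9 := p2 x (ψ (f k) - x)
    rw [add_sub_cancel] at h9
    have h10 := p1 (ψ (f k) - x)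
    linarith
  have h9 : p (ψ (f k)) ≤ 1 / (2 * C) := by
    have h10 : 1 / (2 * C) = 1 / (4 * C) + 1 / (4 * C) := by
      field_simp
      norm_num
    rw [h1s] at hz
    linarith
  have h10 := ht2 (f k)
  have h11 := mul_le_mul_of_nonneg_left h9 hC
  have h12 : C * (1 / (2 * C)) = 1 / 2 := by
    field_simp
  linarith

end Pool.Agent.H31.LOC
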