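import Pool.Agent.H56.UD.DN
import Pool.Agent.H80.AJ.Porous

/-!
# [H31 LOC Aep] almost every point of the Julia set tends to the post-critical set

`ae_P`. PROOF. Fix `ε = 1 / (m + 1)`; `S = {z ∈ J | ∃ᶠ n, ∀ p ∈ P, ε ≤ ‖f^[n] z - p‖}`; show `volume S = 0` by `porous_null` (H80/AJ/Porous). `δ' = min (min ε δ) (‖a - b‖ / 2)` with `a ≠ b` in `J` (`Jt`) as in `om_P` (H56/END/Zt).
Uniform holes: there is `c0 > 0` such that for all `y ∈ J` there is `w` with `ball w c0 ⊆ ball y (δ' / 4)`, disjoint from `J` (`J` compact with empty interior `Ji`: otherwise points `y_k → y`, and `ball y (δ' / 8)` contains a ball disjoint from the closed set `J`).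
For `z ∈ S` and `n` with `f^[n] z` of distance at least `ε` from `P`: `G` on `ball (f^[n] z) δ'` with `G (f^[n] z) = z`, `f^[n] ∘ G = id` (`br_ball` as in `om_P`; injective). `σ_n = ‖deriv G (f^[n] z)‖ → 0` along these `n` (if `σ_n ≥ ε1` for infinitely many `n`: `univ_cover`: `G '' ball y (δ' / 2) ⊇ ball z (δ' ε1 / 32)`, and `leo` (large `n`) gives `J ⊆ ball y (δ' / 2)`: contradiction to `a, b ∈ J`, see `om_P`).
Koebe (`distort_lip`, `univ_cover` at the centre `w`, H80/AJ): `G '' ball y (δ' / 4) ⊆ ball z (KK σ_n δ')`; `G '' ball w c0` contains a ball of radius `c1 σ_n` (`c1` depends on `c0`, `δ'` only: lower bound of `‖deriv G w‖` by distortion) and is disjoint from `J` (`f^[n]` maps `J` into `J`), so from `S`. So `ρ = KK σ_n δ'` works, `c = c1 / (KK δ')`.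
-/

set_option autoImplicit false

open Filter Topology Metric Set MeasureTheory

namespace Pool.Agent.H31.LOC

open Pool.Agent.H56.UD

private theorem ae_hole {J : Set ℂ} (hJ : IsCompact J) (hi : interior J = ∅) {t : ℝ} (ht : 0 < t) :
    ∃ c0 : ℝ, 0 < c0 ∧ ∀ y ∈ J, ∃ w : ℂ, ball w c0 ⊆ ball y (2 * t) ∧ ∀ u ∈ ball w c0, u ∉ J := by
  have h1 : ∀ y : ℂ, ∃ (w : ℂ) (r : ℝ), 0 < r ∧ ball w r ⊆ ball y t ∧ ∀ u ∈ ball w r, u ∉ J := by
    intro y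
    have h2 : ¬ ball y t ⊆ J := by
      intro h3
      have h4 : ball y t ⊆ interior J := interior_maximal h3 isOpen_ball
      rw [hi] at h4
      exact h4 (mem_ball_self ht)
    obtain ⟨w, hw, hwJ⟩ := Set.not_subset.1 h2
    have h5 : ball y t ∩ Jᶜ ∈ 𝓝 w := (isOpen_ball.inter hJ.isClosed.isOpen_compl).mem_nhds ⟨hw, hwJ⟩
    obtain ⟨r, hr, h6⟩ := Metric.mem_nhds_iff.1 h5
    exact ⟨w, r, hr, fun u hu => (h6 hu).1, fun u hu => (h6 hu).2⟩
  choose w r hr h2 h3 using h1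
  obtain ⟨T, -, hT⟩ := hJ.elim_nhds_subcover (fun y => ball y t) fun y _ => ball_mem_nhds y ht
  rcases T.eq_empty_or_nonempty with rfl | hTn
  · refine ⟨1, one_pos, fun y hy => ?_⟩
    have h4 := hT hy
    simp at h4
  · obtain ⟨x0, -, hmin⟩ := T.exists_min_image r hTn
    refine ⟨r x0, hr x0, fun y hy => ?_⟩
    obtain ⟨x, hx, hxy⟩ := Set.mem_iUnion₂.1 (hT hy)
    refine ⟨w x, ?_, fun u hu => h3 x u (ball_subset_ball (hmin x hx) hu)⟩
    refine ((ball_subset_ball (hmin x hx)).trans (h2 x)).trans ?_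
    intro u hu
    have h5 := mem_ball.1 hu
    have h6 := mem_ball.1 hxy
    rw [mem_ball]
    calc dist u y ≤ dist u x + dist x y := dist_triangle _ _ _
      _ < 2 * t := by rw [dist_comm x y]; linarith

private theorem ae_null {f : ℂ → ℂ} {U J P Cr : Set ℂ} {δ : ℝ} {η : ℂ → ℂ → ℂ} {ρ : ℝ} (h : PS f U J P Cr δ η ρ)
    {ε : ℝ} (hε : 0 < ε) : volume {z : ℂ | z ∈ J ∧ ∃ᶠ n : ℕ in atTop, ∀ p ∈ P, ε ≤ ‖f^[n] z - p‖} = 0 := by
  obtain ⟨a, ha, b, hb, hab⟩ := h.Jt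
  have hab' : 0 < ‖a - b‖ := norm_pos_iff.2 (sub_ne_zero.2 hab)
  obtain ⟨δ', hδ'⟩ : ∃ δ' : ℝ, δ' = min (min ε δ) (‖a - b‖ / 2) := ⟨_, rfl⟩
  have hδ'0 : 0 < δ' := by
    rw [hδ']
    exact lt_min (lt_min hε h.hδ) (by linarith)
  have hδ'ε : δ' ≤ ε := by
    rw [hδ']
    exact (min_le_left _ _).trans (min_le_left _ _)
  have hδ'δ : δ' ≤ δ := by
    rw [hδ']
    exact (min_le_left _ _).trans (min_le_right _ _)
  have hδ'a : δ' ≤ ‖a - b‖ / 2 := by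
    rw [hδ']
    exact min_le_right _ _
  have hKK := Pool.Agent.H80.AJ.one_le_KK
  have hKp := Pool.Agent.H80.AJ.KK_pos
  obtain ⟨c0, hc0, hhole⟩ := ae_hole h.Jc h.Ji (t := δ' / 8) (by linarith)
  refine Pool.Agent.H80.AJ.porous_null ?_
  rintro z ⟨hzJ, hzf⟩
  refine ⟨c0 / (16 * Pool.Agent.H80.AJ.KK ^ 2 * δ'), by positivity, fun ρ0 hρ0 => ?_⟩
  obtain ⟨ε1, hε1d⟩ : ∃ ε1 : ℝ, ε1 = ρ0 / (Pool.Agent.H80.AJ.KK * δ') := ⟨_, rfl⟩
  have hε1 : 0 < ε1 := by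
    rw [hε1d]
    positivity
  obtain ⟨N, hN⟩ := h.leo (ball z (δ' * ε1 / 32)) isOpen_ball ⟨z, mem_ball_self (by positivity), hzJ⟩
  obtain ⟨n, hn, hcon⟩ := frequently_atTop.1 hzf N
  have hyJ : f^[n] z ∈ J := J_it h n hzJ
  have hbT : ball (f^[n] z) δ' ⊆ thickening δ J := fun u hu =>
    mem_thickening_iff.2 ⟨_, hyJ, (mem_ball.1 hu).trans_le hδ'δ⟩
  have hbP : ∀ u ∈ ball (f^[n] z) δ', u ∉ P := fun u hu hP => by
    have h1 := hcon u hP
    have h2 := mem_ball.1 hu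
    rw [dist_comm, dist_eq_norm] at h2
    linarith
  obtain ⟨G, hGd, hG0, hG1⟩ := br_ball h hbT hbP (J_dm h n hzJ) (mem_ball_self hδ'0)
  obtain ⟨y, hy⟩ : ∃ y, y = f^[n] z := ⟨_, rfl⟩
  rw [← hy] at hyJ hbT hGd hG0 hG1
  have hGi : InjOn G (ball y δ') := by
    intro u hu u' hu' he
    rw [← (hG1 u hu).2, ← (hG1 u' hu').2, he]
  have hsub : ball y (δ' / 2) ⊆ ball y δ' := ball_subset_ball (by linarith)
  have hy0 : y ∈ closedBall y (δ' / 2) := mem_closedBall_self (by linarith)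
  have hs : 0 < ‖deriv G y‖ := Pool.Agent.H80.AJ.deriv_ne hδ'0 hGd hGi hy0
  -- the derivative is small
  have hsm : ‖deriv G y‖ < ε1 := by
    by_contra hge
    rw [not_lt] at hge
    have h2 := Pool.Agent.H80.AJ.univ_cover (by linarith : 0 < δ' / 2) (hGd.mono hsub) (hGi.mono hsub)
    rw [hG0] at h2
    have h3 : ball z (δ' * ε1 / 32) ⊆ G '' ball y (δ' / 2) := by
      refine Subset.trans (ball_subset_ball ?_) h2
      have : δ' * ε1 ≤ δ' * ‖deriv G y‖ := by gcongr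
      linarith
    have h4 : ∀ w ∈ J, w ∈ ball y (δ' / 2) := by
      intro w hw
      obtain ⟨x, hx, rfl⟩ := hN n hn hw
      obtain ⟨u, hu, hux⟩ := h3 hx.1
      rw [← hux, (hG1 u (hsub hu)).2]
      exact hu
    have h5 := mem_ball_iff_norm.1 (h4 a ha)
    have h6 := mem_ball_iff_norm.1 (h4 b hb)
    have h7 : ‖a - b‖ ≤ ‖a - y‖ + ‖b - y‖ := by
      calc ‖a - b‖ = ‖(a - y) - (b - y)‖ := by congr 1; ring
        _ ≤ _ := norm_sub_le _ _
    linarith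
  -- the hole
  obtain ⟨w, hw1, hw2⟩ := hhole y hyJ
  have hw3 : ball w c0 ⊆ ball y (δ' / 2) := hw1.trans (ball_subset_ball (by linarith))
  have hw4 : ball w c0 ⊆ ball y δ' := hw3.trans hsub
  have hww : w ∈ closedBall y (δ' / 2) := ball_subset_closedBall (hw3 (mem_ball_self hc0))
  have hcov := Pool.Agent.H80.AJ.univ_cover hc0 (hGd.mono hw4) (hGi.mono hw4)
  have hdist := Pool.Agent.H80.AJ.distort hδ'0 hGd hGi hy0 hww
  have hρ : c0 / (16 * Pool.Agent.H80.AJ.KK ^ 2 * δ') * (Pool.Agent.H80.AJ.KK * ‖deriv G y‖ * δ') =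
      c0 * (‖deriv G y‖ / Pool.Agent.H80.AJ.KK) / 16 := by
    field_simp
  have hle : c0 * (‖deriv G y‖ / Pool.Agent.H80.AJ.KK) / 16 ≤ c0 * ‖deriv G w‖ / 16 := by
    have h1 : ‖deriv G y‖ / Pool.Agent.H80.AJ.KK ≤ ‖deriv G w‖ := by
      rw [div_le_iff₀ hKp]
      linarith
    gcongr
  have hin : ball (G w) (c0 / (16 * Pool.Agent.H80.AJ.KK ^ 2 * δ') *
      (Pool.Agent.H80.AJ.KK * ‖deriv G y‖ * δ')) ⊆ G '' ball w c0 := by
    rw [hρ]
    exact (ball_subset_ball hle).trans hcov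
  refine ⟨Pool.Agent.H80.AJ.KK * ‖deriv G y‖ * δ', by positivity, ?_, G w, ?_, ?_⟩
  · have h1 : Pool.Agent.H80.AJ.KK * ‖deriv G y‖ * δ' < Pool.Agent.H80.AJ.KK * ε1 * δ' := by gcongr
    have h2 : Pool.Agent.H80.AJ.KK * ε1 * δ' = ρ0 := by
      rw [hε1d]
      field_simp
    linarith
  · intro v hv
    obtain ⟨u, hu, rfl⟩ := hin hv
    have h1 := Pool.Agent.H80.AJ.distort_lip hδ'0 hGd hGi (w := u) (w' := y) (v := y)
      (ball_subset_closedBall (hw3 hu)) hy0 hy0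
    rw [hG0] at h1
    rw [mem_ball, dist_eq_norm]
    have h2 : ‖u - y‖ < δ' := by
      have := mem_ball_iff_norm.1 (hw4 hu)
      exact this
    calc ‖G u - z‖ ≤ Pool.Agent.H80.AJ.KK * ‖deriv G y‖ * ‖u - y‖ := h1
      _ < Pool.Agent.H80.AJ.KK * ‖deriv G y‖ * δ' := by gcongr
  · intro v hv hvS
    obtain ⟨u, hu, rfl⟩ := hin hv
    have h1 : f^[n] (G u) ∈ J := J_it h n hvS.1
    rw [(hG1 u (hw4 hu)).2] at h1
    exact hw2 u hu h1

theorem ae_P {f : ℂ → ℂ} {U J P Cr : Set ℂ} {δ : ℝ} {η : ℂ → ℂ → ℂ} {ρ : ℝ} (h : PS f U J P Cr δ η ρ) :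
    ∀ᵐ z : ℂ, z ∈ J → ∀ ε : ℝ, 0 < ε → ∀ᶠ n : ℕ in atTop, ∃ p ∈ P, ‖f^[n] z - p‖ < ε := by
  have h1 : ∀ m : ℕ, ∀ᵐ z : ℂ, ¬ (z ∈ J ∧ ∃ᶠ n : ℕ in atTop, ∀ p ∈ P, 1 / ((m : ℝ) + 1) ≤ ‖f^[n] z - p‖) := by
    intro m
    rw [ae_iff]
    simp only [not_not]
    exact ae_null h (by positivity)
  filter_upwards [ae_all_iff.2 h1] with z hz hzJ ε hε
  obtain ⟨m, hm⟩ := exists_nat_one_div_lt hε
  have h2 := hz m
  rw [not_and, not_frequently] at h2
  filter_upwards [h2 hzJ] with n hn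
  push Not at hn
  obtain ⟨p, hp, h3⟩ := hn
  exact ⟨p, hp, h3.trans hm⟩

end Pool.Agent.H31.LOC
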