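import Pool.Agent.H31.LOC.Defs

/-!
# [H31 LOC Smi] the identity for the sums of kernels

`smi`. PROOF. `v = g c`, `x k = g^[k] v`, `B k = (Dn g k v)⁻¹`, `B (k+1) = B k / dg (x k)` (`deriv g x = dg x` as `b x ≠ 0`: `hasStrictDerivAt_gg`, H61/TT/Area; `x k ∈ M`). For a.e. `w ∈ Z` all `step` identities at `x k`, `k ≤ L`, and `val0` hold (finite intersection). `pf` is linear (finite sums: `Finset.sum_comm`, as `pf_So` in H18/CP/Est). With `Q k = q (x k) w`, `K k = KX (x k) w`: `pf Q_k = Q_k - K_k + K_(k+1) / dg (x k)`, so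
`Ph - σ pf Ph = ∑_(k ≤ L) σ^k B_k ((1 - σ) Q_k + σ K_k) - ∑_(k ≤ L) σ^(k+1) B_(k+1) K_(k+1) = (1 - σ) ∑_(k ≤ L) σ^k B_k (Q_k - K_k) + K_0 - σ^(L+1) B_(L+1) K_(L+1)` (telescoping), `Q_k - K_k = - ∑_j φ j w X j (x k)`, `K_0 = 0`.
`kb`. PROOF. `∫_Z ‖KX x‖ ≤ ∫_Z ‖q x‖ + ∑_j C ∫_Z ‖φ j‖` (`KN.qi` as `M ⊆ N`, `Xb`, `φi`).
-/

set_option autoImplicit false

open Filter Topology Polynomial Metric Set MeasureTheory

namespace Pool.Agent.H31.LOC

open Pool.Agent.H61.TT Pool.Agent.H57.CP Pool.Agent.H18.UP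
open Pool.Agent.H78.NS (pf)

variable {d : ℕ} {a b : Polynomial ℂ} {M N Z S B : Set ℂ} {q r : ℂ → ℂ → ℂ} {D : ℕ} {φ X : ℕ → ℂ → ℂ} {δ C : ℝ}

private theorem smi_pf (n : ℕ) (A x : ℕ → ℂ) (w : ℂ) :
    pf a b (Ph q n A x) w = ∑ k ∈ Finset.range n, A k * pf a b (q (x k)) w := by
  simp only [pf, Ph, Finset.sum_div, mul_div_assoc, Finset.mul_sum]
  rw [Finset.sum_comm]

private theorem smi_tel (σ : ℂ) (B Q P K F g : ℕ → ℂ) (hB0 : B 0 = 1)
    (hB : ∀ k, B (k + 1) = B k / g k) (hs : ∀ k, Q k - P k = K k - K (k + 1) / g k) (hK : ∀ k, K k = Q k + F k) (n : ℕ) :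
    ∑ k ∈ Finset.range n, σ ^ k * B k * Q k - σ * ∑ k ∈ Finset.range n, σ ^ k * B k * P k =
      -((1 - σ) * ∑ k ∈ Finset.range n, σ ^ k * B k * F k) + K 0 - σ ^ n * B n * K n := by
  induction n with
  | zero => simp [hB0]
  | succ n ih =>
    rw [Finset.sum_range_succ, Finset.sum_range_succ, Finset.sum_range_succ, hB n, pow_succ]
    have h1 : P n = Q n - K n + K (n + 1) / g n := by linear_combination -(hs n)
    have h2 : F n = K n - Q n := by linear_combination -(hK n)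
    rw [h1, h2]
    linear_combination ih

theorem smi (h : LD d a b M N Z S B q r D φ X δ C) {c : ℂ} (hc : c ∈ S) (σ : ℂ) (L : ℕ) :
    ∀ᵐ w : ℂ, w ∈ Z →
      Ph q (L + 1) (fun k => σ ^ k * (Dn (gg a b) k (gg a b c))⁻¹) (fun k => (gg a b)^[k] (gg a b c)) w -
        σ * pf a b (Ph q (L + 1) (fun k => σ ^ k * (Dn (gg a b) k (gg a b c))⁻¹) (fun k => (gg a b)^[k] (gg a b c))) w =
      -((1 - σ) * ∑ j ∈ Finset.range (D + 1), φ j w *
        ∑ k ∈ Finset.range (L + 1), σ ^ k * (Dn (gg a b) k (gg a b c))⁻¹ * X j ((gg a b)^[k] (gg a b c))) -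
      σ ^ (L + 1) * (Dn (gg a b) (L + 1) (gg a b c))⁻¹ * KX q D φ X ((gg a b)^[L + 1] (gg a b c)) w := by
  have hM : ∀ k : ℕ, (gg a b)^[k] (gg a b c) ∈ M := by
    intro k
    induction k with
    | zero => exact h.gs.inv c (h.gs.SM hc)
    | succ k ih =>
      rw [Function.iterate_succ_apply']
      exact h.gs.inv _ ih
  have hd : ∀ k : ℕ, dg a b ((gg a b)^[k] (gg a b c)) ≠ 0 := h.nr c hc
  have hder : ∀ k : ℕ, deriv (gg a b) ((gg a b)^[k] (gg a b c)) = dg a b ((gg a b)^[k] (gg a b c)) :=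
    fun k => (hasStrictDerivAt_gg (h.Mb _ (hM k))).hasDerivAt.deriv
  have hs : ∀ᵐ w : ℂ, ∀ k : ℕ, w ∈ Z →
      q ((gg a b)^[k] (gg a b c)) w - pf a b (q ((gg a b)^[k] (gg a b c))) w =
        KX q D φ X ((gg a b)^[k] (gg a b c)) w -
          KX q D φ X (gg a b ((gg a b)^[k] (gg a b c))) w / dg a b ((gg a b)^[k] (gg a b c)) :=
    ae_all_iff.2 fun k => h.step _ (hM k) (hd k)
  filter_upwards [hs, h.val0 c hc] with w hw h0 hZ
  have ht := smi_tel σ (fun k => (Dn (gg a b) k (gg a b c))⁻¹) (fun k => q ((gg a b)^[k] (gg a b c)) w)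
    (fun k => pf a b (q ((gg a b)^[k] (gg a b c))) w) (fun k => KX q D φ X ((gg a b)^[k] (gg a b c)) w)
    (fun k => ∑ j ∈ Finset.range (D + 1), φ j w * X j ((gg a b)^[k] (gg a b c)))
    (fun k => dg a b ((gg a b)^[k] (gg a b c)))
    (by simp [Dn])
    (fun k => by
      show (Dn (gg a b) (k + 1) (gg a b c))⁻¹ = (Dn (gg a b) k (gg a b c))⁻¹ / dg a b ((gg a b)^[k] (gg a b c))
      have h1 : Dn (gg a b) (k + 1) (gg a b c) = Dn (gg a b) k (gg a b c) * dg a b ((gg a b)^[k] (gg a b c)) := by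
        unfold Dn
        rw [Finset.prod_range_succ, hder k]
      rw [h1, mul_inv, div_eq_mul_inv])
    (fun k => by
      have h1 := hw k hZ
      rw [← Function.iterate_succ_apply' (gg a b) k (gg a b c)] at h1
      exact h1)
    (fun k => rfl) (L + 1)
  rw [smi_pf]
  have hF : ∑ j ∈ Finset.range (D + 1), φ j w *
        ∑ k ∈ Finset.range (L + 1), σ ^ k * (Dn (gg a b) k (gg a b c))⁻¹ * X j ((gg a b)^[k] (gg a b c)) =
      ∑ k ∈ Finset.range (L + 1), σ ^ k * (Dn (gg a b) k (gg a b c))⁻¹ *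
        ∑ j ∈ Finset.range (D + 1), φ j w * X j ((gg a b)^[k] (gg a b c)) := by
    simp only [Finset.mul_sum]
    rw [Finset.sum_comm]
    exact Finset.sum_congr rfl fun k _ => Finset.sum_congr rfl fun j _ => by ring
  rw [hF]
  have h00 : KX q D φ X ((gg a b)^[0] (gg a b c)) w = 0 := h0 hZ
  simp only [h00, add_zero] at ht
  unfold Ph
  exact ht

theorem kb (h : LD d a b M N Z S B q r D φ X δ C) : ∃ C1 : ℝ, 1 ≤ C1 ∧ ∀ x ∈ M,
    ∫⁻ w in Z, ‖KX q D φ X x w‖ₑ ≤ ENNReal.ofReal C1 := by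
  have hC : 1 ≤ C := h.kn.hC
  have hC0 : 0 ≤ C := le_trans zero_le_one hC
  have hI : ∀ j ∈ Finset.range (D + 1), ∫⁻ w in Z, ‖φ j w‖ₑ ≠ ⊤ := fun j hj =>
    (h.φi j (Nat.lt_succ_iff.1 (Finset.mem_range.1 hj))).hasFiniteIntegral.ne
  refine ⟨C + ∑ j ∈ Finset.range (D + 1), (∫⁻ w in Z, ‖φ j w‖ₑ).toReal * C, ?_, fun x hx => ?_⟩
  · have : 0 ≤ ∑ j ∈ Finset.range (D + 1), (∫⁻ w in Z, ‖φ j w‖ₑ).toReal * C :=
      Finset.sum_nonneg fun j _ => mul_nonneg ENNReal.toReal_nonneg hC0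
    linarith
  · have hsum : ∫⁻ w in Z, ∑ j ∈ Finset.range (D + 1), ‖φ j w‖ₑ * ENNReal.ofReal C =
        ∑ j ∈ Finset.range (D + 1), (∫⁻ w in Z, ‖φ j w‖ₑ) * ENNReal.ofReal C := by
      rw [lintegral_finset_sum']
      · refine Finset.sum_congr rfl fun j hj => ?_
        rw [lintegral_mul_const'' _
          (h.φi j (Nat.lt_succ_iff.1 (Finset.mem_range.1 hj))).aestronglyMeasurable.enorm]
      · intro j hj
        exact (h.φi j (Nat.lt_succ_iff.1 (Finset.mem_range.1 hj))).aestronglyMeasurable.enorm.mul_const _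
    have hqm : Measurable fun w => ‖q x w‖ₑ :=
      (h.kn.qm.comp (measurable_const.prodMk measurable_id)).enorm
    calc ∫⁻ w in Z, ‖KX q D φ X x w‖ₑ
        ≤ ∫⁻ w in Z, (‖q x w‖ₑ + ∑ j ∈ Finset.range (D + 1), ‖φ j w‖ₑ * ENNReal.ofReal C) := by
          refine lintegral_mono fun w => ?_
          unfold KX
          refine (enorm_add_le _ _).trans (add_le_add le_rfl ?_)
          refine (enorm_sum_le _ _).trans (Finset.sum_le_sum fun j hj => ?_)
          rw [enorm_mul]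
          refine mul_le_mul_right ?_ _
          rw [← ofReal_norm]
          exact ENNReal.ofReal_le_ofReal (h.Xb j (Nat.lt_succ_iff.1 (Finset.mem_range.1 hj)) x hx)
      _ = (∫⁻ w in Z, ‖q x w‖ₑ) + ∑ j ∈ Finset.range (D + 1), (∫⁻ w in Z, ‖φ j w‖ₑ) * ENNReal.ofReal C := by
          rw [lintegral_add_left hqm, hsum]
      _ ≤ ENNReal.ofReal C + ∑ j ∈ Finset.range (D + 1), (∫⁻ w in Z, ‖φ j w‖ₑ) * ENNReal.ofReal C :=
          add_le_add (h.kn.qi x (h.kn.MN hx)) le_rfl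
      _ = ENNReal.ofReal (C + ∑ j ∈ Finset.range (D + 1), (∫⁻ w in Z, ‖φ j w‖ₑ).toReal * C) := by
          rw [ENNReal.ofReal_add hC0 (Finset.sum_nonneg fun j _ => mul_nonneg ENNReal.toReal_nonneg hC0),
            ENNReal.ofReal_sum_of_nonneg fun j _ => mul_nonneg ENNReal.toReal_nonneg hC0]
          congr 1
          refine Finset.sum_congr rfl fun j hj => ?_
          rw [ENNReal.ofReal_mul ENNReal.toReal_nonneg, ENNReal.ofReal_toReal (hI j hj)]

end Pool.Agent.H31.LOC
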