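import Pool.Agent.H31.LOC.Rep

/-!
# [H31 LOC Cut] the sums of kernels are controlled on `N`

`cut`. PROOF. `χ` from `cut_ex`. For `w ∈ Z`, `w ∉ N`: `ψ y = χ y * q y w` (`KN.qx`, `db_mulh`), `ψ (x k) = q (x k) w`, so by `rep`: `Ph w = ∑ A k q (x k) w = -(1 / π) ∫ dbar1 χ y * q y w * Ph y` (the integrand is `0` off `N`), `‖Ph w‖ₑ ≤ B ∫⁻_N ‖q y w‖ₑ ‖Ph y‖ₑ` (`1 / π ≤ 1`; `enorm_integral_le_lintegral_enorm`).
Integrate over `Z \ N` and exchange (`lintegral_lintegral_swap`, `KN.qm`; `Ph q L A x` is measurable): `∫⁻_(Z \ N) ‖Ph‖ₑ ≤ B ∫⁻_N ‖Ph y‖ₑ ∫⁻_Z ‖q y w‖ₑ dw dy ≤ B C ∫⁻_N ‖Ph‖ₑ` (`KN.qi`). Add `∫⁻_N`.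
`tst`. PROOF. `β` a fixed bump (`ContDiffBump` with centre `0`, radii `1/2, 1`; real valued), `B` a bound for `‖dbar1 β‖` (continuous with compact support). `r1 > 0` with `closedBall v ρ ⊆ N` for all `v ∈ M`, `ρ ≤ r1` (`IsCompact.exists_cthickening_subset_open` or `exists_thickening`). `ψ y = β ((y - v) / ρ)`: `‖dbar1 ψ‖ ≤ B / ρ` (chain rule for `y ↦ (1/ρ) • (y - v)`), `tsupport ψ ⊆ closedBall v ρ`; `rep_le`.
`ph_meas`: `KN.qm` along `w ↦ (x k, w)`.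
-/

set_option autoImplicit false

open Filter Topology Polynomial Metric Set MeasureTheory

namespace Pool.Agent.H31.LOC

open Pool.Agent.H71.Top (dbar1 pompeiu)

variable {q r : ℂ → ℂ → ℂ} {M N Z : Set ℂ} {C : ℝ}

theorem ph_meas (h : KN q r M N Z C) (L : ℕ) (A x : ℕ → ℂ) : Measurable (Ph q L A x) := by
  unfold Ph
  refine Finset.measurable_sum _ fun k _ => ?_
  exact measurable_const.mul (h.qm.comp (measurable_const.prodMk measurable_id))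

private theorem db_zero {χ : ℂ → ℂ} {y : ℂ} (h : y ∉ tsupport χ) : dbar1 χ y = 0 := by
  have h1 : fderiv ℝ χ y = 0 := by
    have h2 : χ =ᶠ[𝓝 y] fun _ => 0 := by
      have h3 : (tsupport χ)ᶜ ∈ 𝓝 y := (isClosed_tsupport χ).isOpen_compl.mem_nhds h
      filter_upwards [h3] with z hz
      exact image_eq_zero_of_notMem_tsupport hz
    rw [h2.fderiv_eq]
    simp
  unfold dbar1
  simp [h1]

private theorem cut_pt (h : KN q r M N Z C) {χ : ℂ → ℂ} {B : ℝ} (h1 : ContDiff ℝ 1 χ) (h2 : HasCompactSupport χ)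
    (h3 : tsupport χ ⊆ N) (h4 : ∀ x ∈ M, χ x = 1) (h6 : ∀ y, ‖dbar1 χ y‖ ≤ B) {L : ℕ} {A x : ℕ → ℂ}
    (hx : ∀ k < L, x k ∈ M) {w : ℂ} (hw : w ∈ Z) (hN : w ∉ N) :
    ‖Ph q L A x w‖ₑ ≤ ENNReal.ofReal B * ∫⁻ y in N, ‖q y w‖ₑ * ‖Ph q L A x y‖ₑ := by
  obtain ⟨e1, e2, e3⟩ := db_mulh h1 h3 h.No (h.qx w hw hN)
  have e4 : HasCompactSupport (fun y => χ y * q y w) :=
    h2.of_isClosed_subset (isClosed_tsupport _) e2
  have e5 := rep h e1 e4 (e2.trans h3) (A := A) hx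
  have e6 : ∑ k ∈ Finset.range L, A k * (fun y => χ y * q y w) (x k) = Ph q L A x w := by
    unfold Ph
    refine Finset.sum_congr rfl fun k hk => ?_
    simp only [h4 (x k) (hx k (Finset.mem_range.mp hk)), one_mul]
  rw [e6] at e5
  rw [e5, enorm_mul]
  have hp : ‖-((Real.pi : ℂ)⁻¹)‖ₑ ≤ 1 := by
    rw [enorm_neg, ← ofReal_norm_eq_enorm, norm_inv, Complex.norm_real, Real.norm_eq_abs, abs_of_pos Real.pi_pos]
    rw [← ENNReal.ofReal_one]
    refine ENNReal.ofReal_le_ofReal (inv_le_one_of_one_le₀ ?_)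
    linarith [Real.pi_gt_three]
  refine (mul_le_mul' hp le_rfl).trans ?_
  rw [one_mul]
  refine (enorm_integral_le_lintegral_enorm _).trans ?_
  rw [← lintegral_const_mul' _ _ ENNReal.ofReal_ne_top, ← lintegral_indicator h.No.measurableSet]
  refine lintegral_mono fun y => ?_
  by_cases hy : y ∈ N
  · rw [indicator_of_mem hy, e3 y, enorm_mul, enorm_mul, mul_assoc]
    refine mul_le_mul' ?_ le_rfl
    rw [← ofReal_norm_eq_enorm]
    exact ENNReal.ofReal_le_ofReal (h6 y)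
  · rw [indicator_of_notMem hy, e3 y, db_zero (fun h9 => hy (h3 h9))]
    simp

theorem cut (h : KN q r M N Z C) : ∃ C1 : ℝ, 1 ≤ C1 ∧ ∀ (L : ℕ) (A x : ℕ → ℂ), (∀ k < L, x k ∈ M) →
    ∫⁻ w in Z, ‖Ph q L A x w‖ₑ ≤ ENNReal.ofReal C1 * ∫⁻ w in N, ‖Ph q L A x w‖ₑ := by
  obtain ⟨χ, B, h1, h2, h3, h4, -, h5, h6⟩ := cut_ex h.Mc h.No h.MN
  have hC := h.hC
  refine ⟨1 + B * C, by nlinarith [mul_nonneg h5 (by linarith : (0:ℝ) ≤ C)], fun L A x hx => ?_⟩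
  have hP := ph_meas h L A x
  have hsplit := lintegral_inter_add_diff (μ := (volume : Measure ℂ)) (fun w => ‖Ph q L A x w‖ₑ) Z h.No.measurableSet
  rw [← hsplit, inter_eq_self_of_subset_right h.NZ]
  have hd : ∫⁻ w in Z \ N, ‖Ph q L A x w‖ₑ ≤ ENNReal.ofReal (B * C) * ∫⁻ w in N, ‖Ph q L A x w‖ₑ := by
    calc ∫⁻ w in Z \ N, ‖Ph q L A x w‖ₑ
        ≤ ∫⁻ w in Z \ N, ENNReal.ofReal B * ∫⁻ y in N, ‖q y w‖ₑ * ‖Ph q L A x y‖ₑ := by
          refine setLIntegral_mono' (h.Zm.diff h.No.measurableSet) fun w hw => ?_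
          exact cut_pt h h1 h2 h3 h4 h6 hx hw.1 hw.2
      _ = ENNReal.ofReal B * ∫⁻ w in Z \ N, ∫⁻ y in N, ‖q y w‖ₑ * ‖Ph q L A x y‖ₑ :=
          lintegral_const_mul' _ _ ENNReal.ofReal_ne_top
      _ = ENNReal.ofReal B * ∫⁻ y in N, ∫⁻ w in Z \ N, ‖q y w‖ₑ * ‖Ph q L A x y‖ₑ := by
          congr 1
          refine lintegral_lintegral_swap (Measurable.aemeasurable ?_)
          have m1 : Measurable (fun p : ℂ × ℂ => q p.2 p.1) := h.qm.comp measurable_swap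
          exact (m1.enorm).mul ((hP.comp measurable_snd).enorm)
      _ ≤ ENNReal.ofReal B * ∫⁻ y in N, ENNReal.ofReal C * ‖Ph q L A x y‖ₑ := by
          refine mul_le_mul' le_rfl (setLIntegral_mono' h.No.measurableSet fun y hy => ?_)
          rw [lintegral_mul_const' _ _ enorm_ne_top]
          refine mul_le_mul' ?_ le_rfl
          exact (lintegral_mono_set diff_subset).trans (h.qi y hy)
      _ = ENNReal.ofReal (B * C) * ∫⁻ w in N, ‖Ph q L A x w‖ₑ := by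
          rw [lintegral_const_mul' _ _ ENNReal.ofReal_ne_top, ENNReal.ofReal_mul h5, mul_assoc]
  calc (∫⁻ w in N, ‖Ph q L A x w‖ₑ) + ∫⁻ w in Z \ N, ‖Ph q L A x w‖ₑ
      ≤ (∫⁻ w in N, ‖Ph q L A x w‖ₑ) + ENNReal.ofReal (B * C) * ∫⁻ w in N, ‖Ph q L A x w‖ₑ := by gcongr
    _ = ENNReal.ofReal (1 + B * C) * ∫⁻ w in N, ‖Ph q L A x w‖ₑ := by
        rw [ENNReal.ofReal_add zero_le_one (mul_nonneg h5 (by linarith)), ENNReal.ofReal_one, add_mul, one_mul]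

private theorem db_cont {χ : ℂ → ℂ} (hs : ContDiff ℝ 1 χ) : Continuous (dbar1 χ) := by
  have hc : Continuous (fderiv ℝ χ) := hs.continuous_fderiv one_ne_zero
  unfold dbar1
  exact continuous_const.mul ((hc.clm_apply continuous_const).add (continuous_const.mul (hc.clm_apply continuous_const)))

private theorem db_bd {χ : ℂ → ℂ} (hs : ContDiff ℝ 1 χ) (hc : HasCompactSupport χ) : ∃ B : ℝ, 0 ≤ B ∧ ∀ y, ‖dbar1 χ y‖ ≤ B := by
  have h1 : HasCompactSupport (dbar1 χ) := by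
    refine hc.of_isClosed_subset (isClosed_tsupport _) (closure_minimal ?_ (isClosed_tsupport χ))
    intro y hy
    by_contra h
    exact hy (db_zero h)
  obtain ⟨B, hB⟩ := (db_cont hs).bounded_above_of_compact_support h1
  exact ⟨B, (norm_nonneg _).trans (hB 0), hB⟩

private theorem db_scale {χ : ℂ → ℂ} (hs : ContDiff ℝ 1 χ) (v : ℂ) {ρ : ℝ} (hρ : 0 < ρ) (y : ℂ) :
    dbar1 (fun y => χ ((y - v) / ρ)) y = (ρ : ℂ)⁻¹ * dbar1 χ ((y - v) / ρ) := by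
  have e : HasFDerivAt (fun y : ℂ => (y - v) / (ρ : ℂ)) ((ρ⁻¹ : ℝ) • (ContinuousLinearMap.id ℝ ℂ)) y := by
    have e1 : (fun y : ℂ => (y - v) / (ρ : ℂ)) = fun y => (ρ⁻¹ : ℝ) • (y - v) := by
      funext z
      rw [Complex.real_smul, Complex.ofReal_inv, div_eq_inv_mul]
    rw [e1]
    exact ((hasFDerivAt_id y).sub_const v).const_smul (ρ⁻¹ : ℝ)
  have e2 : HasFDerivAt (fun y => χ ((y - v) / ρ)) ((fderiv ℝ χ ((y - v) / ρ)).comp ((ρ⁻¹ : ℝ) • (ContinuousLinearMap.id ℝ ℂ))) y :=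
    HasFDerivAt.comp y (hs.differentiable one_ne_zero _).hasFDerivAt e
  have e3 : ∀ u : ℂ, fderiv ℝ (fun y => χ ((y - v) / ρ)) y u = (ρ : ℂ)⁻¹ * fderiv ℝ χ ((y - v) / ρ) u := by
    intro u
    rw [e2.fderiv, ContinuousLinearMap.comp_apply, ContinuousLinearMap.smul_apply, ContinuousLinearMap.id_apply,
      map_smul, Complex.real_smul, Complex.ofReal_inv]
  unfold dbar1
  rw [e3, e3]
  ring

theorem tst (h : KN q r M N Z C) : ∃ (β : ℂ → ℝ) (C1 r1 : ℝ), 0 ≤ C1 ∧ 0 < r1 ∧ β 0 = 1 ∧ (∀ w, 0 ≤ β w) ∧ (∀ w, β w ≤ 1) ∧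
    (∀ w, 1 ≤ ‖w‖ → β w = 0) ∧ ∀ (L : ℕ) (A x : ℕ → ℂ), (∀ k < L, x k ∈ M) → ∀ v ∈ M, ∀ ρ : ℝ, 0 < ρ → ρ ≤ r1 →
    ‖∑ k ∈ Finset.range L, A k * β ((x k - v) / ρ)‖ₑ ≤ ENNReal.ofReal (C1 / ρ) * ∫⁻ w in N, ‖Ph q L A x w‖ₑ := by
  let β : ContDiffBump (0 : ℂ) := ⟨1 / 2, 1, by norm_num, by norm_num⟩
  have hβz : ∀ w : ℂ, 1 ≤ ‖w‖ → β w = 0 := by
    intro w hw
    refine β.zero_of_le_dist ?_
    rw [dist_zero_right]
    exact hw
  have hs : ContDiff ℝ 1 (fun w : ℂ => ((β w : ℝ) : ℂ)) :=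
    Complex.ofRealCLM.contDiff.comp (β.contDiff (n := 1))
  have hcs : HasCompactSupport (fun w : ℂ => ((β w : ℝ) : ℂ)) := by
    refine (isCompact_closedBall (0 : ℂ) 1).of_isClosed_subset (isClosed_tsupport _) (closure_minimal ?_ isClosed_closedBall)
    intro w hw
    rw [mem_closedBall_zero_iff]
    by_contra h9
    exact hw (by simp [hβz w (le_of_not_ge h9)])
  obtain ⟨B, hB0, hB⟩ := db_bd hs hcs
  obtain ⟨r1, hr1, hN⟩ := h.Mc.exists_cthickening_subset_open h.No h.MN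
  refine ⟨β, B, r1, hB0, hr1, β.one_of_mem_closedBall (by simp [β]), fun w => β.nonneg, fun w => β.le_one, hβz, ?_⟩
  intro L A x hx v hv ρ hρ hρ1
  have hψ : ContDiff ℝ 1 (fun y : ℂ => ((β ((y - v) / ρ) : ℝ) : ℂ)) := by
    refine hs.comp (f := fun y : ℂ => (y - v) / (ρ : ℂ)) ?_
    exact (contDiff_id.sub contDiff_const).div_const _
  have hsub : tsupport (fun y : ℂ => ((β ((y - v) / ρ) : ℝ) : ℂ)) ⊆ closedBall v ρ := by
    refine closure_minimal ?_ isClosed_closedBall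
    intro y hy
    rw [mem_closedBall, dist_eq_norm]
    by_contra h9
    refine hy ?_
    have h10 : 1 ≤ ‖(y - v) / (ρ : ℂ)‖ := by
      rw [norm_div, Complex.norm_real, Real.norm_eq_abs, abs_of_pos hρ, le_div_iff₀ hρ, one_mul]
      exact le_of_not_ge h9
    simp [hβz _ h10]
  have hc : HasCompactSupport (fun y : ℂ => ((β ((y - v) / ρ) : ℝ) : ℂ)) :=
    (isCompact_closedBall v ρ).of_isClosed_subset (isClosed_tsupport _) hsub
  have hsN : tsupport (fun y : ℂ => ((β ((y - v) / ρ) : ℝ) : ℂ)) ⊆ N :=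
    hsub.trans (((closedBall_subset_cthickening hv ρ).trans (cthickening_mono hρ1 M)).trans hN)
  refine rep_le h hψ hc hsN (B := B / ρ) (fun y => ?_) hx
  rw [db_scale hs v hρ y, norm_mul, norm_inv, Complex.norm_real, Real.norm_eq_abs, abs_of_pos hρ, ← div_eq_inv_mul]
  gcongr
  exact hB _

end Pool.Agent.H31.LOC
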