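import Pool.Agent.H18.UP.Defs
import Pool.Agent.H66.IL.RI
import Pool.Agent.H71.Top.Pompeiu

/-!
# THEOREM LOC (every minimal piece of the post-critical set attracts a set of positive area): definitions

think 1982 (MP_8f2e1c_an). `Ph q L A x`: finite sums of kernels. `KN`: the kernel `q` near the compact set `M`; `N` is a neighbourhood of `M`,
`q x w = 1 / (w - x) + r x w` on `N`. `GS`: the growth setting near the compact invariant set `M`, `S` the critical points in `M`.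
`LD`: all data for `M`: `K x w = q x w + ∑_j φ j w * X j x`; `B`: the set of the points whose orbits tend to `M`.
-/

set_option autoImplicit false

open Filter Topology Polynomial Metric Set MeasureTheory

namespace Pool.Agent.H31.LOC

open Pool.Agent.H44.Fatou (rat)
open Pool.Agent.H61.TT Pool.Agent.H57.CP Pool.Agent.H18.UP
open Pool.Agent.H78.NS (pf)

/-- finite sums of kernels -/
noncomputable def Ph (q : ℂ → ℂ → ℂ) (L : ℕ) (A x : ℕ → ℂ) (w : ℂ) : ℂ := ∑ k ∈ Finset.range L, A k * q (x k) w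

/-- the kernel `q` near `M` -/
structure KN (q r : ℂ → ℂ → ℂ) (M N Z : Set ℂ) (C : ℝ) : Prop where
  hC : 1 ≤ C
  Mc : IsCompact M
  No : IsOpen N
  Nb : Bornology.IsBounded N
  MN : M ⊆ N
  NZ : N ⊆ Z
  Zm : MeasurableSet Z
  qm : Measurable (fun p : ℂ × ℂ => q p.1 p.2)
  eq : ∀ x ∈ N, ∀ w ∈ N, w ≠ x → q x w = 1 / (w - x) + r x w
  rx : ∀ w ∈ N, DifferentiableOn ℂ (fun x => r x w) N
  rw : ∀ x ∈ N, DifferentiableOn ℂ (fun w => r x w) N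
  rb : ∀ x ∈ N, ∀ w ∈ N, ‖r x w‖ ≤ C
  qx : ∀ w ∈ Z, w ∉ N → DifferentiableOn ℂ (fun x => q x w) N
  qi : ∀ x ∈ N, ∫⁻ w in Z, ‖q x w‖ₑ ≤ ENNReal.ofReal C

/-- the growth setting: `S` contains the critical points of the invariant set `M` -/
structure GS (f : ℂ → ℂ) (M S : Set ℂ) (δ B : ℝ) : Prop where
  hδ : 0 < δ
  hB : 1 ≤ B
  Mc : IsCompact M
  inv : ∀ x ∈ M, f x ∈ M
  SM : S ⊆ M
  fd : DifferentiableOn ℂ f (thickening δ M)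
  d2 : ∀ x ∈ M, ∀ z : ℂ, ‖z - x‖ < δ → ‖f z - f x - deriv f x * (z - x)‖ ≤ B * ‖z - x‖ ^ 2
  db : ∀ x ∈ M, ‖deriv f x‖ ≤ B
  cs : ∀ s ∈ S, deriv f s = 0
  lo : ∀ x ∈ M, ∀ r : ℝ, r < δ → B * ‖deriv f x‖ ≤ r → ∃ s ∈ S, ‖x - s‖ ≤ r

/-- the derivative of the `n`-th iterate along the orbit -/
noncomputable def Dn (f : ℂ → ℂ) (n : ℕ) (z : ℂ) : ℂ := ∏ k ∈ Finset.range n, deriv f (f^[k] z)

/-- the kernel with the velocities -/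
noncomputable def KX (q : ℂ → ℂ → ℂ) (D : ℕ) (φ X : ℕ → ℂ → ℂ) (x w : ℂ) : ℂ := q x w + ∑ j ∈ Finset.range (D + 1), φ j w * X j x

/-- the data of THEOREM LOC -/
structure LD (d : ℕ) (a b : Polynomial ℂ) (M N Z S B : Set ℂ) (q r : ℂ → ℂ → ℂ) (D : ℕ) (φ X : ℕ → ℂ → ℂ) (δ C : ℝ) : Prop where
  rt : RatD d a b
  kn : KN q r M N Z C
  gs : GS (gg a b) M S δ C
  Sf : S.Finite
  Sn : S.Nonempty
  Mb : ∀ x ∈ M, b.eval x ≠ 0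
  Zp : pre a b Z ⊆ Z
  Bm : MeasurableSet B
  BZ : B ⊆ Z
  Bb : ∀ z ∈ B, b.eval z ≠ 0
  Bi : ∀ z : ℂ, b.eval z ≠ 0 → (gg a b z ∈ B ↔ z ∈ B)
  out : ∀ᵐ z : ℂ, z ∈ Z → z ∉ B → ∀ᶠ n : ℕ in atTop, z ∉ (pre a b)^[n] N
  φi : ∀ j ≤ D, IntegrableOn (φ j) Z
  Xb : ∀ j ≤ D, ∀ x ∈ M, ‖X j x‖ ≤ C
  we : ∀ j ≤ D, ∀ (L : ℕ) (A x : ℕ → ℂ), (∀ k < L, x k ∈ M) →
    ‖∑ k ∈ Finset.range L, A k * X j (x k)‖ₑ ≤ ENNReal.ofReal C * ∫⁻ w in N, ‖Ph q L A x w‖ₑ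
  step : ∀ x ∈ M, dg a b x ≠ 0 → ∀ᵐ w : ℂ, w ∈ Z →
    q x w - pf a b (q x) w = KX q D φ X x w - KX q D φ X (gg a b x) w / dg a b x
  val0 : ∀ c ∈ S, ∀ᵐ w : ℂ, w ∈ Z → KX q D φ X (gg a b c) w = 0
  ue : ∀ c ∈ S, ∀ ε : ℝ, 0 < ε → ∃ A : ℝ, ∀ n : ℕ, ‖Dn (gg a b) n (gg a b c)‖ ≤ A * Real.exp (ε * n)
  nr : ∀ c ∈ S, ∀ n : ℕ, dg a b ((gg a b)^[n] (gg a b c)) ≠ 0
  np : ∀ c ∈ S, ∀ n : ℕ, 0 < n → (gg a b)^[n] (gg a b c) ≠ gg a b c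
  ex : ∀ y ∈ M, ∀ ρ : ℝ, 0 < ρ → ∃ (n : ℕ) (z : ℂ), ‖z - y‖ < ρ ∧ δ ≤ ‖(gg a b)^[n] z - (gg a b)^[n] y‖

end Pool.Agent.H31.LOC
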