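import Pool.Agent.H31.LOC.Defs

/-!
# [H31 LOC Gro] the growth lemma

`gro`. PROOF. `K1 = 1 + B ^ 2 / (τ / t - 1)`, `K = 1 + 4 B K1 ^ 2 / τ + 4 B K1 ^ 2 + 2 K1 / δ`. Strong induction on `n` (for all `s`, `ρ`). `v = f s`, `v_k = f^[k] v ∈ M`. `G k`: `B ‖f^[k] z - v_k‖ ≤ (τ / t - 1) ‖deriv f v_k‖`. If `G k` for all `k < m` then `‖f^[k] z - v_k‖ ≤ ρ (τ / t)^k ‖Dn f k v‖ ≤ A τ^k ρ < δ` for `k ≤ m` (`d2`).
If `G k` for all `k < n`: done. Otherwise `k` the first failure, `R = ‖f^[k] z - v_k‖ ≤ A τ^k ρ`, `R > 0`, `B ‖deriv f v_k‖ < B ^ 2 R / (τ / t - 1) < δ`: `lo` gives `s' ∈ S`; `f^[k] z` and `v_k` are within `K1 R < δ` of `s'`, their images within `B (K1 R)^2 < ρ1 = 2 B (K1 R)^2 ≤ ρ` of `f s'` (`d2` at `s'`, `cs`). Induction for `s'`, `ρ1`, `m = n - k - 1`, both points: `‖f^[n] z - v_n‖ ≤ 2 A τ^m ρ1 ≤ 4 A B K1^2 (A τ^k ρ)^2 τ^m ≤ A τ^n ρ`.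
`g1`. PROOF. Otherwise for every `s ∈ S` there is `ε > 0` with `‖Dn f n (f s)‖ < exp (-(ε n))` for large `n`; `S` is finite: `‖Dn f n (f s)‖ ≤ A t^n` for all `n` with `t < 1`, `A ≥ 1`. `gro` with `τ = (1 + t) / 2 < 1`, all `L`, `ρ ≤ 1 / (K A^2)`, `A ρ < δ`: contradiction to `hex` at `y = f s`.
-/

set_option autoImplicit false

open Filter Topology Polynomial Metric Set MeasureTheory

namespace Pool.Agent.H31.LOC

variable {f : ℂ → ℂ} {M S : Set ℂ} {δ B : ℝ}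

theorem it_mem (h : GS f M S δ B) {x : ℂ} (hx : x ∈ M) (k : ℕ) : f^[k] x ∈ M := by
  induction k with
  | zero => exact hx
  | succ k ih => rw [Function.iterate_succ_apply']; exact h.inv _ ih

theorem dn_zero (f : ℂ → ℂ) (z : ℂ) : Dn f 0 z = 1 := by simp [Dn]

theorem dn_succ (f : ℂ → ℂ) (n : ℕ) (z : ℂ) : Dn f (n + 1) z = Dn f n z * deriv f (f^[n] z) := by
  simp [Dn, Finset.prod_range_succ]

/-- one step without distortion -/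
private theorem stp (h : GS f M S δ B) {x z : ℂ} (hx : x ∈ M) (hz : ‖z - x‖ < δ) {η : ℝ}
    (hG : B * ‖z - x‖ ≤ η * ‖deriv f x‖) : ‖f z - f x‖ ≤ (1 + η) * ‖deriv f x‖ * ‖z - x‖ := by
  have h1 := h.d2 x hx z hz
  have h2 : ‖f z - f x‖ ≤ ‖f z - f x - deriv f x * (z - x)‖ + ‖deriv f x * (z - x)‖ := by
    have : f z - f x = (f z - f x - deriv f x * (z - x)) + deriv f x * (z - x) := by ring
    calc ‖f z - f x‖ = ‖(f z - f x - deriv f x * (z - x)) + deriv f x * (z - x)‖ := by rw [← this]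
      _ ≤ _ := norm_add_le _ _
  rw [norm_mul] at h2
  have h3 : B * ‖z - x‖ ^ 2 ≤ η * ‖deriv f x‖ * ‖z - x‖ := by
    have := mul_le_mul_of_nonneg_right hG (norm_nonneg (z - x))
    calc B * ‖z - x‖ ^ 2 = B * ‖z - x‖ * ‖z - x‖ := by ring
      _ ≤ _ := this
  calc ‖f z - f x‖ ≤ B * ‖z - x‖ ^ 2 + ‖deriv f x‖ * ‖z - x‖ := by linarith
    _ ≤ η * ‖deriv f x‖ * ‖z - x‖ + ‖deriv f x‖ * ‖z - x‖ := by linarith
    _ = _ := by ring

/-- many steps without distortion -/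
private theorem chn (h : GS f M S δ B) {t τ A ρ η : ℝ} (ht : 0 < t) (hη : 1 + η = τ / t) (hη0 : 0 < η) {L : ℕ} {v : ℂ} (hv : v ∈ M)
    (hD : ∀ n ≤ L, ‖Dn f n v‖ ≤ A * t ^ n) (hsm : ∀ n ≤ L, A * τ ^ n * ρ < δ) (hρ : 0 < ρ) {z : ℂ} (hz : ‖z - v‖ < ρ) :
    ∀ m ≤ L, (∀ j < m, B * ‖f^[j] z - f^[j] v‖ ≤ η * ‖deriv f (f^[j] v)‖) →
      ‖f^[m] z - f^[m] v‖ ≤ ρ * (τ / t) ^ m * ‖Dn f m v‖ ∧ ‖f^[m] z - f^[m] v‖ ≤ A * τ ^ m * ρ := by
  have hq : 0 < τ / t := by rw [← hη]; linarith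
  have key : ∀ m ≤ L, ‖f^[m] z - f^[m] v‖ ≤ ρ * (τ / t) ^ m * ‖Dn f m v‖ → ‖f^[m] z - f^[m] v‖ ≤ A * τ ^ m * ρ := by
    intro m hm h1
    have h2 : ρ * (τ / t) ^ m * ‖Dn f m v‖ ≤ ρ * (τ / t) ^ m * (A * t ^ m) :=
      mul_le_mul_of_nonneg_left (hD m hm) (by positivity)
    have h3 : ρ * (τ / t) ^ m * (A * t ^ m) = A * τ ^ m * ρ := by
      rw [div_pow]; field_simp
    linarith
  intro m
  induction m with
  | zero =>
    intro hm _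
    have h1 : ‖f^[0] z - f^[0] v‖ ≤ ρ * (τ / t) ^ 0 * ‖Dn f 0 v‖ := by
      rw [dn_zero]; simpa using hz.le
    exact ⟨h1, key 0 hm h1⟩
  | succ m ih =>
    intro hm hG
    obtain ⟨h1, h2⟩ := ih (by omega) (fun j hj => hG j (by omega))
    have h3 : ‖f^[m] z - f^[m] v‖ < δ := h2.trans_lt (hsm m (by omega))
    have h4 := stp h (it_mem h hv m) h3 (hG m (by omega))
    have h5 : ‖f^[m + 1] z - f^[m + 1] v‖ ≤ ρ * (τ / t) ^ (m + 1) * ‖Dn f (m + 1) v‖ := by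
      rw [Function.iterate_succ_apply', Function.iterate_succ_apply', dn_succ, norm_mul]
      rw [hη] at h4
      calc _ ≤ τ / t * ‖deriv f (f^[m] v)‖ * ‖f^[m] z - f^[m] v‖ := h4
        _ ≤ τ / t * ‖deriv f (f^[m] v)‖ * (ρ * (τ / t) ^ m * ‖Dn f m v‖) :=
            mul_le_mul_of_nonneg_left h1 (by positivity)
        _ = _ := by ring
    exact ⟨h5, key (m + 1) hm h5⟩

theorem gro (h : GS f M S δ B) {t τ : ℝ} (ht : 0 < t) (htτ : t < τ) : ∃ K : ℝ, 1 ≤ K ∧ ∀ A : ℝ, 1 ≤ A → ∀ L : ℕ,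
    (∀ s ∈ S, ∀ n ≤ L, ‖Dn f n (f s)‖ ≤ A * t ^ n) → ∀ (n : ℕ) (ρ : ℝ), n ≤ L → 0 < ρ →
    (∀ m ≤ 2 * L, K * A ^ 2 * τ ^ m * ρ ≤ 1) → ∀ s ∈ S, ∀ z : ℂ, ‖z - f s‖ < ρ →
    ‖f^[n] z - f^[n] (f s)‖ ≤ A * τ ^ n * ρ := by
  have hτ : 0 < τ := ht.trans htτ
  have hδ := h.hδ
  have hB := h.hB
  have hB0 : 0 < B := by linarith
  obtain ⟨η, hη⟩ : ∃ η : ℝ, 1 + η = τ / t := ⟨τ / t - 1, by ring⟩
  have hη0 : 0 < η := by
    have : 1 < τ / t := (one_lt_div ht).2 htτ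
    linarith
  obtain ⟨K1, hK1⟩ : ∃ K1 : ℝ, K1 = 1 + B ^ 2 / η := ⟨_, rfl⟩
  have hq0 : 0 ≤ B ^ 2 / η := by positivity
  have hK1' : 1 ≤ K1 := by linarith
  have hK1p : 0 < K1 := by linarith
  obtain ⟨K, hK⟩ : ∃ K : ℝ, K = 1 + 4 * B * K1 ^ 2 / τ + 4 * B * K1 ^ 2 + 2 * K1 / δ := ⟨_, rfl⟩
  have e1 : 0 ≤ 4 * B * K1 ^ 2 / τ := by positivity
  have e2 : 0 ≤ 4 * B * K1 ^ 2 := by positivity
  have e3 : 0 ≤ 2 * K1 / δ := by positivity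
  have hKa : 1 ≤ K := by linarith
  have hKb : 4 * B * K1 ^ 2 / τ ≤ K := by linarith
  have hKc : 4 * B * K1 ^ 2 ≤ K := by linarith
  have hKd : 2 * K1 / δ ≤ K := by linarith
  refine ⟨K, hKa, ?_⟩
  intro A hA L hD n
  have hA0 : 0 < A := by linarith
  induction n using Nat.strong_induction_on with
  | _ n ih =>
  intro ρ hn hρ hsm s hs z hz
  have hv : f s ∈ M := h.inv s (h.SM hs)
  -- smallness
  have sm1 : ∀ m ≤ 2 * L, ∀ κ : ℝ, 0 ≤ κ → κ ≤ K → κ * (A ^ 2 * τ ^ m * ρ) ≤ 1 := by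
    intro m hm κ hκ0 hκ
    have h1 := hsm m hm
    have h2 : κ * (A ^ 2 * τ ^ m * ρ) ≤ K * (A ^ 2 * τ ^ m * ρ) := mul_le_mul_of_nonneg_right hκ (by positivity)
    have h3 : K * (A ^ 2 * τ ^ m * ρ) = K * A ^ 2 * τ ^ m * ρ := by ring
    linarith
  have sm2 : ∀ m ≤ 2 * L, K1 * (A * τ ^ m * ρ) ≤ δ / 2 := by
    intro m hm
    have h1 := sm1 m hm (2 * K1 / δ) e3 hKd
    have h2 : A * τ ^ m * ρ ≤ A ^ 2 * τ ^ m * ρ := by
      have : A ≤ A ^ 2 := by nlinarith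
      have h3 : 0 ≤ τ ^ m * ρ := by positivity
      calc A * τ ^ m * ρ = A * (τ ^ m * ρ) := by ring
        _ ≤ A ^ 2 * (τ ^ m * ρ) := mul_le_mul_of_nonneg_right this h3
        _ = _ := by ring
    have h3 : 2 * K1 / δ * (A * τ ^ m * ρ) ≤ 1 := (mul_le_mul_of_nonneg_left h2 e3).trans h1
    have h4 : K1 * (A * τ ^ m * ρ) = δ / 2 * (2 * K1 / δ * (A * τ ^ m * ρ)) := by field_simp
    rw [h4]
    calc δ / 2 * (2 * K1 / δ * (A * τ ^ m * ρ)) ≤ δ / 2 * 1 := mul_le_mul_of_nonneg_left h3 (by positivity)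
      _ = δ / 2 := by ring
  have sm3 : ∀ m ≤ L, A * τ ^ m * ρ < δ := by
    intro m hm
    have h1 := sm2 m (by omega)
    have h2 : A * τ ^ m * ρ ≤ K1 * (A * τ ^ m * ρ) := by
      have : 0 ≤ A * τ ^ m * ρ := by positivity
      nlinarith
    linarith
  have hch := chn h ht hη hη0 hv (hD s hs) sm3 hρ hz
  by_cases hG : ∀ j < n, B * ‖f^[j] z - f^[j] (f s)‖ ≤ η * ‖deriv f (f^[j] (f s))‖
  · exact (hch n hn hG).2
  · push Not at hG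
    classical
    have hGe : ∃ j, j < n ∧ η * ‖deriv f (f^[j] (f s))‖ < B * ‖f^[j] z - f^[j] (f s)‖ := hG
    obtain ⟨k, ⟨hkn, hkG⟩, hkm⟩ : ∃ k, (k < n ∧ η * ‖deriv f (f^[k] (f s))‖ < B * ‖f^[k] z - f^[k] (f s)‖) ∧
        ∀ j < k, ¬ (j < n ∧ η * ‖deriv f (f^[j] (f s))‖ < B * ‖f^[j] z - f^[j] (f s)‖) :=
      ⟨Nat.find hGe, Nat.find_spec hGe, fun j hj => Nat.find_min hGe hj⟩
    have hGk : ∀ j < k, B * ‖f^[j] z - f^[j] (f s)‖ ≤ η * ‖deriv f (f^[j] (f s))‖ := by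
      intro j hj
      by_contra hc
      exact hkm j hj ⟨by omega, not_le.1 hc⟩
    obtain ⟨-, hR⟩ := hch k (by omega) hGk
    obtain ⟨R, hRd⟩ : ∃ R : ℝ, R = ‖f^[k] z - f^[k] (f s)‖ := ⟨_, rfl⟩
    rw [← hRd] at hR hkG
    have hvk : f^[k] (f s) ∈ M := it_mem h hv k
    have hR0 : 0 < R := by
      by_contra hc
      have h1 : 0 ≤ η * ‖deriv f (f^[k] (f s))‖ := by positivity
      have h2 : B * R ≤ 0 := mul_nonpos_of_nonneg_of_nonpos hB0.le (not_lt.1 hc)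
      linarith
    have hK1R : K1 * R ≤ δ / 2 := (mul_le_mul_of_nonneg_left hR hK1p.le).trans (sm2 k (by omega))
    have hr0 : B ^ 2 / η * R + R = K1 * R := by rw [hK1]; ring
    have hr1 : B ^ 2 / η * R < δ := by linarith
    have hr2 : B * ‖deriv f (f^[k] (f s))‖ ≤ B ^ 2 / η * R := by
      have h1 : B * ‖deriv f (f^[k] (f s))‖ = B / η * (η * ‖deriv f (f^[k] (f s))‖) := by field_simp
      have h2 : B ^ 2 / η * R = B / η * (B * R) := by ring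
      rw [h1, h2]
      exact mul_le_mul_of_nonneg_left hkG.le (by positivity)
    obtain ⟨s', hs', hss⟩ := h.lo _ hvk _ hr1 hr2
    have hs'M : s' ∈ M := h.SM hs'
    have hd1 : ‖f^[k] (f s) - s'‖ ≤ K1 * R := by linarith
    have hd2 : ‖f^[k] z - s'‖ ≤ K1 * R := by
      have h1 : f^[k] z - s' = (f^[k] z - f^[k] (f s)) + (f^[k] (f s) - s') := by ring
      have h2 : ‖f^[k] z - s'‖ ≤ ‖f^[k] z - f^[k] (f s)‖ + ‖f^[k] (f s) - s'‖ := by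
        rw [h1]; exact norm_add_le _ _
      rw [← hRd] at h2
      linarith
    obtain ⟨ρ1, hρ1⟩ : ∃ ρ1 : ℝ, ρ1 = 2 * B * (K1 * R) ^ 2 := ⟨_, rfl⟩
    have hρ10 : 0 < ρ1 := by rw [hρ1]; positivity
    have him : ∀ y : ℂ, ‖y - s'‖ ≤ K1 * R → ‖f y - f s'‖ < ρ1 := by
      intro y hy
      have h1 := h.d2 s' hs'M y (by linarith)
      rw [h.cs s' hs', zero_mul, sub_zero] at h1
      have h2 : ‖y - s'‖ ^ 2 ≤ (K1 * R) ^ 2 := pow_le_pow_left₀ (norm_nonneg _) hy 2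
      have h3 : B * ‖y - s'‖ ^ 2 ≤ B * (K1 * R) ^ 2 := mul_le_mul_of_nonneg_left h2 hB0.le
      have h4 : 0 < B * (K1 * R) ^ 2 := by positivity
      rw [hρ1]
      nlinarith
    have hRsq : R ^ 2 ≤ (A * τ ^ k * ρ) ^ 2 := pow_le_pow_left₀ hR0.le hR 2
    have hρ1a : ρ1 ≤ 2 * B * K1 ^ 2 * (A * τ ^ k * ρ) ^ 2 := by
      rw [hρ1]
      calc 2 * B * (K1 * R) ^ 2 = 2 * B * K1 ^ 2 * R ^ 2 := by ring
        _ ≤ _ := mul_le_mul_of_nonneg_left hRsq (by positivity)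
    have hρ1b : ρ1 ≤ ρ := by
      have h1 := sm1 (2 * k) (by omega) (4 * B * K1 ^ 2) e2 hKc
      have h2 : 2 * B * K1 ^ 2 * (A * τ ^ k * ρ) ^ 2 = (4 * B * K1 ^ 2 * (A ^ 2 * τ ^ (2 * k) * ρ)) * (ρ / 2) := by
        rw [pow_mul']; ring
      have h3 : (4 * B * K1 ^ 2 * (A ^ 2 * τ ^ (2 * k) * ρ)) * (ρ / 2) ≤ 1 * (ρ / 2) :=
        mul_le_mul_of_nonneg_right h1 (by positivity)
      linarith
    obtain ⟨m, hm⟩ : ∃ m : ℕ, n = m + (k + 1) := ⟨n - (k + 1), by omega⟩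
    have hsm' : ∀ j ≤ 2 * L, K * A ^ 2 * τ ^ j * ρ1 ≤ 1 := by
      intro j hj
      have h1 : K * A ^ 2 * τ ^ j * ρ1 ≤ K * A ^ 2 * τ ^ j * ρ := mul_le_mul_of_nonneg_left hρ1b (by positivity)
      exact h1.trans (hsm j hj)
    have a1 := ih m (by omega) ρ1 (by omega) hρ10 hsm' s' hs' (f^[k + 1] z) (by
      rw [Function.iterate_succ_apply']; exact him _ hd2)
    have a2 := ih m (by omega) ρ1 (by omega) hρ10 hsm' s' hs' (f^[k + 1] (f s)) (by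
      rw [Function.iterate_succ_apply']; exact him _ hd1)
    rw [← Function.iterate_add_apply, ← hm] at a1 a2
    have a3 : ‖f^[n] z - f^[n] (f s)‖ ≤ ‖f^[n] z - f^[m] (f s')‖ + ‖f^[n] (f s) - f^[m] (f s')‖ := by
      have h1 : f^[n] z - f^[n] (f s) = (f^[n] z - f^[m] (f s')) - (f^[n] (f s) - f^[m] (f s')) := by ring
      rw [h1]; exact norm_sub_le _ _
    have a4 : ‖f^[n] z - f^[n] (f s)‖ ≤ 2 * (A * τ ^ m * ρ1) := by linarith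
    have a5 : 2 * (A * τ ^ m * ρ1) ≤ 2 * (A * τ ^ m * (2 * B * K1 ^ 2 * (A * τ ^ k * ρ) ^ 2)) := by
      have : A * τ ^ m * ρ1 ≤ A * τ ^ m * (2 * B * K1 ^ 2 * (A * τ ^ k * ρ) ^ 2) :=
        mul_le_mul_of_nonneg_left hρ1a (by positivity)
      linarith
    have a6 : 2 * (A * τ ^ m * (2 * B * K1 ^ 2 * (A * τ ^ k * ρ) ^ 2)) =
        (4 * B * K1 ^ 2 / τ * (A ^ 2 * τ ^ k * ρ)) * (A * τ ^ n * ρ) := by
      rw [hm, pow_add, pow_add, pow_one]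
      field_simp
      ring
    have a7 : (4 * B * K1 ^ 2 / τ * (A ^ 2 * τ ^ k * ρ)) * (A * τ ^ n * ρ) ≤ 1 * (A * τ ^ n * ρ) :=
      mul_le_mul_of_nonneg_right (sm1 k (by omega) _ e1 hKb) (by positivity)
    linarith

/-- monotone bounds on a finite set -/
theorem fin_max {S : Set ℂ} (hS : S.Finite) {P : ℂ → ℝ → Prop} (hm : ∀ s x y, x ≤ y → P s x → P s y)
    (h : ∀ s ∈ S, ∃ x, P s x) : ∃ x, 1 ≤ x ∧ ∀ s ∈ S, P s x := by
  induction S, hS using Set.Finite.induction_on with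
  | empty => exact ⟨1, le_rfl, fun s hs => absurd hs (Set.notMem_empty s)⟩
  | @insert a S' _ _ ih =>
    obtain ⟨x, hx1, hx⟩ := ih (fun s hs => h s (Set.mem_insert_of_mem a hs))
    obtain ⟨y, hy⟩ := h a (Set.mem_insert a S')
    refine ⟨max x y, hx1.trans (le_max_left _ _), fun s hs => ?_⟩
    rcases Set.mem_insert_iff.1 hs with rfl | hs
    · exact hm _ _ _ (le_max_right _ _) hy
    · exact hm _ _ _ (le_max_left _ _) (hx s hs)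

/-- an eventual bound holds for all `n` up to a constant -/
theorem all_bd {u : ℕ → ℝ} {t : ℝ} (ht : 0 < t) (h : ∀ᶠ n : ℕ in atTop, u n ≤ t ^ n) : ∃ A : ℝ, ∀ n, u n ≤ A * t ^ n := by
  obtain ⟨N, hN⟩ := eventually_atTop.1 h
  refine ⟨1 + ∑ k ∈ Finset.range N, |u k| / t ^ k, fun n => ?_⟩
  have hs : 0 ≤ ∑ k ∈ Finset.range N, |u k| / t ^ k := Finset.sum_nonneg fun k _ => by positivity
  have hp : 0 < t ^ n := pow_pos ht n
  rcases le_or_gt N n with hn | hn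
  · have h1 := hN n hn
    nlinarith [mul_nonneg hs hp.le]
  · have h1 : |u n| / t ^ n ≤ ∑ k ∈ Finset.range N, |u k| / t ^ k :=
      Finset.single_le_sum (f := fun k => |u k| / t ^ k) (fun k _ => by positivity) (Finset.mem_range.2 hn)
    have h2 : |u n| = |u n| / t ^ n * t ^ n := by field_simp
    have h3 : |u n| / t ^ n * t ^ n ≤ (1 + ∑ k ∈ Finset.range N, |u k| / t ^ k) * t ^ n :=
      mul_le_mul_of_nonneg_right (by linarith) hp.le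
    linarith [le_abs_self (u n)]

theorem g1 (h : GS f M S δ B) (hSf : S.Finite) (hSn : S.Nonempty)
    (hex : ∀ y ∈ M, ∀ ρ : ℝ, 0 < ρ → ∃ (n : ℕ) (z : ℂ), ‖z - y‖ < ρ ∧ δ ≤ ‖f^[n] z - f^[n] y‖) :
    ∃ s ∈ S, ∀ ε : ℝ, 0 < ε → ∃ᶠ n : ℕ in atTop, Real.exp (-(ε * n)) ≤ ‖Dn f n (f s)‖ := by
  by_contra hcon
  push Not at hcon
  have hδ := h.hδ
  obtain ⟨E, hE1, hE⟩ := fin_max hSf (P := fun s x => 0 < x ∧ ∀ᶠ n : ℕ in atTop, ‖Dn f n (f s)‖ ≤ Real.exp (-(n / x)))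
    (by
      rintro s x y hxy ⟨hx, hx2⟩
      refine ⟨hx.trans_le hxy, hx2.mono fun n hn => hn.trans ?_⟩
      apply Real.exp_le_exp.2
      apply neg_le_neg
      exact div_le_div_of_nonneg_left (by positivity) hx hxy)
    (by
      intro s hs
      obtain ⟨ε, hε, hev⟩ := hcon s hs
      refine ⟨1 / ε, by positivity, ?_⟩
      refine hev.mono fun n hn => ?_
      have h1 : (n : ℝ) / (1 / ε) = ε * n := by field_simp
      rw [h1]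
      exact hn.le)
  have hE0 : 0 < E := by linarith
  obtain ⟨t, ht⟩ : ∃ t : ℝ, t = Real.exp (-(1 / E)) := ⟨_, rfl⟩
  have ht0 : 0 < t := by rw [ht]; exact Real.exp_pos _
  have ht1 : t < 1 := by
    rw [ht, Real.exp_lt_one_iff]
    have : 0 < 1 / E := by positivity
    linarith
  have htn : ∀ n : ℕ, Real.exp (-((n : ℝ) / E)) = t ^ n := by
    intro n
    rw [ht, ← Real.exp_nat_mul]
    congr 1
    ring
  obtain ⟨A, hA1, hA⟩ := fin_max hSf (P := fun s x => ∀ n : ℕ, ‖Dn f n (f s)‖ ≤ x * t ^ n)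
    (fun s x y hxy hx n => (hx n).trans (mul_le_mul_of_nonneg_right hxy (by positivity)))
    (fun s hs => all_bd ht0 ((hE s hs).2.mono fun n hn => by rw [← htn n]; exact hn))
  have hA0 : 0 < A := by linarith
  obtain ⟨τ, hτ⟩ : ∃ τ : ℝ, τ = (1 + t) / 2 := ⟨_, rfl⟩
  have htτ : t < τ := by rw [hτ]; linarith
  have hτ1 : τ < 1 := by rw [hτ]; linarith
  have hτ0 : 0 < τ := by linarith
  obtain ⟨K, hK1, hK⟩ := gro h ht0 htτ
  have hK0 : 0 < K := by linarith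
  obtain ⟨ρ, hρ⟩ : ∃ ρ : ℝ, ρ = min (1 / (K * A ^ 2)) (δ / (2 * A)) := ⟨_, rfl⟩
  have hρ0 : 0 < ρ := by rw [hρ]; positivity
  have hρ1 : ρ ≤ 1 / (K * A ^ 2) := by rw [hρ]; exact min_le_left _ _
  have hρ2 : ρ ≤ δ / (2 * A) := by rw [hρ]; exact min_le_right _ _
  obtain ⟨s, hs⟩ := hSn
  obtain ⟨n, z, hz, hn⟩ := hex (f s) (h.inv s (h.SM hs)) ρ hρ0
  have hp1 : ∀ m : ℕ, τ ^ m ≤ 1 := fun m => pow_le_one₀ hτ0.le hτ1.le
  have h1 := hK A hA1 n (fun s hs m _ => hA s hs m) n ρ le_rfl hρ0 (by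
    intro m _
    have h2 : K * A ^ 2 * τ ^ m * ρ ≤ K * A ^ 2 * 1 * (1 / (K * A ^ 2)) := by
      apply mul_le_mul _ hρ1 hρ0.le (by positivity)
      exact mul_le_mul_of_nonneg_left (hp1 m) (by positivity)
    have h3 : K * A ^ 2 * 1 * (1 / (K * A ^ 2)) = 1 := by field_simp
    linarith) s hs z hz
  have h2 : A * τ ^ n * ρ ≤ A * 1 * (δ / (2 * A)) := by
    apply mul_le_mul _ hρ2 hρ0.le (by positivity)
    exact mul_le_mul_of_nonneg_left (hp1 n) hA0.le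
  have h3 : A * 1 * (δ / (2 * A)) = δ / 2 := by field_simp
  linarith

end Pool.Agent.H31.LOC
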