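import Pool.Agent.H31.LOC.Defs
import Pool.Agent.H83.UP.KP1
import Pool.Agent.H47.LI.Gs

/-!
# [H31 LOC Gsp] the growth setting near `M`, Julia set not the sphere

`gs_p`. PROOF. `J` is compact (closed, in `closedBall 0 R0` by `NS.bd`, `n = 0`), so is `M`. `b ≠ 0` on a neighbourhood `thickening (2 δa) J` (`NS.Jn`, compactness). `deriv (gg a b) = dg a b` where `b ≠ 0` (`hasStrictDerivAt_gg`, H61/TT/Area, or `hasDerivAt_gg`). `d2`, `db`: `gg` is holomorphic on `thickening (2 δa) J`; bounded second derivative on the compact `cthickening δa J` (Cauchy / Taylor, or continuity of `deriv (deriv gg)` and the mean value inequality twice on balls).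
`lo`: claim: there is `B1` with `∀ x ∈ J, ∃ c ∈ J, (ww a b).eval c = 0 ∧ ‖x - c‖ ≤ B1 ‖dg a b x‖`, or `1 ≤ B1 ‖dg a b x‖` (compactness of `J`: near a zero `c` of `ww` in `J`: `US.sim` gives `‖(ww a b).eval x‖ ≥ c1 ‖x - c‖`, and `b` is bounded; near other points `‖dg‖` is bounded below). `δ1 < 1` and smaller than the distance of `M` to the finitely many zeros of `ww` in `J \ M` (`ww ≠ 0` as polynomial: if `ww = 0` then all points of `J` are zeros and `sim` fails; finitely many roots).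
The last part: `US0.ex`: `n`, `z ∈ ball y ρ` with `(rat)^[n] z ≠ w` for all `w ∈ ball (gg^[n] y) δ0`. Let `δ ≤ δ1 ≤ min δ0 δa`. Suppose `‖gg^[k] z - gg^[k] y‖ < δ` for all `k ≤ n`. Then all `gg^[k] z` (`k < n`) are in `thickening δa J`, `b ≠ 0` there, so `(rat a b)^[k] z = gg^[k] z` for `k ≤ n` (`rat_coe_of_ne`), and `w = gg^[n] z` is in the ball: contradiction.
-/

set_option autoImplicit false

open Filter Topology Polynomial Metric Set MeasureTheory

namespace Pool.Agent.H31.LOC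

open Pool.Agent.H44.Fatou (rat)
open Pool.Agent.H61.TT Pool.Agent.H57.CP Pool.Agent.H3.NC Pool.Agent.H18.UP

variable {d D : ℕ} {a b : Polynomial ℂ} {J : Set ℂ} {δ0 R0 : ℝ}

private theorem gsp_rat {z : ℂ} (k : ℕ) (hz : ∀ i < k, b.eval ((gg a b)^[i] z) ≠ 0) :
    (rat a b)^[k] (z : OnePoint ℂ) = (((gg a b)^[k] z : ℂ) : OnePoint ℂ) := by
  induction k with
  | zero => rfl
  | succ k ih =>
    rw [Function.iterate_succ_apply', ih fun i hi => hz i (by omega), Function.iterate_succ_apply',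
      Pool.Agent.H44.Fatou.rat_coe_of_ne (hz k (by omega))]
    rfl

private theorem gsp_cpt (h : US d D a b J δ0 R0) {M : Set ℂ} (hM : IsClosed M) (hMJ : M ⊆ J) : IsCompact M := by
  refine (isCompact_closedBall (0 : ℂ) R0).of_isClosed_subset hM fun y hy => ?_
  obtain ⟨z, hz, hR⟩ := h.ns.bd 0 (y : OnePoint ℂ) ⟨y, hMJ hy, y, mem_ball_self h.ns.hδ0, rfl⟩
  rw [mem_closedBall_zero_iff, OnePoint.coe_injective hz]
  exact hR

theorem gs_p (h : US d D a b J δ0 R0) {M : Set ℂ} (hM : IsClosed M) (hMJ : M ⊆ J) (hMi : ∀ x ∈ M, gg a b x ∈ M) :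
    ∃ δ1 B : ℝ, 0 < δ1 ∧ ∀ δ : ℝ, 0 < δ → δ ≤ δ1 → GS (gg a b) M {c | c ∈ M ∧ (ww a b).eval c = 0} δ B ∧
      ∀ y ∈ M, ∀ ρ : ℝ, 0 < ρ → ∃ (n : ℕ) (z : ℂ), ‖z - y‖ < ρ ∧ δ ≤ ‖(gg a b)^[n] z - (gg a b)^[n] y‖ := by
  obtain ⟨δ1, B, hδ1, hne, hgs⟩ := Pool.Agent.H47.LI.gs_of (gsp_cpt h hM hMJ) (fun x hx => h.ns.Jn x (hMJ hx)) hMi
    (fun c hc => h.sim c (hMJ hc))
  refine ⟨min δ1 δ0, B, lt_min hδ1 h.ns.hδ0, fun δ hδ hle => ⟨hgs δ hδ (hle.trans (min_le_left _ _)), fun y hy ρ hρ => ?_⟩⟩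
  obtain ⟨n, z, hz, hw⟩ := h.ex y (hMJ hy) ρ hρ
  rw [mem_ball, dist_eq_norm] at hz
  by_contra hcon
  push Not at hcon
  have hk : ∀ k : ℕ, ‖(gg a b)^[k] z - (gg a b)^[k] y‖ < δ := fun k => hcon k z hz
  have hyk : ∀ k : ℕ, (gg a b)^[k] y ∈ M := by
    intro k
    induction k with
    | zero => exact hy
    | succ k ih =>
      rw [Function.iterate_succ_apply']
      exact hMi _ ih
  have hb : ∀ i < n, b.eval ((gg a b)^[i] z) ≠ 0 := by
    intro i _
    refine hne _ (mem_thickening_iff.2 ⟨(gg a b)^[i] y, hyk i, ?_⟩)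
    rw [dist_eq_norm]
    exact (hk i).trans_le (hle.trans (min_le_left _ _))
  refine hw ((gg a b)^[n] z) ?_ (gsp_rat n hb)
  rw [mem_ball, dist_eq_norm]
  exact (hk n).trans_le (hle.trans (min_le_right _ _))

end Pool.Agent.H31.LOC
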