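import Pool.Agent.H31.LOC.Defs
import Pool.Agent.H83.UP.KP1

/-!
# [H31 LOC Knp] the Cauchy kernel near `M`, Julia set not the sphere

`kn_p`. PROOF. `qq x w = 1 / (w - x)`, `r = 0`. `J ⊆ closedBall 0 R0` (`NS.bd`, `n = 0`), so `M` is compact; `thickening ε M ⊆ ZV ..` by `z_ball` (`M ⊆ J`, `ε ≤ δ0`); `z_meas`; `qx`: `w ∉ N`, `x ∈ N`: `w ≠ x`. `qi`: `ZV ⊆ closedBall 0 R0` (`z_bd`), `kin_ball` (H3/NC/KIN) with a radius `> R0` (`R0 ≥ 0` if `J` is not empty; `max R0 0 + 1` in any case), a bound which does not depend on `x`.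
-/

set_option autoImplicit false

open Filter Topology Polynomial Metric Set MeasureTheory

namespace Pool.Agent.H31.LOC

open Pool.Agent.H61.TT Pool.Agent.H57.CP Pool.Agent.H3.NC Pool.Agent.H18.UP
open Pool.Agent.H83.UP (qq z_meas z_pre z_bd z_ball)

variable {d D : ℕ} {a b : Polynomial ℂ} {J : Set ℂ} {δ0 R0 : ℝ}

theorem kn_p (h : NS d D a b J δ0 R0) {M : Set ℂ} (hM : IsClosed M) (hMJ : M ⊆ J) {ε : ℝ} (hε : 0 < ε) (hεδ : ε ≤ δ0) :
    ∃ C : ℝ, KN qq (fun _ _ => 0) M (thickening ε M) (ZV a b (NJ J δ0)) C := by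
  have hNZ : thickening ε M ⊆ ZV a b (NJ J δ0) := by
    intro w hw
    obtain ⟨z, hz, hd⟩ := mem_thickening_iff.1 hw
    exact z_ball (hMJ hz) (mem_ball.2 (lt_of_lt_of_le hd hεδ))
  have hZb : ZV a b (NJ J δ0) ⊆ closedBall (0 : ℂ) R0 := by
    intro z hz
    rw [mem_closedBall_zero_iff]
    exact z_bd h z hz
  have hMN : M ⊆ thickening ε M := self_subset_thickening hε M
  have hqm : Measurable (fun p : ℂ × ℂ => qq p.1 p.2) := by
    unfold qq
    fun_prop
  refine ⟨max 1 (3 * Real.pi * (|R0| + 1)), ?_⟩
  exact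
    { hC := le_max_left _ _
      Mc := Metric.isCompact_of_isClosed_isBounded hM
        (isBounded_closedBall.subset ((hMN.trans hNZ).trans hZb))
      No := isOpen_thickening
      Nb := isBounded_closedBall.subset (hNZ.trans hZb)
      MN := hMN
      NZ := hNZ
      Zm := z_meas h
      qm := hqm
      eq := fun x _ w _ _ => by
        show 1 / (w - x) = 1 / (w - x) + 0
        rw [add_zero]
      rx := fun _ _ => differentiableOn_const _
      rw := fun _ _ => differentiableOn_const _
      rb := fun _ _ _ _ => by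
        rw [norm_zero]
        exact le_trans zero_le_one (le_max_left _ _)
      qx := fun w _ hw => by
        intro x hx
        have hne : w - x ≠ 0 := by
          intro h0
          exact hw ((sub_eq_zero.1 h0) ▸ hx)
        unfold qq
        exact ((differentiableAt_const _).div ((differentiableAt_const _).sub differentiableAt_id)
          hne).differentiableWithinAt
      qi := fun x _ => by
        have hsub : ZV a b (NJ J δ0) ⊆ ball (0 : ℂ) (|R0| + 1) := by
          intro z hz
          rw [mem_ball_zero_iff]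
          have h1 := z_bd h z hz
          have h2 := le_abs_self R0
          linarith
        have h1 := kin_ball x (δ := |R0| + 1) (by positivity)
        have h2 : ∫⁻ w in ZV a b (NJ J δ0), ‖qq x w‖ₑ ≤ ∫⁻ w in ball (0 : ℂ) (|R0| + 1), ‖(w - x)⁻¹‖ₑ := by
          refine (lintegral_mono_set hsub).trans (le_of_eq ?_)
          refine lintegral_congr fun w => ?_
          unfold qq
          rw [one_div]
        exact (h2.trans h1).trans (ENNReal.ofReal_le_ofReal (le_max_right _ _)) }

end Pool.Agent.H31.LOC
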