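import Pool.Agent.H31.LOC.Defs
import Pool.Agent.H31.LOC.Tlp
import Pool.Agent.H83.UP.KP2
import Pool.Agent.H83.UP.ALL

/-!
# [H31 LOC Nrp] no critical relations, Julia set not the sphere

`nr_p`. PROOF. `v = gg c`, `x k = gg^[k] v ∈ J`, `Z = ZV a b (NJ J δ0)`; `hcoP` (KP1) gives `hh`; `step_p`, `crit_p`, `val0_p` (KP2): the identities a.e. `tD a b k v = ∏_(j < k) dg (x j)`.
(1) a general remark: let `Φ w = ∑_(k ∈ range (n + 1)) B k * qq (x k) w`, `B 0 = 1`, the points `x 0 ≠ x k` for `1 ≤ k ≤ n`, and `pf a b Φ = Φ` a.e. on `Z` (`pf` is linear). Then contradiction: `Φ` is integrable on `Z` (`qq_int`, `z_bd`), near `v = x 0` (distance `< ε`) `‖Φ w‖ ≥ 1 / (2 ‖w - v‖) > 0`. `NS.wan` at `y = v`: a disc `D0 = ball w r ⊆ ball v ε ⊆ Z`, no point of which returns to it: the sets `S_m = (pre a b)^[m] D0` are pairwise disjoint subsets of `Z` (`z_pre`), and `∫⁻_(D0) ‖Φ‖ₑ = ∫⁻_(D0) ‖pf^m Φ‖ₑ ≤ ∫⁻_(S_m) ‖Φ‖ₑ` (`pf_int`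 / `area`, H31/NS/PFI and H61/TT/Area, as in `pf_set` of H31/LOC/Tlp; induction on `m`:
`∫⁻_(S_m) ‖Φ‖ₑ = ∫⁻_(S_m) ‖pf Φ‖ₑ ≤ ∫⁻_(S_(m+1)) ‖Φ‖ₑ`). The sum over `m` is at most `∫⁻_Z ‖Φ‖ₑ < ∞`, so `∫⁻_(D0) ‖Φ‖ₑ = 0`: contradiction (`Φ ≠ 0` on `D0`, positive area).
(2) Suppose `dg (x n) = 0`, `n` minimal: `ww (x n) = 0`. `x i ≠ x j` for `i < j ≤ n` (otherwise `x i` is periodic and its cycle contains `x n`: the multiplier is `0`, against `NS.rep`). `B k = (tD a b k v)⁻¹`, `Φ = ∑_(k ≤ n) B k qq (x k)`: `qq (x k) - pf qq (x k) = KQ (x k) - KQ (x (k+1)) / dg (x k)` for `k < n`, `= KQ (x n)` for `k = n` (`crit_p`): the sum telescopes to `KQ (x 0) = 0` (`val0_p`). So `pf Φ = Φ`: (1).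
(3) So all `dg (x k) ≠ 0`. Suppose `x n = v`, `n > 0` minimal: `x 0 ≠ x k` for `1 ≤ k < n`. `Φ = ∑_(k < n) B k qq (x k)`: `Φ - pf Φ = KQ (x 0) - B n KQ (x n) = (1 - B n) KQ v = 0`: (1).
Remark: `KQ` is finite for every `x`, no integrability is needed for the telescoping.
-/

set_option autoImplicit false

open Filter Topology Polynomial Metric Set MeasureTheory

namespace Pool.Agent.H31.LOC

open Pool.Agent.H61.TT Pool.Agent.H57.CP Pool.Agent.H3.NC Pool.Agent.H18.UP Pool.Agent.H83.UP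
open Pool.Agent.H78.NS (pf)

variable {d D : ℕ} {a b : Polynomial ℂ} {J : Set ℂ} {δ0 R0 : ℝ}

private theorem nrp_qm (x : ℂ) : Measurable (qq x) := by
  unfold qq
  fun_prop

private theorem nrp_rat {z : ℂ} (k : ℕ) (hz : ∀ i < k, b.eval ((gg a b)^[i] z) ≠ 0) :
    (Pool.Agent.H44.Fatou.rat a b)^[k] (z : OnePoint ℂ) = (((gg a b)^[k] z : ℂ) : OnePoint ℂ) := by
  induction k with
  | zero => rfl
  | succ k ih =>
    rw [Function.iterate_succ_apply', ih fun i hi => hz i (by omega), Function.iterate_succ_apply',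
      Pool.Agent.H44.Fatou.rat_coe_of_ne (hz k (by omega))]
    rfl

/-- a function fixed by the push forward vanishes on wandering discs -/
private theorem nrp_wan (h : NS d D a b J δ0 R0) {v : ℂ} (hv : v ∈ J) {Φ : ℂ → ℂ} (hΦ : Measurable Φ)
    (hi : ∫⁻ w in ZV a b (NJ J δ0), ‖Φ w‖ₑ ≠ ⊤) (he : ∀ᵐ w : ℂ, Φ w = pf a b Φ w)
    {w0 : ℂ} {r : ℝ} (hsub : ball w0 r ⊆ ball v δ0)
    (hw : ∀ m : ℕ, 0 < m → ∀ z ∈ ball w0 r, ∀ z' ∈ ball w0 r,
      (Pool.Agent.H44.Fatou.rat a b)^[m] (z : OnePoint ℂ) ≠ (z' : OnePoint ℂ)) :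
    ∫⁻ w in ball w0 r, ‖Φ w‖ₑ = 0 := by
  have hSm : ∀ m : ℕ, MeasurableSet ((pre a b)^[m] (ball w0 r)) := by
    intro m
    induction m with
    | zero => exact measurableSet_ball
    | succ m ih =>
      rw [Function.iterate_succ_apply']
      exact measurableSet_pre ih
  have hmono : ∀ (m : ℕ) (S T : Set ℂ), S ⊆ T → (pre a b)^[m] S ⊆ (pre a b)^[m] T := by
    intro m
    induction m with
    | zero => exact fun S T hST => hST
    | succ m ih =>
      intro S T hST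
      rw [Function.iterate_succ_apply', Function.iterate_succ_apply']
      exact fun z hz => ⟨hz.1, ih S T hST hz.2⟩
  have hSZ : ∀ m : ℕ, (pre a b)^[m] (ball w0 r) ⊆ ZV a b (NJ J δ0) := by
    intro m z hz
    unfold ZV
    have h1 : ball w0 r ⊆ NJ J δ0 := fun w hw' => ⟨v, hv, hsub hw'⟩
    exact mem_iUnion.2 ⟨m, hmono m _ _ h1 hz⟩
  have hstep : ∀ m : ℕ, ∫⁻ w in ball w0 r, ‖Φ w‖ₑ ≤ ∫⁻ w in (pre a b)^[m] (ball w0 r), ‖Φ w‖ₑ := by
    intro m
    induction m with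
    | zero => exact le_refl _
    | succ m ih =>
      refine ih.trans ?_
      have h1 : ∫⁻ w in (pre a b)^[m] (ball w0 r), ‖Φ w‖ₑ =
          ∫⁻ w in (pre a b)^[m] (ball w0 r), ‖pf a b Φ w‖ₑ := by
        refine lintegral_congr_ae ?_
        filter_upwards [ae_restrict_of_ae (s := (pre a b)^[m] (ball w0 r)) he] with w hw'
        exact congrArg _ hw'
      rw [h1, Function.iterate_succ_apply']
      exact pf_set h.rt hΦ (hSm m)
  have hdis : Pairwise (Function.onFun Disjoint fun m : ℕ => (pre a b)^[m] (ball w0 r)) := by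
    have key : ∀ m n : ℕ, m < n → Disjoint ((pre a b)^[m] (ball w0 r)) ((pre a b)^[n] (ball w0 r)) := by
      intro m n hmn
      refine Set.disjoint_left.2 fun z hz1 hz2 => ?_
      obtain ⟨h1, h2⟩ := mem_pre.1 hz1
      obtain ⟨h3, h4⟩ := mem_pre.1 hz2
      obtain ⟨k, rfl⟩ := Nat.exists_eq_add_of_lt hmn
      refine hw (k + 1) (Nat.succ_pos k) _ h2 _ h4 ?_
      rw [nrp_rat (k + 1)]
      · rw [← Function.iterate_add_apply]
        congr 2
        omega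
      · intro i hi
        rw [← Function.iterate_add_apply]
        exact h3 (i + m) (by omega)
    intro m n hmn
    rcases lt_or_gt_of_ne hmn with h1 | h1
    · exact key m n h1
    · exact (key n m h1).symm
  have hsum : ∑' m : ℕ, ∫⁻ w in (pre a b)^[m] (ball w0 r), ‖Φ w‖ₑ ≤ ∫⁻ w in ZV a b (NJ J δ0), ‖Φ w‖ₑ := by
    rw [← lintegral_iUnion hSm hdis]
    exact lintegral_mono_set (iUnion_subset hSZ)
  by_contra hne
  have h1 : ∑' _ : ℕ, ∫⁻ w in ball w0 r, ‖Φ w‖ₑ ≤ ∫⁻ w in ZV a b (NJ J δ0), ‖Φ w‖ₑ :=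
    (ENNReal.tsum_le_tsum hstep).trans hsum
  rw [ENNReal.tsum_const_eq_top_of_ne_zero hne] at h1
  exact hi (top_le_iff.1 h1)

private theorem nrp_main (h : NS d D a b J δ0 R0) {v : ℂ} (hv : v ∈ J) (N : ℕ) (B x : ℕ → ℂ) (hB : B 0 = 1)
    (hx0 : x 0 = v) (hx : ∀ k, 0 < k → k ≤ N → x k ≠ v)
    (he : ∀ᵐ w : ℂ, ∑ k ∈ Finset.range (N + 1), B k * (qq (x k) w - pf a b (qq (x k)) w) = 0) : False := by
  obtain ⟨Φ, hΦd⟩ : ∃ Φ : ℂ → ℂ, Φ = fun w => ∑ k ∈ Finset.range (N + 1), B k * qq (x k) w := ⟨_, rfl⟩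
  have hΦm : Measurable Φ := by
    rw [hΦd]
    exact Finset.measurable_fun_sum _ fun k _ => (nrp_qm (x k)).const_mul _
  have hpf : ∀ w : ℂ, pf a b Φ w = ∑ k ∈ Finset.range (N + 1), B k * pf a b (qq (x k)) w := by
    intro w
    unfold pf
    rw [hΦd]
    simp only [Finset.mul_sum, Finset.sum_div]
    rw [Finset.sum_comm]
    refine Finset.sum_congr rfl fun k _ => Finset.sum_congr rfl fun y _ => ?_
    rw [mul_div_assoc]
  have hfix : ∀ᵐ w : ℂ, Φ w = pf a b Φ w := by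
    filter_upwards [he] with w hw
    rw [hpf, hΦd]
    simp only [mul_sub, Finset.sum_sub_distrib] at hw
    exact sub_eq_zero.1 hw
  have hint : IntegrableOn Φ (ZV a b (NJ J δ0)) := by
    rw [hΦd]
    exact integrable_finsetSum _ fun k _ => (qq_int (z_meas h) (z_bd h) (x k)).const_mul _
  have hfin : ∫⁻ w in ZV a b (NJ J δ0), ‖Φ w‖ₑ ≠ ⊤ := hint.2.ne
  -- near `v`
  obtain ⟨Ψ, hΨd⟩ : ∃ Ψ : ℂ → ℂ, Ψ = fun w => ∑ k ∈ Finset.range N, B (k + 1) * qq (x (k + 1)) w := ⟨_, rfl⟩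
  have hsplit : ∀ w, Φ w = Ψ w + qq v w := by
    intro w
    rw [hΦd, hΨd]
    simp only
    rw [Finset.sum_range_succ', hB, hx0, one_mul]
  have hΨc : ContinuousAt Ψ v := by
    rw [hΨd]
    refine tendsto_finsetSum _ fun k hk => ?_
    have h1 := hx (k + 1) (Nat.succ_pos k) (Finset.mem_range.1 hk)
    have h2 : v - x (k + 1) ≠ 0 := sub_ne_zero.2 (Ne.symm h1)
    have h3 : ContinuousAt (fun w => B (k + 1) * qq (x (k + 1)) w) v := by
      refine ContinuousAt.mul continuousAt_const ?_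
      unfold qq
      exact ContinuousAt.div continuousAt_const (by fun_prop) h2
    exact h3
  obtain ⟨ε1, hε1, hb1⟩ : ∃ ε1 : ℝ, 0 < ε1 ∧ ∀ w ∈ ball v ε1, ‖Ψ w‖ < ‖Ψ v‖ + 1 := by
    have h1 : ∀ᶠ w in 𝓝 v, ‖Ψ w‖ < ‖Ψ v‖ + 1 :=
      hΨc.norm.eventually_lt continuousAt_const (by linarith)
    obtain ⟨ε1, h2, h3⟩ := Metric.eventually_nhds_iff_ball.1 h1
    exact ⟨ε1, h2, h3⟩
  have hM : 0 < ‖Ψ v‖ + 1 := by positivity
  have hnz : ∀ w ∈ ball v (min ε1 (1 / (‖Ψ v‖ + 1))), w ≠ v → Φ w ≠ 0 := by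
    intro w hw hne h0
    rw [hsplit] at h0
    have h1 : ‖Ψ w‖ = ‖qq v w‖ := by
      rw [eq_neg_of_add_eq_zero_left h0, norm_neg]
    have h2 := hb1 w (ball_subset_ball (min_le_left _ _) hw)
    have h3 : ‖w - v‖ < 1 / (‖Ψ v‖ + 1) := by
      have := ball_subset_ball (min_le_right ε1 _) hw
      rwa [mem_ball, dist_eq_norm] at this
    have h4 : 0 < ‖w - v‖ := norm_pos_iff.2 (sub_ne_zero.2 hne)
    have h5 : ‖qq v w‖ = 1 / ‖w - v‖ := by
      unfold qq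
      rw [norm_div, norm_one]
    rw [h1, h5, div_lt_iff₀ h4] at h2
    rw [lt_div_iff₀ hM] at h3
    nlinarith
  obtain ⟨w0, r, hr, hsub, hwan⟩ := h.wan v hv (min δ0 (min ε1 (1 / (‖Ψ v‖ + 1))))
    (lt_min h.hδ0 (lt_min hε1 (by positivity)))
  have hzero := nrp_wan h hv hΦm hfin hfix (hsub.trans (ball_subset_ball (min_le_left _ _))) hwan
  have h1 : (fun w => ‖Φ w‖ₑ) =ᵐ[volume.restrict (ball w0 r)] 0 :=
    (lintegral_eq_zero_iff hΦm.enorm).1 hzero
  have h2 : ∀ᵐ w : ℂ, w ∈ ball w0 r → ‖Φ w‖ₑ = 0 := (ae_restrict_iff' measurableSet_ball).1 h1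
  have h3 : ∀ᵐ w : ℂ, w ≠ v := compl_mem_ae_iff.2 (measure_singleton v)
  have h4 : ∀ᵐ w : ℂ, w ∉ ball w0 r := by
    filter_upwards [h2, h3] with w h5 h6 h7
    exact hnz w (ball_subset_ball (min_le_right _ _) (hsub h7)) h6 (enorm_eq_zero.1 (h5 h7))
  have h5 : volume (ball w0 r) = 0 := by
    have h6 : (ball w0 r)ᶜ ∈ ae (volume : Measure ℂ) := h4
    exact compl_mem_ae_iff.1 h6
  exact (measure_ball_pos volume w0 hr).ne' h5

theorem nr_p (h : US0 d D a b J δ0 R0) {C : ℝ} {X : ℕ → ℂ → ℂ} (hV : VP D a b J C X) {c : ℂ} (hcJ : c ∈ J)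
    (hc : (ww a b).eval c = 0) :
    (∀ n : ℕ, dg a b ((gg a b)^[n] (gg a b c)) ≠ 0) ∧ ∀ n : ℕ, 0 < n → (gg a b)^[n] (gg a b c) ≠ gg a b c := by
  obtain ⟨v, hvd⟩ : ∃ v : ℂ, v = gg a b c := ⟨_, rfl⟩
  have hv : v ∈ J := hvd ▸ h.ns.Ji c hcJ
  obtain ⟨x, hxd⟩ : ∃ x : ℕ → ℂ, x = fun k => (gg a b)^[k] v := ⟨_, rfl⟩
  have hx0 : x 0 = v := by rw [hxd]; rfl
  have hxs : ∀ k, x (k + 1) = gg a b (x k) := by
    intro k
    rw [hxd]
    exact Function.iterate_succ_apply' _ _ _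
  have hxJ : ∀ k, x k ∈ J := by
    intro k
    induction k with
    | zero => rw [hx0]; exact hv
    | succ k ih => rw [hxs]; exact h.ns.Ji _ ih
  obtain ⟨hh, -, hl⟩ := hcoP h.ns (z_meas h.ns) (z_bd h.ns) z_pre
  have hv0 : ∀ᵐ w : ℂ, KQ D hh X v w = 0 := by
    rw [hvd]
    exact val0_p h hV hl hcJ hc
  obtain ⟨B, hBd⟩ : ∃ B : ℕ → ℂ, B = fun k => (tD a b k v)⁻¹ := ⟨_, rfl⟩
  have hB0 : B 0 = 1 := by
    rw [hBd]
    simp [tD]
  have hBs : ∀ k, B (k + 1) = B k / dg a b (x k) := by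
    intro k
    rw [hBd, hxd]
    simp only [tD]
    rw [Finset.prod_range_succ, mul_inv, div_eq_mul_inv]
  -- the telescoping sum
  have htel : ∀ n : ℕ, (∀ k < n, dg a b (x k) ≠ 0) →
      ∀ᵐ w : ℂ, ∑ k ∈ Finset.range n, B k * (qq (x k) w - pf a b (qq (x k)) w) = - (B n * KQ D hh X (x n) w) := by
    intro n
    induction n with
    | zero =>
      intro _
      filter_upwards [hv0] with w hw
      rw [Finset.range_zero, Finset.sum_empty, hx0, hw, mul_zero, neg_zero]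
    | succ n ih =>
      intro hn
      filter_upwards [ih fun k hk => hn k (by omega), step_p h hV hl (hxJ n) (hn n (by omega))] with w h1 h2
      rw [Finset.sum_range_succ, h1, h2, hBs, hxs]
      have h3 := hn n (by omega)
      field_simp
      ring
  have hdg : ∀ n : ℕ, dg a b (x n) ≠ 0 := by
    intro n
    induction n using Nat.strong_induction_on with
    | _ n ih =>
      intro h0
      have hw : (ww a b).eval (x n) = 0 := by
        unfold dg at h0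
        exact (div_eq_zero_iff.1 h0).resolve_right (pow_ne_zero 2 (h.ns.Jn _ (hxJ n)))
      refine nrp_main h.ns hv n B x hB0 hx0 ?_ ?_
      · intro k hk hkn hkv
        have h1 : ∀ j, x (j + k) = x j := by
          intro j
          induction j with
          | zero => rw [Nat.zero_add, hkv, hx0]
          | succ j ihj => rw [show j + 1 + k = (j + k) + 1 by ring, hxs, ihj, hxs]
        have h2 := h1 (n - k)
        rw [Nat.sub_add_cancel hkn] at h2
        refine ih (n - k) (by omega) ?_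
        rw [← h2]
        exact h0
      · filter_upwards [htel n ih, crit_p h hV hl (hxJ n) hw] with w h1 h2
        rw [Finset.sum_range_succ, h1, h2]
        ring
  have hnp : ∀ n : ℕ, 0 < n → x n ≠ v := by
    intro n
    induction n using Nat.strong_induction_on with
    | _ n ih =>
      intro hn hnv
      obtain ⟨m, rfl⟩ := Nat.exists_eq_succ_of_ne_zero hn.ne'
      refine nrp_main h.ns hv m B x hB0 hx0 (fun k hk hkm => ih k (by omega) hk) ?_
      filter_upwards [htel (m + 1) (fun k _ => hdg k), hv0] with w h1 h2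
      have h3 : x (m + 1) = v := hnv
      rw [h1, h3, h2, mul_zero, neg_zero]
  rw [← hvd]
  rw [hxd] at hdg hnp
  exact ⟨hdg, hnp⟩

end Pool.Agent.H31.LOC
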