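import Pool.Agent.H31.LOC.Aep
import Pool.Agent.H66.IL.GTE
import Pool.Agent.H27.BR.PSG

/-!
# [H31 LOC Otp] the basin of `M` and the orbits outside it, Julia set not the sphere

`Bs g J M`: the points of `J` whose orbits tend to `M`. `g = gg a b`, `a = pol u.1`, `b = pol u.2`.
`bs_meas`. PROOF. `Bs = J ∩ ⋂_k ⋃_N ⋂_(n ≥ N) {z | ∃ y ∈ M, ‖g^[n] z - y‖ < 1 / (k + 1)}`; `g` is measurable (`measurable_gg`), the sets are preimages of the open set `thickening (1 / (k + 1)) M`.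
`bs_inv`. PROOF. `g z ∈ J ↔ z ∈ J` for `b z ≠ 0` (`hJi`, `hJb`); shift of the sequence.
`out_p`. PROOF. `T'` a trap with `GT u T'` (`gt_ex`), `JC u` is compact (`jc_comp`), disjoint from the closed set `T'` (points of the trap are Fatou points: `GA.af`, `Trap.att`): distance `δa > 0` in the plane. `P = M ∪ (P \ M)`, both closed (compact), distance `δb > 0`. `ε0 = min δa (δb / 2)`, positive.
`z ∉ Bs`. Note: `z ∈ (pre a b)^[n] N` gives `(rat a b)^[n] z = g^[n] z ∈ N` (`mem_pre`, all `b ≠ 0` along the orbit). (1) `z ∉ JC u`: a Fatou point, `GT.en` gives `k` with `(Rf u)^[k] z ∈ T'`, and then `(Rf u)^[n] z ∈ T'` for all `n ≥ k` (trap), a point of `N = thickening ε M` has distance `< δa` from `J`: not in `T'`. (2) `z ∈ JC u`, by `ae_P` for a.e. `z` the orbit (in `J`, no poles) tends to `P`.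
There is `η > 0` such that `‖x - p‖ < η`, `x ∈ J`, `p ∈ M` (or `p ∈ P \ M`) implies that `g x` has distance `< ε0 / 2` from `M` (from `P \ M`) (uniform continuity of `g` near the compact set `J`, `hMi`, `hcom`). For `n ≥ n0` the orbit is within `min η (ε0 / 2)` of `P`; if it is within this distance of `M` once, so it is for ever (the next point is within `ε0 / 2` of `M` and within `min η (ε0 / 2)` of `P`; `P \ M` is at distance `≥ 2 ε0` from `M`), and then it tends to `M`: `z ∈ Bs`, excluded. So it is near `P \ M` for all `n ≥ n0`, at a distance `> ε0 ≥ ε` from `M`.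
-/

set_option autoImplicit false

open Filter Topology Polynomial Metric Set MeasureTheory

namespace Pool.Agent.H31.LOC

open Pool.Agent.H44.Fatou (rat rat_continuous rat_coe rat_coe_of_ne pt crit_coe)
open Pool.Agent.H56.HR (FS EqAt)
open Pool.Agent.H32.BT Pool.Agent.H79.Eul Pool.Agent.H79.Par
open Pool.Agent.H35.EX Pool.Agent.H44.RR Pool.Agent.H44.RC Pool.Agent.H47.RJ
open Pool.Agent.H47.NN Pool.Agent.H44.ND Pool.Agent.H79.ES
open Pool.Agent.H64.NC Pool.Agent.H61.TT Pool.Agent.H57.CP Pool.Agent.H3.NC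
open Pool.Agent.H18.UP (PJ Cr)

/-- the basin of `M` in `J` -/
def Bs (g : ℂ → ℂ) (J M : Set ℂ) : Set ℂ := {z | z ∈ J ∧ ∀ ε : ℝ, 0 < ε → ∀ᶠ n : ℕ in atTop, ∃ y ∈ M, ‖g^[n] z - y‖ < ε}

theorem bs_meas {d : ℕ} {a b : Polynomial ℂ} (h : RatD d a b) {J M : Set ℂ} (hJ : IsClosed J) :
    MeasurableSet (Bs (Pool.Agent.H61.TT.gg a b) J M) := by
  have hm : ∀ n : ℕ, Measurable ((Pool.Agent.H61.TT.gg a b)^[n]) := fun n => measurable_gg.iterate n
  have h1 : Bs (Pool.Agent.H61.TT.gg a b) J M = J ∩ ⋂ k : ℕ, ⋃ N : ℕ, ⋂ n : ℕ, ⋂ _ : N ≤ n,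
      (Pool.Agent.H61.TT.gg a b)^[n] ⁻¹' thickening (1 / ((k : ℝ) + 1)) M := by
    ext z
    simp only [Bs, mem_setOf_eq, mem_inter_iff, mem_iInter, mem_iUnion, mem_preimage, mem_thickening_iff, dist_eq_norm]
    refine and_congr_right fun hz => ⟨fun h1 k => ?_, fun h1 ε hε => ?_⟩
    · exact eventually_atTop.1 (h1 _ (by positivity))
    · obtain ⟨k, hk⟩ := exists_nat_one_div_lt hε
      obtain ⟨N, hN⟩ := h1 k
      filter_upwards [eventually_ge_atTop N] with n hn
      obtain ⟨y, hy, hy2⟩ := hN n hn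
      exact ⟨y, hy, hy2.trans hk⟩
  rw [h1]
  exact hJ.measurableSet.inter (MeasurableSet.iInter fun k => MeasurableSet.iUnion fun N => MeasurableSet.iInter fun n =>
    MeasurableSet.iInter fun _ => hm n isOpen_thickening.measurableSet)

theorem bs_inv {a b : Polynomial ℂ} {J M : Set ℂ} (hJi : ∀ z ∈ J, Pool.Agent.H61.TT.gg a b z ∈ J)
    (hJb : ∀ z : ℂ, b.eval z ≠ 0 → Pool.Agent.H61.TT.gg a b z ∈ J → z ∈ J) {z : ℂ} (hz : b.eval z ≠ 0) :
    Pool.Agent.H61.TT.gg a b z ∈ Bs (Pool.Agent.H61.TT.gg a b) J M ↔ z ∈ Bs (Pool.Agent.H61.TT.gg a b) J M := by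
  have h1 : Pool.Agent.H61.TT.gg a b z ∈ J ↔ z ∈ J := ⟨hJb z hz, hJi z⟩
  have h2 : ∀ ε : ℝ, (∀ᶠ n : ℕ in atTop, ∃ y ∈ M, ‖(Pool.Agent.H61.TT.gg a b)^[n] (Pool.Agent.H61.TT.gg a b z) - y‖ < ε) ↔
      ∀ᶠ n : ℕ in atTop, ∃ y ∈ M, ‖(Pool.Agent.H61.TT.gg a b)^[n] z - y‖ < ε := by
    intro ε
    conv_rhs => rw [← map_add_atTop_eq_nat 1, eventually_map]
    simp only [Function.iterate_succ_apply]
  show (Pool.Agent.H61.TT.gg a b z ∈ J ∧ _) ↔ (z ∈ J ∧ _)
  rw [h1]
  refine and_congr_right fun _ => forall_congr' fun ε => imp_congr_right fun _ => h2 ε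

private theorem ot_it {d : ℕ} {u : E d} {z : ℂ} {n : ℕ}
    (hb : ∀ i < n, (pol u.2).eval ((Pool.Agent.H61.TT.gg (pol u.1) (pol u.2))^[i] z) ≠ 0) :
    (Rf u)^[n] (z : OnePoint ℂ) = (((Pool.Agent.H61.TT.gg (pol u.1) (pol u.2))^[n] z : ℂ) : OnePoint ℂ) := by
  induction n with
  | zero => rfl
  | succ n ih =>
    rw [Function.iterate_succ_apply', Function.iterate_succ_apply', ih fun i hi => hb i (by omega)]
    unfold Rf
    rw [rat_coe_of_ne (hb n (by omega))]
    rfl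

theorem out_p {d : ℕ} {u : E d} {T : Set (OnePoint ℂ)} (hT : GA u T) {δ : ℝ} {η : ℂ → ℂ → ℂ} {ρ : ℝ}
    (h : Pool.Agent.H56.UD.PS (Pool.Agent.H61.TT.gg (pol u.1) (pol u.2)) {z | (pol u.2).eval z ≠ 0} (JC u)
      (PJ (pol u.1) (pol u.2) (JC u)) {c | c ∈ JC u ∧ Cr (pol u.1) (pol u.2) c} δ η ρ)
    {M : Set ℂ} (hM : IsClosed M) (hMP : M ⊆ PJ (pol u.1) (pol u.2) (JC u))
    (hMi : ∀ x ∈ M, Pool.Agent.H61.TT.gg (pol u.1) (pol u.2) x ∈ M) (hoff : IsClosed (PJ (pol u.1) (pol u.2) (JC u) \ M))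
    (hcom : ∀ x ∈ PJ (pol u.1) (pol u.2) (JC u), x ∉ M → Pool.Agent.H61.TT.gg (pol u.1) (pol u.2) x ∉ M) :
    ∃ ε0 : ℝ, 0 < ε0 ∧ ∀ ε : ℝ, 0 < ε → ε ≤ ε0 → ∀ᵐ z : ℂ, z ∉ Bs (Pool.Agent.H61.TT.gg (pol u.1) (pol u.2)) (JC u) M →
      ∀ᶠ n : ℕ in atTop, z ∉ (pre (pol u.1) (pol u.2))^[n] (thickening ε M) := by
  obtain ⟨T', -, hG'⟩ := Pool.Agent.H66.IL.gt_ex hT
  have hJc : IsCompact (JC u) := Pool.Agent.H27.BR.jc_comp hT
  have hPJ : PJ (pol u.1) (pol u.2) (JC u) ⊆ JC u := h.PJ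
  have hMJ : M ⊆ JC u := hMP.trans hPJ
  have hMc : IsCompact M := hJc.of_isClosed_subset hM hMJ
  have hCc : IsClosed {z : ℂ | (z : OnePoint ℂ) ∈ T'} := hG'.tr.closed.preimage OnePoint.continuous_coe
  have hdis : Disjoint (JC u) {z : ℂ | (z : OnePoint ℂ) ∈ T'} := by
    rw [Set.disjoint_left]
    intro z hz hz2
    exact hz (hT.af _ (hG'.tr.att _ hz2))
  obtain ⟨δa, hδa, hda⟩ := hdis.exists_thickenings hJc hCc
  obtain ⟨δb, hδb, hdb⟩ := (disjoint_sdiff_right (s := M) (t := PJ (pol u.1) (pol u.2) (JC u))).exists_thickenings hMc hoff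
  have hgc : ContinuousOn (Pool.Agent.H61.TT.gg (pol u.1) (pol u.2)) (JC u) := h.fd.continuousOn.mono h.JU
  have huc := hJc.uniformContinuousOn_of_continuous hgc
  obtain ⟨η', hη', huc'⟩ := Metric.uniformContinuousOn_iff.1 huc δb hδb
  refine ⟨min δa δb, lt_min hδa hδb, fun ε hε hεle => ?_⟩
  filter_upwards [ae_P h] with z hz hzB
  by_cases hzJ : z ∈ JC u
  · have hP := hz hzJ
    have hJn : ∀ n : ℕ, (Pool.Agent.H61.TT.gg (pol u.1) (pol u.2))^[n] z ∈ JC u := fun n => (hT.git hzJ n).1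
    have hr : 0 < min η' δb := lt_min hη' hδb
    obtain ⟨n0, hn0⟩ := eventually_atTop.1 (hP _ hr)
    -- once near `M`, always near `M`
    have hfar : ∀ n ≥ n0, ¬ ∃ p ∈ M, ‖(Pool.Agent.H61.TT.gg (pol u.1) (pol u.2))^[n] z - p‖ < min η' δb := by
      intro n hn hnp
      have hall : ∀ k : ℕ, ∃ p ∈ M, ‖(Pool.Agent.H61.TT.gg (pol u.1) (pol u.2))^[n + k] z - p‖ < min η' δb := by
        intro k
        induction k with
        | zero => exact hnp
        | succ k ih =>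
          obtain ⟨p, hp, hpd⟩ := ih
          obtain ⟨q, hq, hqd⟩ := hn0 (n + (k + 1)) (by omega)
          by_cases hqM : q ∈ M
          · exact ⟨q, hqM, hqd⟩
          · exfalso
            have h1 : (Pool.Agent.H61.TT.gg (pol u.1) (pol u.2))^[n + (k + 1)] z ∈
                thickening δb (PJ (pol u.1) (pol u.2) (JC u) \ M) := by
              rw [mem_thickening_iff]
              refine ⟨q, ⟨hq, hqM⟩, ?_⟩
              rw [dist_eq_norm]
              exact hqd.trans_le (min_le_right _ _)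
            have h2 : (Pool.Agent.H61.TT.gg (pol u.1) (pol u.2))^[n + (k + 1)] z ∈ thickening δb M := by
              rw [mem_thickening_iff]
              refine ⟨Pool.Agent.H61.TT.gg (pol u.1) (pol u.2) p, hMi p hp, ?_⟩
              rw [← add_assoc, Function.iterate_succ_apply']
              refine huc' _ (hJn _) _ (hMJ hp) ?_
              rw [dist_eq_norm]
              exact hpd.trans_le (min_le_left _ _)
            exact Set.disjoint_left.1 hdb h2 h1
      refine hzB ⟨hzJ, fun ε' hε' => ?_⟩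
      filter_upwards [hP _ (lt_min hε' hδb), eventually_ge_atTop n] with m hm hmn
      obtain ⟨q, hq, hqd⟩ := hm
      obtain ⟨k, rfl⟩ : ∃ k, m = n + k := ⟨m - n, by omega⟩
      obtain ⟨p, hp, hpd⟩ := hall k
      by_cases hqM : q ∈ M
      · exact ⟨q, hqM, hqd.trans_le (min_le_left _ _)⟩
      · exfalso
        have h1 : (Pool.Agent.H61.TT.gg (pol u.1) (pol u.2))^[n + k] z ∈ thickening δb M := by
          rw [mem_thickening_iff]
          refine ⟨p, hp, ?_⟩
          rw [dist_eq_norm]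
          exact hpd.trans_le (min_le_right _ _)
        have h2 : (Pool.Agent.H61.TT.gg (pol u.1) (pol u.2))^[n + k] z ∈
            thickening δb (PJ (pol u.1) (pol u.2) (JC u) \ M) := by
          rw [mem_thickening_iff]
          refine ⟨q, ⟨hq, hqM⟩, ?_⟩
          rw [dist_eq_norm]
          exact hqd.trans_le (min_le_right _ _)
        exact Set.disjoint_left.1 hdb h1 h2
    filter_upwards [eventually_ge_atTop n0] with n hn hnp
    have h1 := (mem_pre.1 hnp).2
    obtain ⟨q, hq, hqd⟩ := hn0 n hn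
    have hqM : q ∉ M := fun hqM => hfar n hn ⟨q, hqM, hqd⟩
    have h2 : (Pool.Agent.H61.TT.gg (pol u.1) (pol u.2))^[n] z ∈
        thickening δb (PJ (pol u.1) (pol u.2) (JC u) \ M) := by
      rw [mem_thickening_iff]
      refine ⟨q, ⟨hq, hqM⟩, ?_⟩
      rw [dist_eq_norm]
      exact hqd.trans_le (min_le_right _ _)
    exact Set.disjoint_left.1 hdb (thickening_mono (hεle.trans (min_le_right _ _)) _ h1) h2
  · have hzF : (z : OnePoint ℂ) ∈ FS (Rf u) := by
      by_contra h1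
      exact hzJ h1
    obtain ⟨k, hk⟩ := hG'.en _ hzF
    have hk2 : ∀ m : ℕ, (Rf u)^[k + m] (z : OnePoint ℂ) ∈ T' := by
      intro m
      induction m with
      | zero => exact hk
      | succ m ih =>
        rw [← add_assoc, Function.iterate_succ_apply']
        exact interior_subset (hG'.tr.maps _ ih)
    filter_upwards [eventually_ge_atTop k] with n hn hnp
    obtain ⟨hb, hM2⟩ := mem_pre.1 hnp
    obtain ⟨m, rfl⟩ : ∃ m, n = k + m := ⟨n - k, by omega⟩
    have h1 := ot_it hb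
    have h2 := hk2 m
    rw [h1] at h2
    have h3 : (Pool.Agent.H61.TT.gg (pol u.1) (pol u.2))^[k + m] z ∈ thickening δa {z : ℂ | (z : OnePoint ℂ) ∈ T'} :=
      self_subset_thickening hδa _ h2
    exact Set.disjoint_left.1 hda
      (thickening_subset_of_subset _ hMJ (thickening_mono (hεle.trans (min_le_left _ _)) _ hM2)) h3

end Pool.Agent.H31.LOC
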