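import Pool.Agent.H31.LOC.Cut
import Pool.Agent.H18.WE.Main

/-!
# [H31 LOC Wej] (WE) on the neighbourhood `N` of `M`

`wej`. PROOF. `q0 x w = 1 / (w - x)`, `Z0 = thickening 1 J ∪ N` (bounded, measurable): `KN q0 (fun _ _ => 0) M N Z0 C0` (`∫_(Z0) ‖1 / (w - x)‖ ≤ C0` for `x ∈ N`: `Z0 ⊆ ball x R'`; `ck_int` / `inv_int` in H66/IV/Inv, or the value `2 π R'`). `we` (H18/WE/Main, `r0 = 1`; `M ⊆ J`): `‖∑ A k X (x k)‖ ≤ M0 ∫_(thickening 1 J) ‖∑ A k / (w - x k)‖ ≤ M0 ∫_(Z0) ‖Ph q0‖ ≤ M0 C1 ∫_N ‖Ph q0‖` (`cut` for `q0`; `∑ A k / (w - x k) = Ph q0`; Bochner integral to `∫⁻`: `enorm_integral_le_lintegral_enorm`, or `integral_eq_lintegral_of_nonneg_ae`).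
On `N` (a.e. `w`, `w ≠ x k`): `Ph q0 w = Ph q w - ∑ A k r (x k) w` (`KN.eq`). For `w ∈ N`: `χ` from `cut_ex` (`M ⊆ N`), `ψ y = χ y * r y w` (`KN.rx`, `db_mulh`), `‖dbar1 ψ‖ ≤ B C` (`KN.rb` on the support; `dbar1 χ = 0` off `tsupport χ`), so `rep_le`: `‖∑ A k r (x k) w‖ₑ ≤ B C ∫⁻_N ‖Ph q‖ₑ`; the area of `N` is finite. Together `∫⁻_N ‖Ph q0‖ₑ ≤ (1 + B C area(N)) ∫⁻_N ‖Ph q‖ₑ`.
-/

set_option autoImplicit false

open Filter Topology Polynomial Metric Set MeasureTheory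

namespace Pool.Agent.H31.LOC

variable {q r : ℂ → ℂ → ℂ} {M N Z : Set ℂ} {C : ℝ}

private theorem wej_ball (s : ℝ) : ∃ C : ℝ, 1 ≤ C ∧ ∀ x : ℂ, ∫⁻ w in ball x s, ‖(1 : ℂ) / (w - x)‖ₑ ≤ ENNReal.ofReal C := by
  have h1 : ∀ y ∈ Ioi (0 : ℝ), y * (if y < s then y⁻¹ else 0) = (Iio s).indicator (fun _ => (1 : ℝ)) y := by
    intro y hy
    have hy0 : 0 < y := hy
    by_cases h : y < s
    · rw [if_pos h, indicator_of_mem (show y ∈ Iio s from h)]
      field_simp
    · rw [if_neg h, indicator_of_notMem (show y ∉ Iio s from h), mul_zero]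
  have hI : IntegrableOn (fun y : ℝ => y * (if y < s then y⁻¹ else 0)) (Ioi 0) := by
    refine IntegrableOn.congr_fun ?_ (fun y hy => (h1 y hy).symm) measurableSet_Ioi
    rw [IntegrableOn, integrable_indicator_iff measurableSet_Iio, IntegrableOn, Measure.restrict_restrict measurableSet_Iio]
    have : Iio s ∩ Ioi 0 = Ioo 0 s := by
      ext y
      simp [and_comm]
    rw [this]
    exact integrable_const _
  have hint : Integrable (fun u : ℂ => if ‖u‖ < s then ‖u‖⁻¹ else 0) := by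
    have := (integrable_fun_norm_addHaar (E := ℂ) (F := ℝ) volume (f := fun y => if y < s then y⁻¹ else 0)).2
      (by rw [Complex.finrank_real_complex]; simpa using hI)
    exact this
  have hnn : 0 ≤ ∫ u : ℂ, ‖(if ‖u‖ < s then ‖u‖⁻¹ else 0 : ℝ)‖ := integral_nonneg fun _ => norm_nonneg _
  refine ⟨1 + ∫ u : ℂ, ‖(if ‖u‖ < s then ‖u‖⁻¹ else 0 : ℝ)‖, by linarith, fun x => ?_⟩
  have h2 : ∫⁻ w in ball x s, ‖(1 : ℂ) / (w - x)‖ₑ ≤ ∫⁻ w : ℂ, ‖(if ‖w - x‖ < s then ‖w - x‖⁻¹ else 0 : ℝ)‖ₑ := by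
    rw [← lintegral_indicator measurableSet_ball]
    refine lintegral_mono fun w => ?_
    by_cases hw : w ∈ ball x s
    · have hw' : ‖w - x‖ < s := by rwa [mem_ball, dist_eq_norm] at hw
      rw [indicator_of_mem hw]
      simp only [if_pos hw']
      rw [← ofReal_norm_eq_enorm, ← ofReal_norm_eq_enorm, norm_div, norm_one, one_div, norm_inv, norm_norm]
    · rw [indicator_of_notMem hw]
      exact zero_le'
  refine h2.trans ?_
  rw [lintegral_sub_right_eq_self (fun u : ℂ => ‖(if ‖u‖ < s then ‖u‖⁻¹ else 0 : ℝ)‖ₑ) x,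
    ← ofReal_integral_norm_eq_lintegral_enorm hint]
  exact ENNReal.ofReal_le_ofReal (by linarith)

private theorem wej_kn (h : KN q r M N Z C) {J : Set ℂ} (hJ : IsCompact J) :
    ∃ C0 : ℝ, KN (fun x w => 1 / (w - x)) (fun _ _ => 0) M N (thickening 1 J ∪ N) C0 := by
  have hb : Bornology.IsBounded (thickening 1 J ∪ N) := hJ.isBounded.thickening.union h.Nb
  obtain ⟨R, hR⟩ := (isBounded_iff_subset_ball (0 : ℂ)).1 hb
  obtain ⟨C0, hC0, hI⟩ := wej_ball (R + R)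
  refine ⟨C0, hC0, h.Mc, h.No, h.Nb, h.MN, subset_union_right, (isOpen_thickening.union h.No).measurableSet, ?_, ?_, ?_, ?_, ?_, ?_, ?_⟩
  · exact measurable_const.div (measurable_snd.sub measurable_fst)
  · intro x _ w _ _
    simp
  · intro w _
    exact differentiableOn_const _
  · intro x _
    exact differentiableOn_const _
  · intro x _ w _
    rw [norm_zero]
    linarith
  · intro w _ hw x hx
    have hne : w - x ≠ 0 := by
      intro h0
      apply hw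
      rw [sub_eq_zero.1 h0]
      exact hx
    exact (DifferentiableAt.div (differentiableAt_const _) ((differentiableAt_const _).sub differentiableAt_id) hne).differentiableWithinAt
  · intro x hx
    refine (lintegral_mono_set ?_).trans (hI x)
    intro w hw
    have h1 := hR hw
    have h2 := hR (subset_union_right hx)
    rw [mem_ball_zero_iff] at h1 h2
    rw [mem_ball, dist_eq_norm]
    exact (norm_sub_le w x).trans_lt (by linarith)

private theorem wej_sum (h : KN q r M N Z C) : ∃ C1 : ℝ, 0 ≤ C1 ∧ ∀ (L : ℕ) (A x : ℕ → ℂ), (∀ k < L, x k ∈ M) → ∀ w ∈ N,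
    ‖∑ k ∈ Finset.range L, A k * r (x k) w‖ₑ ≤ ENNReal.ofReal C1 * ∫⁻ w in N, ‖Ph q L A x w‖ₑ := by
  obtain ⟨χ, B, h1, h2, h3, h4, -, h5, h6⟩ := cut_ex h.Mc h.No h.MN
  have hC0 : 0 ≤ C := by linarith [h.hC]
  refine ⟨B * C, mul_nonneg h5 hC0, fun L A x hx w hw => ?_⟩
  obtain ⟨e1, e2, e3⟩ := db_mulh h1 h3 h.No (h.rx w hw)
  have e4 : HasCompactSupport (fun y => χ y * r y w) :=
    h2.of_isClosed_subset (isClosed_tsupport _) e2
  have e5 := rep_le h e1 e4 (e2.trans h3) (B := B * C) (fun y => by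
    rw [e3 y, norm_mul]
    by_cases hy : y ∈ tsupport χ
    · exact mul_le_mul (h6 y) (h.rb y (h3 hy) w hw) (norm_nonneg _) h5
    · have h7 : fderiv ℝ χ y = 0 := by
        have h8 : χ =ᶠ[𝓝 y] fun _ => 0 := by
          have h9 : (tsupport χ)ᶜ ∈ 𝓝 y := (isClosed_tsupport χ).isOpen_compl.mem_nhds hy
          filter_upwards [h9] with z hz
          exact image_eq_zero_of_notMem_tsupport hz
        rw [h8.fderiv_eq]
        simp
      have h8 : Pool.Agent.H71.Top.dbar1 χ y = 0 := by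
        unfold Pool.Agent.H71.Top.dbar1
        simp [h7]
      rw [h8, norm_zero, zero_mul]
      exact mul_nonneg h5 hC0) (A := A) hx
  have e6 : ∑ k ∈ Finset.range L, A k * (fun y => χ y * r y w) (x k) = ∑ k ∈ Finset.range L, A k * r (x k) w := by
    refine Finset.sum_congr rfl fun k hk => ?_
    simp only [h4 (x k) (hx k (Finset.mem_range.mp hk)), one_mul]
  rwa [e6] at e5

private theorem wej_N (h : KN q r M N Z C) : ∃ C1 : ℝ, 0 ≤ C1 ∧ ∀ (L : ℕ) (A x : ℕ → ℂ), (∀ k < L, x k ∈ M) →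
    ∫⁻ w in N, ‖Ph (fun x w => 1 / (w - x)) L A x w‖ₑ ≤ ENNReal.ofReal C1 * ∫⁻ w in N, ‖Ph q L A x w‖ₑ := by
  obtain ⟨C1, hC1, hs⟩ := wej_sum h
  have hv : volume N ≠ ⊤ := h.Nb.measure_lt_top.ne
  refine ⟨1 + C1 * (volume N).toReal, by positivity, fun L A x hx => ?_⟩
  have hP := ph_meas h L A x
  have hae : ∀ᵐ w ∂(volume.restrict N), ‖Ph (fun x w => 1 / (w - x)) L A x w‖ₑ ≤
      ‖Ph q L A x w‖ₑ + ENNReal.ofReal C1 * ∫⁻ w in N, ‖Ph q L A x w‖ₑ := by
    have hfin : volume (↑((Finset.range L).image x) : Set ℂ) = 0 := Finset.measure_zero _ _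
    have h1 : ∀ᵐ w : ℂ, w ∉ (↑((Finset.range L).image x) : Set ℂ) := measure_eq_zero_iff_ae_notMem.1 hfin
    rw [ae_restrict_iff' h.No.measurableSet]
    filter_upwards [h1] with w hw hN
    have e : Ph (fun x w => 1 / (w - x)) L A x w = Ph q L A x w - ∑ k ∈ Finset.range L, A k * r (x k) w := by
      unfold Ph
      rw [← Finset.sum_sub_distrib]
      refine Finset.sum_congr rfl fun k hk => ?_
      have hne : w ≠ x k := by
        intro h0
        apply hw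
        rw [Finset.coe_image]
        exact ⟨k, by simpa using hk, h0.symm⟩
      rw [h.eq (x k) (h.MN (hx k (Finset.mem_range.mp hk))) w hN hne]
      ring
    rw [e]
    refine (enorm_sub_le).trans ?_
    exact add_le_add le_rfl (hs L A x hx w hN)
  refine (lintegral_mono_ae hae).trans ?_
  rw [lintegral_add_left hP.enorm, setLIntegral_const, ENNReal.ofReal_add zero_le_one (by positivity), ENNReal.ofReal_one,
    add_mul, one_mul, ENNReal.ofReal_mul hC1, ENNReal.ofReal_toReal hv]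
  refine add_le_add le_rfl (le_of_eq ?_)
  ring

theorem wej (h : KN q r M N Z C) {J : Set ℂ} {X : ℂ → ℂ} {C2 θ r1 : ℝ} (tp : Pool.Agent.H18.WE.TP J X C2 θ r1) (hMJ : M ⊆ J) :
    ∃ C1 : ℝ, 0 ≤ C1 ∧ ∀ (L : ℕ) (A x : ℕ → ℂ), (∀ k < L, x k ∈ M) →
      ‖∑ k ∈ Finset.range L, A k * X (x k)‖ₑ ≤ ENNReal.ofReal C1 * ∫⁻ w in N, ‖Ph q L A x w‖ₑ := by
  obtain ⟨M0, hM0, hw⟩ := Pool.Agent.H18.WE.we tp one_pos
  obtain ⟨C0, hk⟩ := wej_kn h tp.Jc
  obtain ⟨C1, hC1, hc⟩ := cut hk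
  obtain ⟨C3, hC3, hn⟩ := wej_N h
  refine ⟨M0 * C1 * C3, by positivity, fun L A x hx => ?_⟩
  have h1 := hw L A x (fun i hi => hMJ (hx i hi))
  have e1 : ∀ w, ∑ i ∈ Finset.range L, A i / (w - x i) = Ph (fun x w => 1 / (w - x)) L A x w := by
    intro w
    unfold Ph
    refine Finset.sum_congr rfl fun k _ => ?_
    rw [mul_one_div]
  have h2 : ‖∑ k ∈ Finset.range L, A k * X (x k)‖ₑ ≤
      ENNReal.ofReal M0 * ∫⁻ w in thickening 1 J, ‖Ph (fun x w => 1 / (w - x)) L A x w‖ₑ := by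
    rw [← ofReal_norm_eq_enorm]
    refine (ENNReal.ofReal_le_ofReal h1).trans ?_
    rw [ENNReal.ofReal_mul hM0.le]
    refine mul_le_mul' le_rfl ?_
    have h3 := enorm_integral_le_lintegral_enorm (μ := volume.restrict (thickening 1 J))
      (fun w => ‖∑ i ∈ Finset.range L, A i / (w - x i)‖)
    rw [Real.enorm_of_nonneg (integral_nonneg fun _ => norm_nonneg _)] at h3
    refine h3.trans (le_of_eq ?_)
    refine lintegral_congr fun w => ?_
    rw [enorm_norm, e1 w]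
  have h3 : ∫⁻ w in thickening 1 J, ‖Ph (fun x w => 1 / (w - x)) L A x w‖ₑ ≤
      ∫⁻ w in thickening 1 J ∪ N, ‖Ph (fun x w => 1 / (w - x)) L A x w‖ₑ := lintegral_mono_set subset_union_left
  have h4 := (h3.trans (hc L A x hx)).trans (mul_le_mul' le_rfl (hn L A x hx))
  refine h2.trans ((mul_le_mul' le_rfl h4).trans (le_of_eq ?_))
  rw [ENNReal.ofReal_mul (by positivity), ENNReal.ofReal_mul hM0.le]
  ring

end Pool.Agent.H31.LOC
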