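import Pool.Agent.H31.LOC.Loa
import Pool.Agent.H31.LOC.Wej
import Pool.Agent.H31.LOC.Knp
import Pool.Agent.H31.LOC.Gsp
import Pool.Agent.H31.LOC.Nrp
import Pool.Agent.H31.LOC.Otp
import Pool.Agent.H18.UP.THK

/-!
# [H31 LOC Ldp] the data of THEOREM LOC, Julia set not the sphere
-/

set_option autoImplicit false

open Filter Topology Polynomial Metric Set MeasureTheory

namespace Pool.Agent.H31.LOC

open Pool.Agent.H44.Fatou (rat rat_continuous rat_coe rat_coe_of_ne pt crit_coe)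
open Pool.Agent.H56.HR (FS EqAt)
open Pool.Agent.H32.BT Pool.Agent.H79.Eul Pool.Agent.H79.Par
open Pool.Agent.H35.EX Pool.Agent.H44.RR Pool.Agent.H44.RC Pool.Agent.H47.RJ
open Pool.Agent.H47.NN Pool.Agent.H44.ND Pool.Agent.H79.ES
open Pool.Agent.H64.NC Pool.Agent.H61.TT Pool.Agent.H57.CP Pool.Agent.H3.NC
open Pool.Agent.H18.UP (PJ Cr NJ ZV US0 US VP thk)
open Pool.Agent.H83.UP (qq z_meas z_pre z_bd z_ball hcoP step_p val0_p us_of)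

theorem KN.mono {q r : ℂ → ℂ → ℂ} {M N Z : Set ℂ} {C C' : ℝ} (h : KN q r M N Z C) (hC : C ≤ C') : KN q r M N Z C' :=
  { h with
    hC := h.hC.trans hC
    rb := fun x hx w hw => (h.rb x hx w hw).trans hC
    qi := fun x hx => (h.qi x hx).trans (ENNReal.ofReal_le_ofReal hC) }

theorem GS.mono {f : ℂ → ℂ} {M S : Set ℂ} {δ B B' : ℝ} (h : GS f M S δ B) (hB : B ≤ B') : GS f M S δ B' :=
  { h with
    hB := h.hB.trans hB
    d2 := fun x hx z hz => (h.d2 x hx z hz).trans (mul_le_mul_of_nonneg_right hB (by positivity))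
    db := fun x hx => (h.db x hx).trans hB
    lo := fun x hx r hr h1 => h.lo x hx r hr ((mul_le_mul_of_nonneg_right hB (norm_nonneg _)).trans h1) }

theorem ld_p {d D : ℕ} {u : E d} {T : Set (OnePoint ℂ)} (hT : GA u T) {δ0 R0 : ℝ}
    (hU : US0 d D (pol u.1) (pol u.2) (JC u) δ0 R0) {C0 : ℝ} {X : ℕ → ℂ → ℂ} (hV : VP D (pol u.1) (pol u.2) (JC u) C0 X)
    {δ : ℝ} {η : ℂ → ℂ → ℂ} {ρ : ℝ}
    (h : Pool.Agent.H56.UD.PS (Pool.Agent.H61.TT.gg (pol u.1) (pol u.2)) {z | (pol u.2).eval z ≠ 0} (JC u)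
      (PJ (pol u.1) (pol u.2) (JC u)) {c | c ∈ JC u ∧ Cr (pol u.1) (pol u.2) c} δ η ρ)
    {M : Set ℂ} (hM : IsClosed M) (hMP : M ⊆ PJ (pol u.1) (pol u.2) (JC u))
    (hMi : ∀ x ∈ M, Pool.Agent.H61.TT.gg (pol u.1) (pol u.2) x ∈ M) (hoff : IsClosed (PJ (pol u.1) (pol u.2) (JC u) \ M))
    (hcom : ∀ x ∈ PJ (pol u.1) (pol u.2) (JC u), x ∉ M → Pool.Agent.H61.TT.gg (pol u.1) (pol u.2) x ∉ M)
    (hMC : ∃ c ∈ M, Cr (pol u.1) (pol u.2) c)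
    (hue : ∀ c ∈ M, Cr (pol u.1) (pol u.2) c → ∀ ε : ℝ, 0 < ε → ∃ A : ℝ, ∀ n : ℕ,
      ‖Dn (Pool.Agent.H61.TT.gg (pol u.1) (pol u.2)) n (Pool.Agent.H61.TT.gg (pol u.1) (pol u.2) c)‖ ≤ A * Real.exp (ε * n)) :
    ∃ (N Z : Set ℂ) (φ : ℕ → ℂ → ℂ) (δ' C : ℝ), LD d (pol u.1) (pol u.2) M N Z
      {c | c ∈ M ∧ (Pool.Agent.H61.TT.ww (pol u.1) (pol u.2)).eval c = 0}
      (Bs (Pool.Agent.H61.TT.gg (pol u.1) (pol u.2)) (JC u) M) qq (fun _ _ => 0) D φ X δ' C := by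
  obtain ⟨a, ha⟩ : ∃ a, a = pol u.1 := ⟨_, rfl⟩
  obtain ⟨b, hb⟩ : ∃ b, b = pol u.2 := ⟨_, rfl⟩
  have hMJ : M ⊆ JC u := hMP.trans h.PJ
  have hbM : ∀ x ∈ JC u, (pol u.2).eval x ≠ 0 := fun x hx => hT.bne hx
  have hUS := us_of hU hV
  obtain ⟨ε0, hε0, hout⟩ := out_p hT h hM hMP hMi hoff hcom
  obtain ⟨ε, hε⟩ : ∃ ε, ε = min ε0 δ0 := ⟨_, rfl⟩
  have hδ0 : 0 < δ0 := hU.ns.hδ0
  have hεp : 0 < ε := hε ▸ lt_min hε0 hδ0
  obtain ⟨C1, hKN⟩ := kn_p hU.ns hM hMJ hεp (hε ▸ min_le_right _ _)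
  obtain ⟨δ1, B, hδ1, hGS⟩ := gs_p hUS hM hMJ hMi
  obtain ⟨hGS1, hex⟩ := hGS δ1 hδ1 le_rfl
  have hZm := z_meas hU.ns
  have hZb := z_bd hU.ns
  have hZp : pre (pol u.1) (pol u.2) (ZV (pol u.1) (pol u.2) (NJ (JC u) δ0)) ⊆ ZV (pol u.1) (pol u.2) (NJ (JC u) δ0) := z_pre
  obtain ⟨φ, hφ, hlg⟩ := hcoP hU.ns hZm hZb hZp
  -- WE
  obtain ⟨θ, r1, hθ, hr1, hth⟩ := thk hU
  have hwe : ∀ j : ℕ, ∃ C2 : ℝ, j ≤ D → ∀ (L : ℕ) (A x : ℕ → ℂ), (∀ k < L, x k ∈ M) →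
      ‖∑ k ∈ Finset.range L, A k * X j (x k)‖ₑ ≤ ENNReal.ofReal C2 * ∫⁻ w in thickening ε M, ‖Ph qq L A x w‖ₑ := by
    intro j
    by_cases hj : j ≤ D
    · have tp : Pool.Agent.H18.WE.TP (JC u) (X j) C0 θ r1 :=
        ⟨h.Jc, by linarith [hV.hC], hθ, hr1, hV.bd j hj, hV.tri j hj, hth⟩
      obtain ⟨C2, -, h2⟩ := wej hKN tp hMJ
      exact ⟨C2, fun _ => h2⟩
    · exact ⟨0, fun h1 => absurd h1 hj⟩
  choose C2 hC2 using hwe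
  obtain ⟨S, hS⟩ : ∃ S, S = ∑ j ∈ Finset.range (D + 1), |C2 j| := ⟨_, rfl⟩
  have hS1 : ∀ j ≤ D, C2 j ≤ S := by
    intro j hj
    rw [hS]
    exact (le_abs_self _).trans (Finset.single_le_sum (f := fun j => |C2 j|) (fun i _ => abs_nonneg _)
      (Finset.mem_range.2 (by omega)))
  have hnr : ∀ c ∈ M, (Pool.Agent.H61.TT.ww (pol u.1) (pol u.2)).eval c = 0 →
      (∀ n : ℕ, dg (pol u.1) (pol u.2) ((Pool.Agent.H61.TT.gg (pol u.1) (pol u.2))^[n]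
        (Pool.Agent.H61.TT.gg (pol u.1) (pol u.2) c)) ≠ 0) ∧
      ∀ n : ℕ, 0 < n → (Pool.Agent.H61.TT.gg (pol u.1) (pol u.2))^[n] (Pool.Agent.H61.TT.gg (pol u.1) (pol u.2) c) ≠
        Pool.Agent.H61.TT.gg (pol u.1) (pol u.2) c := fun c hc hw => nr_p hU hV (hMJ hc) hw
  obtain ⟨C, hC⟩ : ∃ C, C = max (max C1 B) (max C0 S) := ⟨_, rfl⟩
  have hC1 : C1 ≤ C := hC ▸ (le_max_left _ _).trans (le_max_left _ _)
  have hC2' : B ≤ C := hC ▸ (le_max_right _ _).trans (le_max_left _ _)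
  have hC3 : C0 ≤ C := hC ▸ (le_max_left _ _).trans (le_max_right _ _)
  have hC4 : S ≤ C := hC ▸ (le_max_right _ _).trans (le_max_right _ _)
  refine ⟨thickening ε M, ZV (pol u.1) (pol u.2) (NJ (JC u) δ0), φ, δ1, C, ?_⟩
  refine ⟨hU.ns.rt, hKN.mono hC1, hGS1.mono hC2', ?_, ?_, fun x hx => hbM x (hMJ hx), hZp, bs_meas hU.ns.rt h.Jc.isClosed,
    ?_, fun z hz => hbM z hz.1, fun z hz => bs_inv h.Jf (fun z hz h1 => h.Jb z hz h1) hz, ?_, fun j _ => hφ j,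
    fun j hj x hx => (hV.bd j hj x (hMJ hx)).trans hC3, ?_, ?_, ?_, ?_, ?_, ?_, hex⟩
  · exact h.Cf.subset fun c hc => ⟨hMJ hc.1, hbM c (hMJ hc.1), hc.2⟩
  · obtain ⟨c, hc, hcr⟩ := hMC
    exact ⟨c, hc, hcr.2⟩
  · intro z hz
    exact z_ball hz.1 (mem_ball_self hδ0)
  · filter_upwards [hout ε hεp (hε ▸ min_le_left _ _)] with z hz _ hzB
    exact hz hzB
  · intro j hj L A x hx
    refine (hC2 j hj L A x hx).trans ?_
    gcongr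
    exact (hS1 j hj).trans hC4
  · intro x hx hdx
    filter_upwards [step_p hU hV hlg (hMJ hx) hdx] with w hw _
    exact hw
  · intro c hc
    filter_upwards [val0_p hU hV hlg (hMJ hc.1) hc.2] with w hw _
    exact hw
  · exact fun c hc => hue c hc.1 ⟨hbM c (hMJ hc.1), hc.2⟩
  · exact fun c hc => (hnr c hc.1 hc.2).1
  · exact fun c hc => (hnr c hc.1 hc.2).2

end Pool.Agent.H31.LOC
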