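import Pool.Agent.H31.LOC.Apx
import Pool.Agent.H31.LOC.Abm
import Pool.Agent.H31.LOC.Inv

/-!
# [H31 LOC Loa] THEOREM LOC, abstract form

`loa`. PROOF. `E = Lp ℂ 1 (volume.restrict Z)`, `T` from `tlp`. `P u` = class of `B.indicator u` (linear, norm at most `1`; or `Lp` version of the indicator / restriction), `p u = (∫⁻_N ‖u‖ₑ).toReal ≤ ‖u‖` (`N ⊆ Z`). `Φ j` = class of `φ j`, `j : Fin (D + 1)`. `h` of `abm` from `apx` (constant `C1`; `ψ` as a class, `‖ψ‖ = (∫⁻_Z ‖ψ‖ₑ).toReal`, `T ψ = pf ψ` a.e. by `IsT`).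
`hQ`: `p (T^k (u - P u)) = ∫_N ‖..‖ ≤ ∫_((pre)^[k] N) ‖u - P u‖` (`tlp_it`), the integrand `((pre)^[k] N).indicator (..)` tends to `0` a.e. (`LD.out`; `u - P u = 0` a.e. on `B`; `(pre)^[k] N ⊆ Z`), dominated by `‖u‖`. So there are `ℓ`, `u`; `inv_mu`: `μ0`. `μ = B.indicator μ0`: `ℓ (P u) = ∫_B u μ0 ≠ 0`, so `0 < volume {z | μ z ≠ 0}`.
Invariance: for `b z ≠ 0`, `z ∈ B`: `gg z ∈ B ⊆ Z`, so `z ∈ pre a b Z`: `inv_mu`. For `z ∉ B`: `gg z ∉ B` (`Bi`): both sides are `0`.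
-/

set_option autoImplicit false

open Filter Topology Polynomial Metric Set MeasureTheory

namespace Pool.Agent.H31.LOC

open Pool.Agent.H61.TT Pool.Agent.H57.CP Pool.Agent.H18.UP
open Pool.Agent.H78.NS (pf)

variable {d : ℕ} {a b : Polynomial ℂ} {M N Z S B : Set ℂ} {q r : ℂ → ℂ → ℂ} {D : ℕ} {φ X : ℕ → ℂ → ℂ} {δ C : ℝ}

private theorem n1 {Z : Set ℂ} (u : Lp ℂ 1 (volume.restrict Z)) : ‖u‖ₑ = ∫⁻ w in Z, ‖(u : ℂ → ℂ) w‖ₑ := by
  rw [Lp.enorm_def, eLpNorm_one_eq_lintegral_enorm]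

private theorem n2 {Z : Set ℂ} (u : Lp ℂ 1 (volume.restrict Z)) : ENNReal.ofReal ‖u‖ = ∫⁻ w in Z, ‖(u : ℂ → ℂ) w‖ₑ := by
  rw [← n1, ofReal_norm]

private theorem n3 {Z : Set ℂ} (u : Lp ℂ 1 (volume.restrict Z)) : ‖u‖ = (∫⁻ w in Z, ‖(u : ℂ → ℂ) w‖ₑ).toReal := by
  rw [← n2, ENNReal.toReal_ofReal (norm_nonneg _)]

private theorem n4 {Z : Set ℂ} (u : Lp ℂ 1 (volume.restrict Z)) : ∫⁻ w in Z, ‖(u : ℂ → ℂ) w‖ₑ ≠ ⊤ := by
  rw [← n2]
  exact ENNReal.ofReal_ne_top

/-- multiplication with the indicator function -/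
private noncomputable def ind (Z : Set ℂ) {B : Set ℂ} (hB : MeasurableSet B) :
    Lp ℂ 1 (volume.restrict Z) →L[ℂ] Lp ℂ 1 (volume.restrict Z) :=
  LinearMap.mkContinuous
    { toFun := fun u => ((Lp.memLp u).indicator hB).toLp (B.indicator (u : ℂ → ℂ))
      map_add' := by
        intro u v
        apply Lp.ext
        filter_upwards [((Lp.memLp (u + v)).indicator hB).coeFn_toLp, ((Lp.memLp u).indicator hB).coeFn_toLp,
          ((Lp.memLp v).indicator hB).coeFn_toLp, Lp.coeFn_add u v,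
          Lp.coeFn_add (((Lp.memLp u).indicator hB).toLp (B.indicator (u : ℂ → ℂ)))
            (((Lp.memLp v).indicator hB).toLp (B.indicator (v : ℂ → ℂ)))] with w h1 h2 h3 h4 h5
        rw [h1, h5, Pi.add_apply, h2, h3]
        by_cases hw : w ∈ B
        · rw [indicator_of_mem hw, indicator_of_mem hw, indicator_of_mem hw, h4, Pi.add_apply]
        · rw [indicator_of_notMem hw, indicator_of_notMem hw, indicator_of_notMem hw, add_zero]
      map_smul' := by
        intro c u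
        apply Lp.ext
        filter_upwards [((Lp.memLp (c • u)).indicator hB).coeFn_toLp, ((Lp.memLp u).indicator hB).coeFn_toLp,
          Lp.coeFn_smul c u, Lp.coeFn_smul c (((Lp.memLp u).indicator hB).toLp (B.indicator (u : ℂ → ℂ)))] with w h1 h2 h4 h5
        rw [h1, RingHom.id_apply, h5, Pi.smul_apply, h2]
        by_cases hw : w ∈ B
        · rw [indicator_of_mem hw, indicator_of_mem hw, h4, Pi.smul_apply]
        · rw [indicator_of_notMem hw, indicator_of_notMem hw, smul_zero] } 1 (by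
      intro u
      rw [one_mul]
      change ‖((Lp.memLp u).indicator hB).toLp (B.indicator (u : ℂ → ℂ))‖ ≤ ‖u‖
      rw [Lp.norm_toLp, Lp.norm_def]
      exact ENNReal.toReal_mono (Lp.eLpNorm_ne_top u) (eLpNorm_indicator_le _))

private theorem ind_ae {Z B : Set ℂ} (hB : MeasurableSet B) (u : Lp ℂ 1 (volume.restrict Z)) :
    (ind Z hB u : ℂ → ℂ) =ᵐ[volume.restrict Z] B.indicator (u : ℂ → ℂ) :=
  ((Lp.memLp u).indicator hB).coeFn_toLp

private theorem ind_le {Z B : Set ℂ} (hB : MeasurableSet B) (u : Lp ℂ 1 (volume.restrict Z)) : ‖ind Z hB u‖ ≤ ‖u‖ := by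
  change ‖((Lp.memLp u).indicator hB).toLp (B.indicator (u : ℂ → ℂ))‖ ≤ ‖u‖
  rw [Lp.norm_toLp, Lp.norm_def]
  exact ENNReal.toReal_mono (Lp.eLpNorm_ne_top u) (eLpNorm_indicator_le _)

private theorem ind_no {Z N : Set ℂ} (hN : MeasurableSet N) (hNZ : N ⊆ Z) (u : Lp ℂ 1 (volume.restrict Z)) :
    ENNReal.ofReal ‖ind Z hN u‖ = ∫⁻ w in N, ‖(u : ℂ → ℂ) w‖ₑ := by
  rw [n2]
  have h1 : ∫⁻ w in Z, ‖(ind Z hN u : ℂ → ℂ) w‖ₑ = ∫⁻ w in Z, N.indicator (fun w => ‖(u : ℂ → ℂ) w‖ₑ) w := by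
    apply lintegral_congr_ae
    filter_upwards [ind_ae hN u] with w hw
    rw [hw]
    by_cases hwN : w ∈ N
    · rw [indicator_of_mem hwN, indicator_of_mem hwN]
    · rw [indicator_of_notMem hwN, indicator_of_notMem hwN, enorm_zero]
  rw [h1, lintegral_indicator hN, Measure.restrict_restrict hN, inter_eq_left.2 hNZ]

private theorem itZ {a b : Polynomial ℂ} {N Z : Set ℂ} (hNZ : N ⊆ Z) (hp : pre a b Z ⊆ Z) (hN : MeasurableSet N) (k : ℕ) :
    (pre a b)^[k] N ⊆ Z ∧ MeasurableSet ((pre a b)^[k] N) := by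
  induction k with
  | zero => exact ⟨hNZ, hN⟩
  | succ k ih =>
      rw [Function.iterate_succ_apply']
      refine ⟨fun y hy => hp ⟨hy.1, ih.1 hy.2⟩, measurableSet_pre ih.2⟩

theorem loa (h : LD d a b M N Z S B q r D φ X δ C) : ∃ (μ : ℂ → ℂ) (C1 : ℝ), Measurable μ ∧ (∀ z, ‖μ z‖ ≤ C1) ∧
    (∀ z, z ∉ B → μ z = 0) ∧ (∀ᵐ z : ℂ, b.eval z ≠ 0 → μ (gg a b z) * (starRingEnd ℂ) (dg a b z) = μ z * dg a b z) ∧
    0 < volume {z | μ z ≠ 0} := by
  obtain ⟨T, hT1, hT⟩ := tlp h.rt h.kn.Zm h.Zp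
  have hNm : MeasurableSet N := h.kn.No.measurableSet
  obtain ⟨C1, hC1, hap⟩ := apx h
  have hφ : ∀ j : Fin (D + 1), MemLp (φ j) 1 (volume.restrict Z) := fun j =>
    memLp_one_iff_integrable.2 (h.φi j (Nat.lt_succ_iff.1 j.2))
  obtain ⟨ℓ, hℓ, u, hu⟩ : ∃ ℓ : Lp ℂ 1 (volume.restrict Z) →L[ℂ] ℂ, (∀ u, ℓ (T u) = ℓ u) ∧ ∃ u, ℓ (ind Z h.Bm u) ≠ 0 := by
    refine abm T (ind Z h.Bm) hT1 (fun j : Fin (D + 1) => (hφ j).toLp (φ j)) (fun u => ‖ind Z hNm u‖) (fun u => norm_nonneg _)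
      (fun u => ind_le hNm u) (fun u v => by rw [map_add]; exact norm_add_le _ _)
      (fun c u => by rw [map_smul, norm_smul]) ?_ (by linarith : (0 : ℝ) ≤ C1) ?_
    · intro u
      set v : Lp ℂ 1 (volume.restrict Z) := u - ind Z h.Bm u with hv
      have hv0 : ∀ᵐ w ∂(volume.restrict Z), w ∈ B → (v : ℂ → ℂ) w = 0 := by
        filter_upwards [Lp.coeFn_sub u (ind Z h.Bm u), ind_ae h.Bm u] with w h1 h2 hw
        rw [hv, h1, Pi.sub_apply, h2, indicator_of_mem hw, sub_self]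
      have hlim : Tendsto (fun k : ℕ => ∫⁻ w in Z, ((pre a b)^[k] N).indicator (fun w => ‖(v : ℂ → ℂ) w‖ₑ) w) atTop (𝓝 0) := by
        have h0 : (0 : ENNReal) = ∫⁻ _ in Z, (0 : ENNReal) := by simp
        rw [h0]
        refine tendsto_lintegral_of_dominated_convergence' (fun w => ‖(v : ℂ → ℂ) w‖ₑ) ?_ ?_ (n4 v) ?_
        · intro k
          exact ((Lp.aestronglyMeasurable v).enorm).indicator (itZ h.kn.NZ h.Zp hNm k).2
        · intro k
          exact Eventually.of_forall fun w => indicator_le_self _ _ w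
        · filter_upwards [hv0, ae_restrict_of_ae h.out, ae_restrict_mem h.kn.Zm] with w h1 h2 h3
          by_cases hw : w ∈ B
          · have : ∀ k : ℕ, ((pre a b)^[k] N).indicator (fun w => ‖(v : ℂ → ℂ) w‖ₑ) w = 0 := by
              intro k
              by_cases hk : w ∈ (pre a b)^[k] N
              · rw [indicator_of_mem hk, h1 hw, enorm_zero]
              · rw [indicator_of_notMem hk]
            simp only [this]
            exact tendsto_const_nhds
          · refine tendsto_const_nhds.congr' ?_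
            filter_upwards [h2 h3 hw] with k hk
            rw [indicator_of_notMem hk]
      have hb : ∀ k : ℕ, ENNReal.ofReal ‖ind Z hNm ((T ^ k) v)‖ ≤
          ∫⁻ w in Z, ((pre a b)^[k] N).indicator (fun w => ‖(v : ℂ → ℂ) w‖ₑ) w := by
        intro k
        have hk := itZ h.kn.NZ h.Zp hNm k
        rw [ind_no hNm h.kn.NZ, lintegral_indicator hk.2, Measure.restrict_restrict hk.2, inter_eq_left.2 hk.1]
        exact tlp_it h.rt h.kn.Zm h.Zp hT k v hNm h.kn.NZ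
      have h2 : Tendsto (fun k : ℕ => ENNReal.ofReal ‖ind Z hNm ((T ^ k) v)‖) atTop (𝓝 0) :=
        tendsto_of_tendsto_of_tendsto_of_le_of_le tendsto_const_nhds hlim (fun k => bot_le) hb
      have h3 := (ENNReal.tendsto_toReal ENNReal.zero_ne_top).comp h2
      refine h3.congr fun k => ?_
      simp
    · intro s hs0 hs1
      obtain ⟨ψ, t, hψm, hψi, hψ0, ht, hψN, hψ⟩ := hap s hs0 hs1
      have hψL : MemLp ψ 1 (volume.restrict Z) := memLp_one_iff_integrable.2 hψi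
      set Ψ : Lp ℂ 1 (volume.restrict Z) := hψL.toLp ψ with hΨ
      have hΨa : (Ψ : ℂ → ℂ) =ᵐ[volume.restrict Z] ψ := hψL.coeFn_toLp
      have hΨn : ENNReal.ofReal ‖Ψ‖ = ∫⁻ w in Z, ‖ψ w‖ₑ := by
        rw [n2]
        apply lintegral_congr_ae
        filter_upwards [hΨa] with w hw
        rw [hw]
      have hΨN : ENNReal.ofReal ‖ind Z hNm Ψ‖ = ∫⁻ w in N, ‖ψ w‖ₑ := by
        rw [ind_no hNm h.kn.NZ]
        apply lintegral_congr_ae
        filter_upwards [ae_restrict_of_ae_restrict_of_subset h.kn.NZ hΨa] with w hw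
        rw [hw]
      have hC0 : (0 : ℝ) ≤ C1 := by linarith
      refine ⟨Ψ, fun j => t j, ?_, ?_, ?_, ?_⟩
      · intro h0
        apply hψ0
        rw [← hΨn, h0, norm_zero, ENNReal.ofReal_zero]
      · intro j
        have h1 := ht j (Nat.lt_succ_iff.1 j.2)
        rw [← hΨn, ← ENNReal.ofReal_mul hC0, ← ofReal_norm] at h1
        exact (ENNReal.ofReal_le_ofReal_iff (mul_nonneg hC0 (norm_nonneg _))).1 h1
      · have h1 := hψN
        rw [← hΨn, ← hΨN, ← ENNReal.ofReal_mul hC0] at h1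
        exact (ENNReal.ofReal_le_ofReal_iff (mul_nonneg hC0 (norm_nonneg _))).1 h1
      · have h1 := hψ
        rw [← hΨn, ← ENNReal.ofReal_mul (sq_nonneg _)] at h1
        refine (ENNReal.ofReal_le_ofReal_iff (mul_nonneg (sq_nonneg _) (norm_nonneg _))).1 (le_trans (le_of_eq ?_) h1)
        rw [n2]
        apply lintegral_congr_ae
        have hTΨ := hT Ψ ψ hψm hΨa
        have hsum : ((∑ j : Fin (D + 1), t j • (hφ j).toLp (φ j) : Lp ℂ 1 (volume.restrict Z)) : ℂ → ℂ)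
            =ᵐ[volume.restrict Z] fun w => ∑ j ∈ Finset.range (D + 1), t j * φ j w := by
          have e1 := Lp.coeFn_finsetSum (p := 1) (μ := volume.restrict Z) Finset.univ
            (fun j : Fin (D + 1) => t j • (hφ j).toLp (φ j))
          have e2 : ∀ᵐ w ∂(volume.restrict Z), ∀ j : Fin (D + 1),
              (t j • (hφ j).toLp (φ j) : Lp ℂ 1 (volume.restrict Z)) w = t j * φ j w := by
            rw [ae_all_iff]
            intro j
            filter_upwards [Lp.coeFn_smul (t j) ((hφ j).toLp (φ j)), (hφ j).coeFn_toLp] with w g1 g2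
            rw [g1, Pi.smul_apply, g2, smul_eq_mul]
          filter_upwards [e1, e2] with w g1 g2
          rw [g1, Finset.sum_range, Finset.sum_apply]
          exact Finset.sum_congr rfl fun j _ => g2 j
        filter_upwards [hΨa, hTΨ, hsum, Lp.coeFn_smul (s : ℂ) (T Ψ), Lp.coeFn_sub Ψ ((s : ℂ) • T Ψ),
          Lp.coeFn_smul (1 - s : ℂ) (∑ j : Fin (D + 1), t j • (hφ j).toLp (φ j) : Lp ℂ 1 (volume.restrict Z)),
          Lp.coeFn_sub (Ψ - (s : ℂ) • T Ψ)
            ((1 - s : ℂ) • ∑ j : Fin (D + 1), t j • (hφ j).toLp (φ j))] with w g1 g2 g3 g4 g5 g6 g7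
        rw [g7, Pi.sub_apply, g5, Pi.sub_apply, g1, g4, Pi.smul_apply, g2, g6, Pi.smul_apply, g3, smul_eq_mul, smul_eq_mul]
  obtain ⟨μ0, C2, hμm, hμb, hμl, hμi⟩ := inv_mu h.rt h.kn.Zm h.Zp hT hℓ
  refine ⟨B.indicator μ0, C2, hμm.indicator h.Bm, ?_, ?_, ?_, ?_⟩
  · intro z
    by_cases hz : z ∈ B
    · rw [indicator_of_mem hz]; exact hμb z
    · rw [indicator_of_notMem hz, norm_zero]
      exact le_trans (norm_nonneg _) (hμb z)
  · intro z hz
    exact indicator_of_notMem hz _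
  · filter_upwards [hμi] with z hz hb
    by_cases hzB : z ∈ B
    · have h1 : gg a b z ∈ B := (h.Bi z hb).2 hzB
      rw [indicator_of_mem hzB, indicator_of_mem h1]
      exact hz ⟨hb, h.BZ h1⟩
    · have h1 : gg a b z ∉ B := fun h2 => hzB ((h.Bi z hb).1 h2)
      rw [indicator_of_notMem hzB, indicator_of_notMem h1, zero_mul, zero_mul]
  · rw [pos_iff_ne_zero]
    intro h0
    apply hu
    rw [hμl]
    have h1 : ∀ᵐ z : ℂ, B.indicator μ0 z = 0 := by
      rw [ae_iff]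
      exact h0
    have h2 : (fun x => (ind Z h.Bm u : ℂ → ℂ) x * μ0 x) =ᵐ[volume.restrict Z] fun _ => (0 : ℂ) := by
      filter_upwards [ind_ae h.Bm u, ae_restrict_of_ae h1] with w g1 g2
      rw [g1]
      by_cases hw : w ∈ B
      · rw [indicator_of_mem hw] at g2 ⊢
        rw [g2, mul_zero]
      · rw [indicator_of_notMem hw, zero_mul]
    rw [integral_congr_ae h2]
    simp

end Pool.Agent.H31.LOC
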