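import Pool.Agent.H31.LOC.Gro

/-!
# [H31 LOC Noc] no close return is a contraction (G2)

`nocon`. PROOF. `ε = κ / 48`, `A ≥ 1` with `‖Dn f n (f s)‖ ≤ A exp (ε n)` for all `s ∈ S` (`S` finite), `t = exp ε`, `τ = exp (2 ε)`, `gro`: `K`. `ρ = exp (-κ L / 3)`: `K A^2 τ^(2 L) ρ = K A^2 exp (4 ε L - κ L / 3) ≤ 1` for large `L`. So for `z ∈ ball v ρ`, `n ≤ L`: `‖f^[n] z - x n‖ ≤ A τ^n ρ ≤ A exp (2 ε L - κ L / 3) < δ`; `F = f^[k]` is holomorphic on `ball v ρ` (composition, `fd`), `F' (v) = Dn f k v`, `‖F z - F v‖ ≤ Q = A exp (2 ε L) ρ`. Cauchy: `‖F z - F v - F'(v) (z - v)‖ ≤ 4 Q ‖z - v‖^2 / ρ^2`, `‖z - v‖ ≤ ρ / 2`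
(Schwarz lemma twice, `Complex.norm_dslope_le_div_of_mapsTo_ball`, or Cauchy estimates). For `‖z - v‖ < 4 ρ_L` (`≤ ρ / 2`): the error is at most `16 A exp (2 ε L) (ρ_L / ρ) ‖z - v‖`, `ρ_L / ρ = exp (-κ L / 6)`: at most `‖z - v‖ / 8`. If `‖F'(v)‖ ≤ 1/2`: `‖F z - v‖ ≤ ρ_L + (5/8) 4 ρ_L < 4 ρ_L`: `F` maps `ball v (4 ρ_L)` into itself. So for all `n = k j + i`, `i < k`: `f^[k j] z`, `f^[k j] v` are in this ball, and `‖f^[n] z - f^[n] v‖ ≤ 2 A τ^i 4 ρ_L < δ` (`gro` with `4 ρ_L`, `v = f c`). This contradicts `hex` (`y = v`, `ρ = 4 ρ_L`).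
-/

set_option autoImplicit false

open Filter Topology Polynomial Metric Set MeasureTheory

namespace Pool.Agent.H31.LOC

variable {f : ℂ → ℂ} {M S : Set ℂ} {δ B : ℝ}

theorem noc_ev {a c C : ℝ} (ha : 0 < a) (hc : 0 < c) : ∀ᶠ L : ℕ in atTop, C * Real.exp (-(a * L)) < c := by
  have h1 : Tendsto (fun L : ℕ => C * Real.exp (-(a * L))) atTop (𝓝 (C * 0)) :=
    Tendsto.const_mul C (Real.tendsto_exp_neg_atTop_nhds_zero.comp
      (tendsto_natCast_atTop_atTop.const_mul_atTop ha))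
  rw [mul_zero] at h1
  exact h1.eventually_lt_const hc

private theorem noc_quad {F : ℂ → ℂ} {v : ℂ} {R Q : ℝ} (hR : 0 < R) (hQ : 0 < Q) (hd : DifferentiableOn ℂ F (ball v R))
    (hm : ∀ z ∈ ball v R, ‖F z - F v‖ < Q) {z : ℂ} (hz : z ∈ ball v R) :
    ‖F z - F v - deriv F v * (z - v)‖ ≤ 3 * (Q / R) * ‖z - v‖ ^ 2 / R := by
  have hv : v ∈ ball v R := mem_ball_self hR
  have hmaps : MapsTo F (ball v R) (closedBall (F v) Q) := fun z hz => by
    rw [mem_closedBall, dist_eq_norm]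
    exact (hm z hz).le
  have h1 : ∀ z ∈ ball v R, ‖dslope F v z‖ ≤ Q / R := fun z hz =>
    Complex.norm_dslope_le_div_of_mapsTo_ball hd hmaps hz
  have hdd : DifferentiableOn ℂ (dslope F v) (ball v R) :=
    (Complex.differentiableOn_dslope (isOpen_ball.mem_nhds hv)).2 hd
  have hmaps2 : MapsTo (dslope F v) (ball v R) (closedBall (dslope F v v) (3 * (Q / R))) := by
    intro y hy
    rw [mem_closedBall, dist_eq_norm]
    calc ‖dslope F v y - dslope F v v‖ ≤ ‖dslope F v y‖ + ‖dslope F v v‖ := norm_sub_le _ _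
      _ ≤ Q / R + Q / R := add_le_add (h1 y hy) (h1 v hv)
      _ ≤ 3 * (Q / R) := by
        have := div_pos hQ hR
        linarith
  have h2 := Complex.norm_dslope_le_div_of_mapsTo_ball hdd hmaps2 hz
  have e1 : (z - v) * dslope F v z = F z - F v := by
    rw [← smul_eq_mul, sub_smul_dslope]
  have e2 : (z - v) * dslope (dslope F v) v z = dslope F v z - dslope F v v := by
    rw [← smul_eq_mul, sub_smul_dslope]
  have e3 : dslope F v v = deriv F v := dslope_same F v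
  have e4 : F z - F v - deriv F v * (z - v) = (z - v) ^ 2 * dslope (dslope F v) v z := by
    rw [← e3, ← e1]
    linear_combination (-(z - v)) * e2
  rw [e4, norm_mul, norm_pow]
  calc ‖z - v‖ ^ 2 * ‖dslope (dslope F v) v z‖ ≤ ‖z - v‖ ^ 2 * (3 * (Q / R) / R) := by gcongr
    _ = 3 * (Q / R) * ‖z - v‖ ^ 2 / R := by ring

theorem noc_orb (h : GS f M S δ B) {v : ℂ} (hv : v ∈ M) (k : ℕ) : f^[k] v ∈ M := by
  induction k with
  | zero => exact hv
  | succ k ih =>
    rw [Function.iterate_succ_apply']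
    exact h.inv _ ih

private theorem noc_diff (h : GS f M S δ B) {U : Set ℂ} {k : ℕ} (hk : ∀ j < k, ∀ z ∈ U, f^[j] z ∈ thickening δ M) :
    DifferentiableOn ℂ (f^[k]) U := by
  induction k with
  | zero => exact differentiableOn_id
  | succ k ih =>
    rw [Function.iterate_succ']
    exact h.fd.comp (ih fun j hj => hk j (hj.trans (Nat.lt_succ_self k))) fun z hz => hk k (Nat.lt_succ_self k) z hz

private theorem noc_deriv (h : GS f M S δ B) {v : ℂ} (hv : v ∈ M) (k : ℕ) : HasDerivAt (f^[k]) (Dn f k v) v := by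
  induction k with
  | zero => simpa [Dn] using hasDerivAt_id v
  | succ k ih =>
    have h2 : DifferentiableAt ℂ f (f^[k] v) :=
      h.fd.differentiableAt (isOpen_thickening.mem_nhds (self_subset_thickening h.hδ M (noc_orb h hv k)))
    have h3 := h2.hasDerivAt.comp v ih
    rw [Function.iterate_succ']
    have h4 : Dn f (k + 1) v = deriv f (f^[k] v) * Dn f k v := by
      rw [Dn, Finset.prod_range_succ, mul_comm]
      rfl
    rw [h4]
    exact h3

theorem nocon (hg : GS f M S δ B) (hSf : S.Finite)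
    (hex : ∀ y ∈ M, ∀ ρ : ℝ, 0 < ρ → ∃ (n : ℕ) (z : ℂ), ‖z - y‖ < ρ ∧ δ ≤ ‖f^[n] z - f^[n] y‖)
    (hue : ∀ s ∈ S, ∀ ε : ℝ, 0 < ε → ∃ A : ℝ, ∀ n : ℕ, ‖Dn f n (f s)‖ ≤ A * Real.exp (ε * n)) {c : ℂ} (hc : c ∈ S)
    {κ : ℝ} (hκ : 0 < κ) : ∀ᶠ L : ℕ in atTop, ∀ k : ℕ, 1 ≤ k → k ≤ L →
      ‖f^[k] (f c) - f c‖ < Real.exp (-(κ * L / 2)) → 1 / 2 < ‖Dn f k (f c)‖ := by
  obtain ⟨A, hA1, hA⟩ : ∃ A : ℝ, 1 ≤ A ∧ ∀ s ∈ S, ∀ n : ℕ, ‖Dn f n (f s)‖ ≤ A * (Real.exp (κ / 48)) ^ n := by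
    choose! a ha using fun s (hs : s ∈ S) => hue s hs (κ / 48) (by positivity)
    obtain ⟨A, hA⟩ := (hSf.image a).bddAbove
    refine ⟨max A 1, le_max_right _ _, fun s hs n => (ha s hs n).trans ?_⟩
    rw [← Real.exp_nat_mul, mul_comm (n : ℝ)]
    exact mul_le_mul_of_nonneg_right ((hA (mem_image_of_mem a hs)).trans (le_max_left _ _)) (Real.exp_pos _).le
  have hA0 : 0 < A := lt_of_lt_of_le one_pos hA1
  obtain ⟨K, hK1, hK⟩ := gro hg (Real.exp_pos (κ / 48)) (Real.exp_lt_exp.2 (by linarith : κ / 48 < κ / 24))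
  have hcM : c ∈ M := hg.SM hc
  have hvM : f c ∈ M := hg.inv c hcM
  have hδ := hg.hδ
  filter_upwards [noc_ev (a := κ / 4) (c := 1) (C := K * A ^ 2) (by positivity) one_pos,
    noc_ev (a := 7 * κ / 24) (c := δ / 4) (C := A) (by positivity) (by positivity),
    noc_ev (a := κ / 8) (c := 1 / 8) (C := 24 * A) (by positivity) (by norm_num),
    noc_ev (a := κ / 6) (c := 1) (C := 4) (by positivity) one_pos] with L e1 e2 e3 e4
  intro k hk1 hkL hret
  by_contra hcon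
  rw [not_lt] at hcon
  have hL0 : (0 : ℝ) ≤ L := Nat.cast_nonneg L
  obtain ⟨v, hv⟩ : ∃ v, v = f c := ⟨_, rfl⟩
  obtain ⟨ρL, hρL⟩ : ∃ x, x = Real.exp (-(κ * L / 2)) := ⟨_, rfl⟩
  obtain ⟨R, hR⟩ : ∃ x, x = Real.exp (-(κ * L / 3)) := ⟨_, rfl⟩
  rw [← hv] at hvM hcon hret
  rw [← hρL] at hret
  have hρ0 : 0 < ρL := by
    rw [hρL]
    exact Real.exp_pos _
  have hR0 : 0 < R := by
    rw [hR]
    exact Real.exp_pos _
  have hρR : ρL = Real.exp (-(κ / 6 * L)) * R := by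
    rw [hρL, hR, ← Real.exp_add]
    congr 1
    ring
  have h4R : 4 * ρL ≤ R := by
    rw [hρR]
    nlinarith
  -- growth on the ball of radius R
  have hgrow : ∀ n ≤ L, ∀ z ∈ ball v R, ‖f^[n] z - f^[n] v‖ ≤ A * Real.exp (κ / 24) ^ n * R := by
    intro n hn z hz
    rw [hv] at hz ⊢
    rw [mem_ball, dist_eq_norm] at hz
    refine hK A hA1 L (fun s hs n _ => hA s hs n) n R hn hR0 ?_ c hc z hz
    intro m hm
    have h1 : Real.exp (κ / 24) ^ m ≤ Real.exp (κ / 12 * L) := by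
      rw [← Real.exp_nat_mul]
      refine Real.exp_le_exp.2 ?_
      have : (m : ℝ) ≤ 2 * L := by exact_mod_cast hm
      nlinarith
    calc K * A ^ 2 * Real.exp (κ / 24) ^ m * R ≤ K * A ^ 2 * Real.exp (κ / 12 * L) * R := by
          have : 0 ≤ K * A ^ 2 := by positivity
          gcongr
      _ = K * A ^ 2 * Real.exp (-(κ / 4 * L)) := by
          rw [hR, mul_assoc, ← Real.exp_add]
          congr 2
          ring
      _ ≤ 1 := e1.le
  have hexpL : ∀ n ≤ L, Real.exp (κ / 24) ^ n ≤ Real.exp (κ / 24 * L) := by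
    intro n hn
    rw [← Real.exp_nat_mul]
    refine Real.exp_le_exp.2 ?_
    have : (n : ℝ) ≤ L := by exact_mod_cast hn
    nlinarith
  have hsmall : ∀ n ≤ L, ∀ z ∈ ball v R, ‖f^[n] z - f^[n] v‖ < δ / 4 := by
    intro n hn z hz
    calc ‖f^[n] z - f^[n] v‖ ≤ A * Real.exp (κ / 24) ^ n * R := hgrow n hn z hz
      _ ≤ A * Real.exp (κ / 24 * L) * R := by
          have := hexpL n hn
          gcongr
      _ = A * Real.exp (-(7 * κ / 24 * L)) := by
          rw [hR, mul_assoc, ← Real.exp_add]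
          congr 2
          ring
      _ < δ / 4 := e2
  have hd : DifferentiableOn ℂ (f^[k]) (ball v R) := by
    refine noc_diff hg fun j hj z hz => ?_
    rw [mem_thickening_iff]
    refine ⟨f^[j] v, noc_orb hg hvM j, ?_⟩
    rw [dist_eq_norm]
    have := hsmall j (hj.le.trans hkL) z hz
    linarith
  have hD : deriv (f^[k]) v = Dn f k v := (noc_deriv hg hvM k).deriv
  have hexp0 : 0 < Real.exp (κ / 24 * L) := Real.exp_pos _
  -- the quadratic estimate
  have hq : ∀ z ∈ ball v (4 * ρL), ‖f^[k] z - f^[k] v - Dn f k v * (z - v)‖ ≤ 1 / 8 * ‖z - v‖ := by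
    intro z hz
    have hzR : z ∈ ball v R := ball_subset_ball h4R hz
    have h1 := noc_quad (F := f^[k]) (v := v) (R := R) (Q := 2 * A * Real.exp (κ / 24 * L) * R) hR0 (by positivity) hd ?_ hzR
    · rw [hD] at h1
      refine h1.trans ?_
      rw [mem_ball, dist_eq_norm] at hz
      have h2 : 3 * (2 * A * Real.exp (κ / 24 * L) * R / R) * ‖z - v‖ ^ 2 / R =
          6 * A * Real.exp (κ / 24 * L) * (‖z - v‖ / R) * ‖z - v‖ := by
        field_simp
        ring
      have h3 : ‖z - v‖ / R ≤ 4 * Real.exp (-(κ / 6 * L)) := by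
        rw [div_le_iff₀ hR0]
        calc ‖z - v‖ ≤ 4 * ρL := hz.le
          _ = 4 * Real.exp (-(κ / 6 * L)) * R := by rw [hρR]; ring
      rw [h2]
      refine mul_le_mul_of_nonneg_right ?_ (norm_nonneg _)
      calc 6 * A * Real.exp (κ / 24 * L) * (‖z - v‖ / R)
          ≤ 6 * A * Real.exp (κ / 24 * L) * (4 * Real.exp (-(κ / 6 * L))) := by gcongr
        _ = 24 * A * Real.exp (-(κ / 8 * L)) := by
            have : Real.exp (-(κ / 8 * L)) = Real.exp (κ / 24 * L) * Real.exp (-(κ / 6 * L)) := by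
              rw [← Real.exp_add]
              congr 1
              ring
            rw [this]
            ring
        _ ≤ 1 / 8 := e3.le
    · intro y hy
      refine (hgrow k hkL y hy).trans_lt ?_
      have h5 := hexpL k hkL
      have h6 : 0 < A * Real.exp (κ / 24 * L) * R := by positivity
      calc A * Real.exp (κ / 24) ^ k * R ≤ A * Real.exp (κ / 24 * L) * R := by gcongr
        _ < 2 * A * Real.exp (κ / 24 * L) * R := by linarith
  -- the ball is mapped into itself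
  have hself : ∀ z ∈ ball v (4 * ρL), f^[k] z ∈ ball v (4 * ρL) := by
    intro z hz
    have h1 := hq z hz
    rw [mem_ball, dist_eq_norm] at hz ⊢
    have h2 : f^[k] z - v = (f^[k] z - f^[k] v - Dn f k v * (z - v)) + Dn f k v * (z - v) + (f^[k] v - v) := by ring
    have h3 : ‖Dn f k v * (z - v)‖ ≤ 1 / 2 * ‖z - v‖ := by
      rw [norm_mul]
      exact mul_le_mul_of_nonneg_right hcon (norm_nonneg _)
    rw [h2]
    calc ‖(f^[k] z - f^[k] v - Dn f k v * (z - v)) + Dn f k v * (z - v) + (f^[k] v - v)‖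
        ≤ ‖f^[k] z - f^[k] v - Dn f k v * (z - v)‖ + ‖Dn f k v * (z - v)‖ + ‖f^[k] v - v‖ := norm_add₃_le
      _ < 4 * ρL := by linarith
  have hselfj : ∀ (j : ℕ), ∀ z ∈ ball v (4 * ρL), f^[k * j] z ∈ ball v (4 * ρL) := by
    intro j
    induction j with
    | zero =>
      intro z hz
      rw [mul_zero]
      exact hz
    | succ j ih =>
      intro z hz
      rw [Nat.mul_succ, Nat.add_comm, Function.iterate_add_apply]
      exact hself _ (ih z hz)
  obtain ⟨n, z, hz, hδn⟩ := hex v hvM (4 * ρL) (by positivity)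
  have hzb : z ∈ ball v (4 * ρL) := by
    rw [mem_ball, dist_eq_norm]
    exact hz
  have hvb : v ∈ ball v (4 * ρL) := mem_ball_self (by positivity)
  have hi : n % k ≤ L := (Nat.mod_lt n hk1).le.trans hkL
  have hn : ∀ y : ℂ, f^[n] y = f^[n % k] (f^[k * (n / k)] y) := by
    intro y
    rw [← Function.iterate_add_apply, Nat.mod_add_div]
  have h1 := hsmall (n % k) hi _ (ball_subset_ball h4R (hselfj (n / k) z hzb))
  have h2 := hsmall (n % k) hi _ (ball_subset_ball h4R (hselfj (n / k) v hvb))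
  rw [← hn] at h1 h2
  have h3 : f^[n] z - f^[n] v = (f^[n] z - f^[n % k] v) - (f^[n] v - f^[n % k] v) := by ring
  have h4 : ‖f^[n] z - f^[n] v‖ ≤ ‖f^[n] z - f^[n % k] v‖ + ‖f^[n] v - f^[n % k] v‖ := by
    rw [h3]
    exact norm_sub_le _ _
  linarith

end Pool.Agent.H31.LOC
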