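import Pool.Agent.H31.LOC.Cut
import Pool.Agent.H31.LOC.Noc

/-!
# [H31 LOC Low] lower bounds for the sums of kernels (G2)

`low`. PROOF. `v = f c`, `x k = f^[k] v ∈ M`, `A k = σ^k (Dn f k v)⁻¹`, `A 0 = 1`. Let `β, C1, r1` be as in `tst`; `ρ_L = exp (-κ L / 2)`. If `∫_N ‖Ph‖ < exp (-κ L)` then `|∑_(k ≤ L) A k β ((x k - v) / ρ_L)| ≤ C1 exp (-κ L / 2)`, so `∑_(1 ≤ k ≤ L, ‖x k - v‖ < ρ_L) ‖A k‖ ≥ 1 - C1 exp (-κ L / 2) ≥ 1/2`.
CLAIM (`nocon`): for large `L`, `1 ≤ k ≤ L`, `‖x k - v‖ < ρ_L`: `‖Dn f k v‖ > 1/2`. So these `‖A k‖ ≤ 2 σ^k` and the sum is at most `2 σ^(k1) / (1 - σ)`, where `k1` = the first `k ≥ 1` with `‖x k - v‖ < ρ_L` tends to infinity with `L` (`hnp`: `x k ≠ v`, finitely many `k ≤ K` have positive distance): contradiction for large `L`.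
`nocon`: see Noc.
-/

set_option autoImplicit false

open Filter Topology Polynomial Metric Set MeasureTheory

namespace Pool.Agent.H31.LOC

variable {f : ℂ → ℂ} {M S : Set ℂ} {δ B : ℝ} {q r : ℂ → ℂ → ℂ} {N Z : Set ℂ} {C : ℝ}

theorem low (h : KN q r M N Z C) (hg : GS f M S δ B) (hSf : S.Finite)
    (hex : ∀ y ∈ M, ∀ ρ : ℝ, 0 < ρ → ∃ (n : ℕ) (z : ℂ), ‖z - y‖ < ρ ∧ δ ≤ ‖f^[n] z - f^[n] y‖)
    (hue : ∀ s ∈ S, ∀ ε : ℝ, 0 < ε → ∃ A : ℝ, ∀ n : ℕ, ‖Dn f n (f s)‖ ≤ A * Real.exp (ε * n)) {c : ℂ} (hc : c ∈ S)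
    (hnp : ∀ n : ℕ, 0 < n → f^[n] (f c) ≠ f c) {σ κ : ℝ} (hσ0 : 0 < σ) (hσ1 : σ < 1) (hκ : 0 < κ) :
    ∀ᶠ L : ℕ in atTop, ENNReal.ofReal (Real.exp (-(κ * L))) ≤ ∫⁻ w in N,
      ‖Ph q (L + 1) (fun k => (σ : ℂ) ^ k * (Dn f k (f c))⁻¹) (fun k => f^[k] (f c)) w‖ₑ := by
  obtain ⟨β, C1, r1, hC1, hr1, hβ0, hβn, hβ1, hβz, hβ⟩ := tst h
  have hvM : f c ∈ M := hg.inv c (hg.SM hc)
  -- the tail of the geometric series
  obtain ⟨k1, hk1⟩ : ∃ k1 : ℕ, 2 * (σ ^ k1 / (1 - σ)) < 1 / 2 := by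
    have h1 : Tendsto (fun n : ℕ => 2 * (σ ^ n / (1 - σ))) atTop (𝓝 (2 * (0 / (1 - σ)))) :=
      ((tendsto_pow_atTop_nhds_zero_of_lt_one hσ0.le hσ1).div_const _).const_mul 2
    rw [zero_div, mul_zero] at h1
    exact (h1.eventually_lt_const (by norm_num : (0 : ℝ) < 1 / 2)).exists
  have hfar : ∀ᶠ L : ℕ in atTop, ∀ k ∈ Finset.range (k1 + 1), 1 ≤ k → Real.exp (-(κ * L / 2)) < ‖f^[k] (f c) - f c‖ := by
    rw [Filter.eventually_all_finset]
    intro k _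
    by_cases hk : 1 ≤ k
    · have hpos : 0 < ‖f^[k] (f c) - f c‖ := norm_pos_iff.2 (sub_ne_zero.2 (hnp k hk))
      filter_upwards [noc_ev (a := κ / 2) (C := 1) (by positivity) hpos] with L hL _
      rw [one_mul] at hL
      rw [show κ * (L : ℝ) / 2 = κ / 2 * L by ring]
      exact hL
    · exact Eventually.of_forall fun L hk' => absurd hk' hk
  filter_upwards [nocon hg hSf hex hue hc hκ, hfar, noc_ev (a := κ / 2) (C := C1) (by positivity) (by norm_num : (0 : ℝ) < 1 / 4),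
    noc_ev (a := κ / 2) (C := 1) (by positivity) hr1] with L hnc hfL e1 e2
  by_contra hcon
  rw [not_le] at hcon
  obtain ⟨ρ, hρ⟩ : ∃ x, x = Real.exp (-(κ * L / 2)) := ⟨_, rfl⟩
  have hρ0 : 0 < ρ := by
    rw [hρ]
    exact Real.exp_pos _
  have hρe : Real.exp (-(κ / 2 * L)) = ρ := by
    rw [hρ]
    congr 1
    ring
  have hρr : ρ ≤ r1 := by
    rw [one_mul, hρe] at e2
    exact e2.le
  rw [hρe] at e1
  have h1 := hβ (L + 1) (fun k => (σ : ℂ) ^ k * (Dn f k (f c))⁻¹) (fun k => f^[k] (f c)) (fun k _ => noc_orb hg hvM k)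
    (f c) hvM ρ hρ0 hρr
  have h2 : ‖∑ k ∈ Finset.range (L + 1), (σ : ℂ) ^ k * (Dn f k (f c))⁻¹ * (β ((f^[k] (f c) - f c) / ρ) : ℂ)‖ ≤ 1 / 4 := by
    have h3 : ‖∑ k ∈ Finset.range (L + 1), (σ : ℂ) ^ k * (Dn f k (f c))⁻¹ * (β ((f^[k] (f c) - f c) / ρ) : ℂ)‖ₑ ≤
        ENNReal.ofReal (C1 * ρ) := by
      refine h1.trans ?_
      calc ENNReal.ofReal (C1 / ρ) * ∫⁻ w in N, ‖Ph q (L + 1) (fun k => (σ : ℂ) ^ k * (Dn f k (f c))⁻¹) (fun k => f^[k] (f c)) w‖ₑ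
          ≤ ENNReal.ofReal (C1 / ρ) * ENNReal.ofReal (Real.exp (-(κ * L))) := by gcongr
        _ = ENNReal.ofReal (C1 * ρ) := by
            rw [← ENNReal.ofReal_mul (by positivity)]
            congr 1
            have h4 : Real.exp (-(κ * L)) = ρ * ρ := by
              rw [hρ, ← Real.exp_add]
              congr 1
              ring
            rw [h4]
            field_simp
    rw [← ofReal_norm, ENNReal.ofReal_le_ofReal_iff (by positivity)] at h3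
    exact h3.trans e1.le
  -- the returning terms are small
  have h3 : ∀ k ∈ Finset.range L, ‖(σ : ℂ) ^ (k + 1) * (Dn f (k + 1) (f c))⁻¹ * (β ((f^[k + 1] (f c) - f c) / ρ) : ℂ)‖ ≤
      if k1 ≤ k then 2 * σ ^ k else 0 := by
    intro k hk
    have hkL : k + 1 ≤ L := Finset.mem_range.1 hk
    by_cases hret : ‖f^[k + 1] (f c) - f c‖ < ρ
    · have hk1' : k1 ≤ k := by
        by_contra hlt
        rw [not_le] at hlt
        have h4 := hfL (k + 1) (Finset.mem_range.2 (by omega)) (by omega)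
        rw [← hρ] at h4
        linarith
      rw [if_pos hk1']
      have h5 : 1 / 2 < ‖Dn f (k + 1) (f c)‖ := hnc (k + 1) (by omega) hkL (by rw [← hρ]; exact hret)
      have h6 : ‖(Dn f (k + 1) (f c))⁻¹‖ ≤ 2 := by
        rw [norm_inv, inv_le_comm₀ (by linarith) (by norm_num)]
        linarith
      have h7 : ‖(β ((f^[k + 1] (f c) - f c) / ρ) : ℂ)‖ ≤ 1 := by
        rw [Complex.norm_real, Real.norm_eq_abs, abs_of_nonneg (hβn _)]
        exact hβ1 _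
      have h8 : ‖(σ : ℂ) ^ (k + 1)‖ = σ ^ (k + 1) := by
        rw [norm_pow, Complex.norm_real, Real.norm_eq_abs, abs_of_pos hσ0]
      rw [norm_mul, norm_mul, h8]
      have h9 : σ ^ (k + 1) ≤ σ ^ k := pow_le_pow_of_le_one hσ0.le hσ1.le (Nat.le_succ k)
      have h10 : 0 < σ ^ (k + 1) := by positivity
      calc σ ^ (k + 1) * ‖(Dn f (k + 1) (f c))⁻¹‖ * ‖(β ((f^[k + 1] (f c) - f c) / ρ) : ℂ)‖
          ≤ σ ^ (k + 1) * 2 * 1 := by gcongr
        _ ≤ 2 * σ ^ k := by linarith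
    · have h4 : β ((f^[k + 1] (f c) - f c) / ρ) = 0 := by
        refine hβz _ ?_
        rw [norm_div, Complex.norm_real, Real.norm_eq_abs, abs_of_pos hρ0, le_div_iff₀ hρ0, one_mul]
        exact not_lt.1 hret
      rw [h4, Complex.ofReal_zero, mul_zero, norm_zero]
      split_ifs
      · positivity
      · exact le_rfl
  have h4 : ‖∑ k ∈ Finset.range L, (σ : ℂ) ^ (k + 1) * (Dn f (k + 1) (f c))⁻¹ * (β ((f^[k + 1] (f c) - f c) / ρ) : ℂ)‖ <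
      1 / 2 := by
    refine lt_of_le_of_lt ((norm_sum_le _ _).trans (Finset.sum_le_sum h3)) ?_
    rw [← Finset.sum_filter, ← Finset.mul_sum]
    have h5 : ∑ k ∈ (Finset.range L).filter (fun k => k1 ≤ k), σ ^ k ≤ σ ^ k1 / (1 - σ) := by
      have h6 : (Finset.range L).filter (fun k => k1 ≤ k) = Finset.Ico k1 L := by
        ext k
        simp only [Finset.mem_filter, Finset.mem_range, Finset.mem_Ico]
        tauto
      rw [h6]
      exact geom_sum_Ico_le_of_lt_one hσ0.le hσ1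
    linarith
  have h5 : ∑ k ∈ Finset.range (L + 1), (σ : ℂ) ^ k * (Dn f k (f c))⁻¹ * (β ((f^[k] (f c) - f c) / ρ) : ℂ) =
      (∑ k ∈ Finset.range L, (σ : ℂ) ^ (k + 1) * (Dn f (k + 1) (f c))⁻¹ * (β ((f^[k + 1] (f c) - f c) / ρ) : ℂ)) + 1 := by
    rw [Finset.sum_range_succ']
    congr 1
    rw [pow_zero, one_mul, Function.iterate_zero_apply, sub_self, zero_div, hβ0, Dn, Finset.prod_range_zero, inv_one,
      Complex.ofReal_one, mul_one]
  rw [h5] at h2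
  have h7 := norm_sub_le ((∑ k ∈ Finset.range L, (σ : ℂ) ^ (k + 1) * (Dn f (k + 1) (f c))⁻¹ *
      (β ((f^[k + 1] (f c) - f c) / ρ) : ℂ)) + 1) (∑ k ∈ Finset.range L, (σ : ℂ) ^ (k + 1) * (Dn f (k + 1) (f c))⁻¹ *
      (β ((f^[k + 1] (f c) - f c) / ρ) : ℂ))
  rw [add_sub_cancel_left, norm_one] at h7
  linarith

end Pool.Agent.H31.LOC
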