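import Pool.Agent.H31.LOC.Nrp
import Pool.Agent.H27.BR.PSG
import Pool.Agent.H31.UDC.Cdx
import Pool.Agent.H56.END.Ch

/-!
# no critical relations, Julia set not the sphere

`ncr_cd`: a map with a chart `CD`: no iterate of a Julia critical value is a critical point, and no Julia critical value is periodic. `ncr_fam`: the families.
-/

set_option autoImplicit false

open Filter Topology Polynomial Metric Set MeasureTheory

namespace Pool.Agent.H31.LOC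

open Pool.Agent.H44.Fatou (rat rat_continuous rat_coe rat_coe_of_ne pt crit_coe)
open Pool.Agent.H56.HR (FS EqAt)
open Pool.Agent.H32.BT Pool.Agent.H79.Eul Pool.Agent.H79.Par
open Pool.Agent.H35.EX Pool.Agent.H44.RR Pool.Agent.H44.RC Pool.Agent.H47.RJ
open Pool.Agent.H47.NN Pool.Agent.H44.ND Pool.Agent.H79.ES Pool.Agent.H44.TH
open Pool.Agent.H64.NC Pool.Agent.H61.TT Pool.Agent.H57.CP Pool.Agent.H3.NC
open Pool.Agent.H57.CF Pool.Agent.H47.NM
open Pool.Agent.H18.UP (PJ Cr NJ ZV US0 US VP us0)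
open Pool.Agent.H27.BR (CD)
open Pool.Agent.H83.UP (vp_ga)

theorem ncr_cd {d : ℕ} {v u : E d} {φ : OnePoint ℂ ≃ₜ OnePoint ℂ} {K : ℝ} {T : Set (OnePoint ℂ)} {D : ℕ} (h : CD v u φ K T D)
    {c : OnePoint ℂ} (hc : IsCrit (Rf v) c) (hcJ : c ∈ JS (Rf v)) :
    (∀ n : ℕ, ¬ IsCrit (Rf v) ((Rf v)^[n] (Rf v c))) ∧ ∀ n : ℕ, 0 < n → (Rf v)^[n] (Rf v c) ≠ Rf v c := by
  have h1 : φ c ∈ JS (Rf u) := (js_conj φ (fun y => (h.conj y).symm) c).2 hcJ
  have h2 : φ c ≠ OnePoint.infty := fun h3 => (h3 ▸ h1 : OnePoint.infty ∈ JS (Rf u)) h.ga.fi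
  obtain ⟨z, hz⟩ := OnePoint.ne_infty_iff_exists.1 h2
  have hzJ : z ∈ JC u := by
    show (z : OnePoint ℂ) ∈ JS (Rf u)
    rw [hz]
    exact h1
  have hcz : IsCrit (Rf u) (z : OnePoint ℂ) := by
    rw [hz]
    exact (isCrit_conj φ h.conj c).2 hc
  obtain ⟨δ1, R0, hU⟩ := us0 h.ga h.hD h.wd hcz hzJ h.lg
  obtain ⟨C0, X, hV⟩ := vp_ga h.ga hU h.mot
  obtain ⟨h3, h4⟩ := nr_p hU hV hzJ (crit_coe hcz)
  -- the orbit in the chart
  have hJi : ∀ w ∈ JC u, Rf u (w : OnePoint ℂ) = ((Pool.Agent.H61.TT.gg (pol u.1) (pol u.2) w : ℂ) : OnePoint ℂ) :=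
    fun w hw => rat_coe_of_ne (h.ga.bne hw)
  have hJg : ∀ w ∈ JC u, Pool.Agent.H61.TT.gg (pol u.1) (pol u.2) w ∈ JC u := by
    intro w hw
    have h5 := h.ga.js 1 hw
    rw [Function.iterate_one, hJi w hw] at h5
    exact h5
  have hit : ∀ n : ℕ, (Pool.Agent.H61.TT.gg (pol u.1) (pol u.2))^[n] (Pool.Agent.H61.TT.gg (pol u.1) (pol u.2) z) ∈ JC u ∧
      φ ((Rf v)^[n] (Rf v c)) =
        (((Pool.Agent.H61.TT.gg (pol u.1) (pol u.2))^[n] (Pool.Agent.H61.TT.gg (pol u.1) (pol u.2) z) : ℂ) : OnePoint ℂ) := by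
    intro n
    induction n with
    | zero =>
      refine ⟨hJg z hzJ, ?_⟩
      show φ (Rf v c) = _
      rw [← h.conj, ← hz, hJi z hzJ]
      rfl
    | succ n ih =>
      refine ⟨?_, ?_⟩
      · rw [Function.iterate_succ_apply']
        exact hJg _ ih.1
      · rw [Function.iterate_succ_apply', ← h.conj, ih.2, hJi _ ih.1, ← Function.iterate_succ_apply' (f := Pool.Agent.H61.TT.gg (pol u.1) (pol u.2))]
  refine ⟨fun n hn => ?_, fun n hn hp => ?_⟩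
  · have h5 : IsCrit (Rf u) (φ ((Rf v)^[n] (Rf v c))) := (isCrit_conj φ h.conj _).2 hn
    rw [(hit n).2] at h5
    have h6 : (ww (pol u.1) (pol u.2)).eval ((Pool.Agent.H61.TT.gg (pol u.1) (pol u.2))^[n]
        (Pool.Agent.H61.TT.gg (pol u.1) (pol u.2) z)) = 0 := crit_coe h5
    refine h3 n ?_
    unfold dg
    rw [h6, zero_div]
  · have h5 := (hit n).2
    rw [hp] at h5
    have h6 := (hit 0).2
    rw [Function.iterate_zero, id, Function.iterate_zero, id] at h6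
    rw [h6] at h5
    exact h4 n hn (OnePoint.coe_injective h5).symm

theorem ncr_fam {d m : ℕ} (hd : 2 ≤ d) (hm : m ≤ d) {x : Em d m} (hcop : IsCoprime (pol x.1) (pol x.2))
    (hdeg : max (pol x.1).natDegree (pol x.2).natDegree = d) (hup : ¬ UpF d m x)
    (hF : (FS (Rf (ex d m x))).Nonempty) {c : OnePoint ℂ} (hc : IsCrit (Rf (ex d m x)) c)
    (hcJ : c ∈ JS (Rf (ex d m x))) :
    (∀ n : ℕ, ¬ IsCrit (Rf (ex d m x)) ((Rf (ex d m x))^[n] (Rf (ex d m x) c))) ∧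
      ∀ n : ℕ, 0 < n → (Rf (ex d m x))^[n] (Rf (ex d m x) c) ≠ Rf (ex d m x) c := by
  obtain ⟨D, u, φ, K, T, hCD, -⟩ := Pool.Agent.H31.UDC.cdx hd hm hcop hdeg hup hF
  exact ncr_cd hCD hc hcJ

end Pool.Agent.H31.LOC
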