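import Pool.Agent.H31.LOC.Defs
import Pool.Agent.H71.Top.Transform

/-!
# [H31 LOC Rep] test functions against sums of kernels

`rep`. PROOF. One term: `x ∈ M`, claim `ψ x = -(1 / π) ∫ dbar1 ψ y * q x y`. On `N`, `y ≠ x`: `q x y = 1 / (y - x) + r x y`; off `N` `dbar1 ψ = 0` (`tsupport ψ ⊆ N`). (1) `∫ dbar1 ψ y / (y - x) = -π ψ x`: `pompeiu` (H71/Top/Pompeiu) for `y ↦ ψ (y + x)` and translation
(as `hcp` in the proof of `phi_tot`, H31/PP/Fun; the private lemmas `db_hol`, `db_mul`, `db_off` there may be copied). (2) `∫ dbar1 ψ y * r x y = 0`: `v y = ψ y * (r x y * (y - x))` is `C^1` with compact support (`r x` is holomorphic on `N ⊇ tsupport ψ`, `0` off `tsupport ψ`), `dbar1 v = dbar1 ψ * r x * (y - x)`, so (1) for `v`: `∫ dbar1 ψ y * r x y = -π v x = 0`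
(a.e. `y ≠ x`). Integrability: `dbar1 ψ` is continuous with compact support (bounded), `1 / (y - x)` is locally integrable, `r x` is bounded on `N`.
`rep_le`: `‖∑ A k ψ (x k)‖ ≤ (1 / π) ∫_N ‖dbar1 ψ‖ ‖Ph‖ ≤ B ∫_N ‖Ph‖`.
`cut_ex`: a cut-off function. Mathlib: `exists_contDiff_tsupport_subset` is for points; for compact sets `exists_contMDiff_support..`, or `exists_smooth_zero_one_of_isClosed` / `exists_contMDiff_zero_iff_one_iff_of_isClosed` (`𝓘(ℝ, ℂ)`, `contMDiff_iff_contDiff`); or a finite sum of bumps composed with a smooth step (`Real.smoothTransition`). To have `χ = 1` on a neighbourhood of `M` take a closed neighbourhood.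
-/

set_option autoImplicit false

open Filter Topology Polynomial Metric Set MeasureTheory

namespace Pool.Agent.H31.LOC

open Pool.Agent.H71.Top (dbar1 pompeiu)

variable {q r : ℂ → ℂ → ℂ} {M N Z : Set ℂ} {C : ℝ}

private theorem db_cont {g : ℂ → ℂ} (hg : ContDiff ℝ 1 g) : Continuous (dbar1 g) := by
  have h1 : Continuous (fderiv ℝ g) := hg.continuous_fderiv one_ne_zero
  unfold dbar1
  exact continuous_const.mul ((h1.clm_apply continuous_const).add
    (continuous_const.mul (h1.clm_apply continuous_const)))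

private theorem db_of_fderiv {g : ℂ → ℂ} {y : ℂ} (h : fderiv ℝ g y = 0) : dbar1 g y = 0 := by
  unfold dbar1
  rw [h]
  simp

private theorem db_off {g : ℂ → ℂ} {y : ℂ} (h : y ∉ tsupport g) : dbar1 g y = 0 := by
  apply db_of_fderiv
  rw [notMem_tsupport_iff_eventuallyEq] at h
  rw [h.fderiv_eq]
  exact fderiv_const_apply 0

private theorem db_cs {g : ℂ → ℂ} (hcs : HasCompactSupport g) : HasCompactSupport (dbar1 g) :=
  HasCompactSupport.intro hcs.isCompact fun _ hy => db_off hy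

private theorem inv_li (x : ℂ) {K : Set ℂ} (hK : IsCompact K) : IntegrableOn (fun w : ℂ => (w - x)⁻¹) K := by
  have h1 : LocallyIntegrable (fun w : ℂ => w⁻¹) := Pool.Agent.H71.Top.locallyIntegrable_inv
  have hK' : IsCompact ((fun w : ℂ => w - x) '' K) := hK.image (continuous_id.sub continuous_const)
  have h2 := h1.integrableOn_isCompact hK'
  have h3 : MeasurePreserving (fun w : ℂ => w - x) volume volume := measurePreserving_sub_right volume x
  have h4 : MeasurableEmbedding (fun w : ℂ => w - x) := (MeasurableEquiv.subRight x).measurableEmbedding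
  have h5 := (h3.integrableOn_comp_preimage h4 (f := fun w : ℂ => w⁻¹) (s := (fun w : ℂ => w - x) '' K)).2 h2
  refine h5.mono_set fun w hw => ?_
  exact mem_image_of_mem _ hw

private theorem int_one {g : ℂ → ℂ} (hg : ContDiff ℝ 1 g) (hc : HasCompactSupport g) (x : ℂ) :
    Integrable (fun w => dbar1 g w * (w - x)⁻¹) := by
  have h1 := db_cont hg
  have h2 := db_cs hc
  have hK : IsCompact (tsupport (dbar1 g)) := h2
  have h3 : IntegrableOn (fun w => dbar1 g w * (w - x)⁻¹) (tsupport (dbar1 g)) :=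
    (inv_li x hK).continuousOn_mul h1.continuousOn hK
  refine (integrableOn_iff_integrable_of_support_subset fun w hw => ?_).1 h3
  rw [Function.mem_support] at hw
  by_contra hcon
  exact hw (by rw [image_eq_zero_of_notMem_tsupport hcon, zero_mul])

private theorem pomp {g : ℂ → ℂ} (hg : ContDiff ℝ 1 g) (hc : HasCompactSupport g) (x : ℂ) :
    ∫ w, dbar1 g w * (w - x)⁻¹ = -Real.pi * g x := by
  have h1 : ContDiff ℝ 1 (fun w => g (w + x)) := hg.comp (contDiff_id.add contDiff_const)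
  have h2 : HasCompactSupport (fun w => g (w + x)) := hc.comp_homeomorph (Homeomorph.addRight x)
  have h3 := Pool.Agent.H71.Top.pompeiu (fun w => g (w + x)) h1 h2
  simp only [zero_add] at h3
  rw [← h3, ← integral_add_right_eq_self (fun w => dbar1 g w * (w - x)⁻¹) x]
  refine integral_congr_ae (Eventually.of_forall fun w => ?_)
  show dbar1 g (w + x) * (w + x - x)⁻¹ = Pool.Agent.H71.Top.dbar1 (fun w => g (w + x)) w / w
  rw [add_sub_cancel_right, div_eq_mul_inv]
  congr 1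
  show (1 / 2 : ℂ) * (fderiv ℝ g (w + x) 1 + Complex.I * fderiv ℝ g (w + x) Complex.I) =
    (1 / 2 : ℂ) * (fderiv ℝ (fun w => g (w + x)) w 1 + Complex.I * fderiv ℝ (fun w => g (w + x)) w Complex.I)
  rw [fderiv_comp_add_right]

private theorem db_hol {f : ℂ → ℂ} {y : ℂ} (h : DifferentiableAt ℂ f y) : dbar1 f y = 0 := by
  have h1 := h.hasDerivAt.hasFDerivAt.restrictScalars ℝ
  unfold dbar1
  rw [h1.fderiv]
  simp only [ContinuousLinearMap.coe_restrictScalars', ContinuousLinearMap.toSpanSingleton_apply,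
    smul_eq_mul]
  ring_nf
  rw [Complex.I_sq]
  ring

private theorem db_mul {f g : ℂ → ℂ} {y : ℂ} (hf : DifferentiableAt ℝ f y)
    (hg : DifferentiableAt ℝ g y) :
    dbar1 (fun w => f w * g w) y = dbar1 f y * g y + f y * dbar1 g y := by
  have h1 := (hf.hasFDerivAt.mul hg.hasFDerivAt).fderiv
  have h2 : fderiv ℝ (fun w => f w * g w) y = f y • fderiv ℝ g y + g y • fderiv ℝ f y := h1
  unfold dbar1
  rw [h2]
  simp only [add_apply, smul_apply, smul_eq_mul]
  ring

private theorem db_mulh' {χ f : ℂ → ℂ} {N : Set ℂ} (hχ : ContDiff ℝ 1 χ) (hs : tsupport χ ⊆ N) (hN : IsOpen N)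
    (hf : DifferentiableOn ℂ f N) :
    ContDiff ℝ 1 (fun y => χ y * f y) ∧ tsupport (fun y => χ y * f y) ⊆ tsupport χ ∧
      ∀ y, dbar1 (fun y => χ y * f y) y = dbar1 χ y * f y := by
  have hv0 : ∀ y ∉ tsupport χ, (fun y => χ y * f y) =ᶠ[𝓝 y] 0 := by
    intro y hy
    filter_upwards [notMem_tsupport_iff_eventuallyEq.1 hy] with w hw
    have hw' : χ w = 0 := hw
    change χ w * f w = 0
    rw [hw', zero_mul]
  have hfd : ∀ y ∈ tsupport χ, DifferentiableAt ℂ f y ∧ ContDiffAt ℝ 1 f y := by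
    intro y hy
    have h1 : N ∈ 𝓝 y := hN.mem_nhds (hs hy)
    have h2 : AnalyticAt ℂ f y := (hf.analyticAt h1)
    exact ⟨h2.differentiableAt, (h2.contDiffAt (n := 1)).restrict_scalars ℝ⟩
  refine ⟨?_, ?_, ?_⟩
  · rw [contDiff_iff_contDiffAt]
    intro y
    by_cases hy : y ∈ tsupport χ
    · exact hχ.contDiffAt.mul (hfd y hy).2
    · exact (contDiffAt_const (c := (0 : ℂ))).congr_of_eventuallyEq (hv0 y hy)
  · intro y hy
    by_contra hcon
    exact (notMem_tsupport_iff_eventuallyEq.2 (hv0 y hcon)) hy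
  · intro y
    by_cases hy : y ∈ tsupport χ
    · obtain ⟨b1, b2⟩ := hfd y hy
      rw [db_mul (hχ.differentiable one_ne_zero y) (b2.differentiableAt one_ne_zero), db_hol b1,
        mul_zero, add_zero]
    · rw [db_off hy, zero_mul]
      apply db_of_fderiv
      rw [(hv0 y hy).fderiv_eq]
      exact fderiv_const_apply 0

private theorem one_term (h : KN q r M N Z C) {ψ : ℂ → ℂ} (hψ : ContDiff ℝ 1 ψ) (hc : HasCompactSupport ψ)
    (hs : tsupport ψ ⊆ N) {x : ℂ} (hx : x ∈ M) :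
    Integrable (fun y => dbar1 ψ y * q x y) ∧ ∫ y, dbar1 ψ y * q x y = -Real.pi * ψ x := by
  have hxN : x ∈ N := h.MN hx
  have hf : DifferentiableOn ℂ (fun y => r x y * (y - x)) N :=
    (h.rw x hxN).mul (differentiableOn_id.sub (differentiableOn_const _))
  obtain ⟨h1, h2, h3⟩ := db_mulh' hψ hs h.No hf
  have hvc : HasCompactSupport (fun y => ψ y * (r x y * (y - x))) :=
    hc.isCompact.of_isClosed_subset (isClosed_tsupport _) h2
  have e : (fun y => dbar1 ψ y * q x y) =ᵐ[volume]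
      fun y => dbar1 ψ y * (y - x)⁻¹ + dbar1 (fun y => ψ y * (r x y * (y - x))) y * (y - x)⁻¹ := by
    have hne : ∀ᵐ y : ℂ, y ≠ x := by
      have : volume ({x} : Set ℂ) = 0 := measure_singleton x
      rw [ae_iff]
      simpa using this
    filter_upwards [hne] with y hy
    have hyx : y - x ≠ 0 := sub_ne_zero.2 hy
    rw [h3 y]
    by_cases hyN : y ∈ N
    · rw [h.eq x hxN y hyN hy]
      field_simp
    · have h4 : dbar1 ψ y = 0 := db_off fun h5 => hyN (hs h5)
      rw [h4]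
      ring
  have i1 := int_one hψ hc x
  have i2 := int_one h1 hvc x
  refine ⟨(i1.add i2).congr e.symm, ?_⟩
  rw [integral_congr_ae e, integral_add i1 i2, pomp hψ hc x, pomp h1 hvc x]
  simp

theorem rep (h : KN q r M N Z C) {ψ : ℂ → ℂ} (hψ : ContDiff ℝ 1 ψ) (hc : HasCompactSupport ψ) (hs : tsupport ψ ⊆ N)
    {L : ℕ} {A x : ℕ → ℂ} (hx : ∀ k < L, x k ∈ M) :
    ∑ k ∈ Finset.range L, A k * ψ (x k) = -((Real.pi : ℂ)⁻¹) * ∫ y, dbar1 ψ y * Ph q L A x y := by
  have hpi : (Real.pi : ℂ) ≠ 0 := by exact_mod_cast Real.pi_ne_zero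
  have e : (fun y => dbar1 ψ y * Ph q L A x y) =
      fun y => ∑ k ∈ Finset.range L, A k * (dbar1 ψ y * q (x k) y) := by
    funext y
    unfold Ph
    rw [Finset.mul_sum]
    exact Finset.sum_congr rfl fun k _ => by ring
  rw [e, integral_finset_sum _ fun k hk =>
    (one_term h hψ hc hs (hx k (Finset.mem_range.1 hk))).1.const_mul (A k), Finset.mul_sum]
  refine Finset.sum_congr rfl fun k hk => ?_
  rw [integral_const_mul, (one_term h hψ hc hs (hx k (Finset.mem_range.1 hk))).2]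
  field_simp

theorem rep_le (h : KN q r M N Z C) {ψ : ℂ → ℂ} (hψ : ContDiff ℝ 1 ψ) (hc : HasCompactSupport ψ) (hs : tsupport ψ ⊆ N)
    {B : ℝ} (hB : ∀ y, ‖dbar1 ψ y‖ ≤ B) {L : ℕ} {A x : ℕ → ℂ} (hx : ∀ k < L, x k ∈ M) :
    ‖∑ k ∈ Finset.range L, A k * ψ (x k)‖ₑ ≤ ENNReal.ofReal B * ∫⁻ w in N, ‖Ph q L A x w‖ₑ := by
  rw [rep h hψ hc hs hx, enorm_mul]
  have h1 : ‖-((Real.pi : ℂ)⁻¹)‖ₑ ≤ 1 := by
    rw [enorm_neg, ← ofReal_norm, norm_inv, Complex.norm_real, Real.norm_eq_abs, abs_of_pos Real.pi_pos]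
    rw [← ENNReal.ofReal_one]
    refine ENNReal.ofReal_le_ofReal ?_
    exact inv_le_one_of_one_le₀ (by linarith [Real.pi_gt_three])
  have h2 : ‖∫ y, dbar1 ψ y * Ph q L A x y‖ₑ ≤ ∫⁻ y, N.indicator (fun y => ENNReal.ofReal B * ‖Ph q L A x y‖ₑ) y := by
    refine (enorm_integral_le_lintegral_enorm _).trans (lintegral_mono fun y => ?_)
    by_cases hy : y ∈ N
    · rw [indicator_of_mem hy, enorm_mul]
      refine mul_le_mul_left ?_ _
      rw [← ofReal_norm]
      exact ENNReal.ofReal_le_ofReal (hB y)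
    · rw [indicator_of_notMem hy, db_off fun h5 => hy (hs h5), zero_mul, enorm_zero]
  rw [lintegral_indicator h.No.measurableSet, lintegral_const_mul' _ _ ENNReal.ofReal_ne_top] at h2
  calc _ ≤ 1 * (ENNReal.ofReal B * ∫⁻ w in N, ‖Ph q L A x w‖ₑ) := mul_le_mul' h1 h2
    _ = _ := one_mul _

/-- the derivative of a product with a holomorphic function -/
theorem db_mulh {χ f : ℂ → ℂ} (hχ : ContDiff ℝ 1 χ) (hs : tsupport χ ⊆ N) (hN : IsOpen N) (hf : DifferentiableOn ℂ f N) :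
    ContDiff ℝ 1 (fun y => χ y * f y) ∧ tsupport (fun y => χ y * f y) ⊆ tsupport χ ∧
      ∀ y, dbar1 (fun y => χ y * f y) y = dbar1 χ y * f y := db_mulh' hχ hs hN hf

theorem cut_ex {M N : Set ℂ} (hM : IsCompact M) (hN : IsOpen N) (h : M ⊆ N) :
    ∃ (χ : ℂ → ℂ) (B : ℝ), ContDiff ℝ 1 χ ∧ HasCompactSupport χ ∧ tsupport χ ⊆ N ∧ (∀ x ∈ M, χ x = 1) ∧
      (∀ y, ‖χ y‖ ≤ 1) ∧ 0 ≤ B ∧ ∀ y, ‖dbar1 χ y‖ ≤ B := by
  obtain ⟨K, hK, hMK, hKN⟩ := exists_compact_between hM hN h
  obtain ⟨f, hf0, hf1, hf⟩ := exists_contMDiffMap_zero_one_of_isClosed (modelWithCornersSelf ℝ ℂ) (n := 1)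
    (s := (interior K)ᶜ) (t := M) isOpen_interior.isClosed_compl hM.isClosed
    (disjoint_left.2 fun x hx hxM => hx (hMK hxM))
  have hfc : ContDiff ℝ 1 (fun y => f y) := by
    have := f.contMDiff
    exact contMDiff_iff_contDiff.1 this
  have hχ : ContDiff ℝ 1 (fun y => ((f y : ℝ) : ℂ)) := Complex.ofRealCLM.contDiff.comp hfc
  have hts : tsupport (fun y => ((f y : ℝ) : ℂ)) ⊆ K := by
    refine closure_minimal (fun y hy => ?_) hK.isClosed
    by_contra hcon
    refine hy ?_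
    have h1 : y ∈ (interior K)ᶜ := fun h2 => hcon (interior_subset h2)
    have h3 : f y = 0 := hf0 h1
    change ((f y : ℝ) : ℂ) = 0
    rw [h3, Complex.ofReal_zero]
  have hcs : HasCompactSupport (fun y => ((f y : ℝ) : ℂ)) :=
    hK.of_isClosed_subset (isClosed_tsupport _) hts
  obtain ⟨B, hB⟩ := (db_cont hχ).bounded_above_of_compact_support (db_cs hcs)
  refine ⟨fun y => ((f y : ℝ) : ℂ), B, hχ, hcs, hts.trans hKN, fun x hx => ?_, fun y => ?_,
    (norm_nonneg _).trans (hB 0), hB⟩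
  · have h3 : f x = 1 := hf1 hx
    change ((f x : ℝ) : ℂ) = 1
    rw [h3, Complex.ofReal_one]
  · rw [Complex.norm_real, Real.norm_eq_abs, abs_of_nonneg (hf y).1]
    exact (hf y).2

end Pool.Agent.H31.LOC
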